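import Mathlib

set_option autoImplicit false

open MeasureTheory Filter Topology Set Complex

namespace Pool.Agent.Helper34.Bmoa

/-- the Cayley transform onto the right half plane -/
noncomputable def sf (z : ℂ) : ℂ := (1 + z) / (1 - z)

lemma sf_re (z : ℂ) : (sf z).re = (1 - ‖z‖ ^ 2) / ‖1 - z‖ ^ 2 := by
  rw [sf, Complex.div_re, ← Complex.normSq_eq_norm_sq, ← Complex.normSq_eq_norm_sq,
    ← add_div]
  congr 1
  simp [Complex.normSq_apply]
  ring

lemma sf_re_pos {z : ℂ} (hz : ‖z‖ < 1) : 0 < (sf z).re := by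
  rw [sf_re]
  have h1 : 0 < 1 - ‖z‖ ^ 2 := by nlinarith [norm_nonneg z]
  have h2 : 1 - z ≠ 0 := by
    intro h
    rw [sub_eq_zero] at h
    rw [← h] at hz
    simp at hz
  have h3 : 0 < ‖1 - z‖ ^ 2 := by positivity
  positivity

lemma sf_re_bdry {z : ℂ} (hz : ‖z‖ = 1) : (sf z).re = 0 := by
  rw [sf_re, hz]
  simp

/-- the real part of the principal square root -/
lemma re_cpow_half (ζ : ℂ) : (ζ ^ (1 / 2 : ℂ)).re = Real.sqrt ((‖ζ‖ + ζ.re) / 2) := by
  set r := ζ ^ (1 / 2 : ℂ) with hr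
  have h1 : r ^ 2 = ζ := by
    rw [hr]
    have := Complex.cpow_nat_inv_pow ζ (n := 2) (by norm_num)
    simpa using this
  have h2 : 0 ≤ r.re := by
    by_cases h0 : ζ = 0
    · rw [hr, h0]
      simp
    · rw [hr, Complex.cpow_def_of_ne_zero h0, Complex.exp_re]
      have h3 : (Complex.log ζ * (1 / 2)).im = Complex.arg ζ / 2 := by
        rw [mul_comm]
        have : (1 / 2 : ℂ) = ((1 / 2 : ℝ) : ℂ) := by push_cast; rfl
        rw [this, Complex.im_ofReal_mul, Complex.log_im]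
        ring
      rw [h3]
      have h4 := Complex.neg_pi_lt_arg ζ
      have h5 := Complex.arg_le_pi ζ
      have h6 : 0 ≤ Real.cos (Complex.arg ζ / 2) :=
        Real.cos_nonneg_of_neg_pi_div_two_le_of_le (by linarith) (by linarith)
      positivity
  have h3 : r.re ^ 2 - r.im ^ 2 = ζ.re := by
    rw [← h1, sq r, Complex.mul_re]
    ring
  have h4 : r.re ^ 2 + r.im ^ 2 = ‖ζ‖ := by
    rw [← h1, norm_pow, ← Complex.normSq_eq_norm_sq, Complex.normSq_apply]
    ring
  rw [eq_comm, Real.sqrt_eq_iff_mul_self_eq]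
  · linarith
  · have := Complex.abs_re_le_norm ζ
    have := neg_abs_le ζ.re
    linarith
  · exact h2

/-- `ρ(ζ) = Re (ζ² + 1)^{1/2}` -/
noncomputable def rho (ζ : ℂ) : ℝ := Real.sqrt ((‖ζ ^ 2 + 1‖ + (ζ ^ 2 + 1).re) / 2)

lemma continuous_rho : Continuous rho := by
  unfold rho
  fun_prop

lemma rho_nonneg (ζ : ℂ) : 0 ≤ rho ζ := Real.sqrt_nonneg _

lemma le_rho (ζ : ℂ) : ζ.re ≤ rho ζ := by
  rw [rho]
  apply Real.le_sqrt_of_sq_le
  have h1 : ‖ζ‖ ^ 2 - 1 ≤ ‖ζ ^ 2 + 1‖ := by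
    have := norm_sub_norm_le (ζ ^ 2) (-1)
    simpa using this
  have h2 : (ζ ^ 2 + 1).re = ζ.re ^ 2 - ζ.im ^ 2 + 1 := by
    rw [Complex.add_re, sq, Complex.mul_re]
    simp
    ring
  have h3 : ‖ζ‖ ^ 2 = ζ.re ^ 2 + ζ.im ^ 2 := by
    rw [← Complex.normSq_eq_norm_sq, Complex.normSq_apply]
    ring
  rw [h2]
  linarith

lemma rho_bdry {ζ : ℂ} (h : ζ.re = 0) :
    rho ζ = Real.sqrt ((|1 - ζ.im ^ 2| + (1 - ζ.im ^ 2)) / 2) := by
  have h2 : ζ ^ 2 + 1 = ((1 - ζ.im ^ 2 : ℝ) : ℂ) := by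
    apply Complex.ext
    · rw [Complex.add_re, sq, Complex.mul_re, Complex.ofReal_re, h]
      simp
      ring
    · rw [Complex.add_im, sq, Complex.mul_im, Complex.ofReal_im, h]
      simp
  rw [rho, h2, Complex.norm_real, Complex.ofReal_re, Real.norm_eq_abs]

/-- The extremal function. -/
noncomputable def F (z : ℂ) : ℂ := Complex.exp (-((sf z) ^ 2 + 1) ^ (1 / 2 : ℂ))

lemma norm_F (z : ℂ) : ‖F z‖ = Real.exp (-rho (sf z)) := by
  rw [F, Complex.norm_exp, Complex.neg_re, re_cpow_half, rho]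

lemma norm_F_le_one (z : ℂ) : ‖F z‖ ≤ 1 := by
  rw [norm_F]
  apply Real.exp_le_one_iff.2
  have := rho_nonneg (sf z)
  linarith

lemma norm_F_le {z : ℂ} (hz : ‖z‖ < 1) : ‖F z‖ ≤ Real.exp (-(sf z).re) := by
  rw [norm_F]
  apply Real.exp_le_exp.2
  have := le_rho (sf z)
  linarith

lemma one_sub_ne_zero {z : ℂ} (hz : ‖z‖ < 1) : 1 - z ≠ 0 := by
  intro h
  rw [sub_eq_zero] at h
  rw [← h] at hz
  simp at hz

lemma differentiableAt_sf {z : ℂ} (hz : z ≠ 1) : DifferentiableAt ℂ sf z := by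
  unfold sf
  refine DifferentiableAt.div (by fun_prop) (by fun_prop) ?_
  intro h
  rw [sub_eq_zero] at h
  exact hz h.symm

lemma ne_one {z : ℂ} (hz : ‖z‖ < 1) : z ≠ 1 := by
  rintro rfl
  simp at hz

lemma mem_slitPlane {z : ℂ} (hz : ‖z‖ < 1) : (sf z) ^ 2 + 1 ∈ Complex.slitPlane := by
  rw [Complex.mem_slitPlane_iff]
  have h1 := sf_re_pos hz
  by_cases h : (sf z).im = 0
  · left
    rw [Complex.add_re, sq, Complex.mul_re, h]
    simp
    positivity
  · right
    rw [Complex.add_im, sq, Complex.mul_im]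
    simp
    intro h3
    have h4 : (sf z).re * (sf z).im ≠ 0 := mul_ne_zero h1.ne' h
    apply h4
    linarith

lemma differentiableOn_F : DifferentiableOn ℂ F (Metric.ball 0 1) := by
  intro z hz
  rw [Metric.mem_ball, dist_zero_right] at hz
  apply DifferentiableAt.differentiableWithinAt
  unfold F
  have h1 := differentiableAt_sf (ne_one hz)
  have h2 : DifferentiableAt ℂ (fun z => (sf z) ^ 2 + 1) z := (h1.pow 2).add_const 1
  exact (h2.cpow (differentiableAt_const _) (mem_slitPlane hz)).neg.cexp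

/-- `‖sin u‖ ≤ exp |Im u|` -/
lemma norm_sin_le (u : ℂ) : ‖Complex.sin u‖ ≤ Real.exp |u.im| := by
  have h1 : Complex.sin u = (Complex.exp (-u * Complex.I) - Complex.exp (u * Complex.I)) *
      Complex.I / 2 := rfl
  rw [h1, norm_div, norm_mul, Complex.norm_I, mul_one]
  have h2 : ‖Complex.exp (-u * Complex.I)‖ ≤ Real.exp |u.im| := by
    rw [Complex.norm_exp]
    apply Real.exp_le_exp.2
    simp
    exact le_abs_self _
  have h3 : ‖Complex.exp (u * Complex.I)‖ ≤ Real.exp |u.im| := by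
    rw [Complex.norm_exp]
    apply Real.exp_le_exp.2
    simp
    exact neg_le_abs _
  have h4 := norm_sub_le (Complex.exp (-u * Complex.I)) (Complex.exp (u * Complex.I))
  have h5 : ‖(2 : ℂ)‖ = 2 := by simp
  rw [h5]
  linarith

/-- The test function. -/
noncomputable def T (b : ℝ) (z : ℂ) : ℂ := Complex.sin (-Complex.I * b * sf z) / b

lemma norm_T_le {b : ℝ} (hb : 0 < b) {z : ℂ} (hz : 0 ≤ (sf z).re) :
    ‖T b z‖ ≤ Real.exp (b * (sf z).re) / b := by
  rw [T, norm_div, Complex.norm_real, Real.norm_eq_abs, abs_of_pos hb]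
  have h1 := norm_sin_le (-Complex.I * b * sf z)
  have h2 : |(-Complex.I * b * sf z).im| = b * (sf z).re := by
    have : (-Complex.I * b * sf z).im = -(b * (sf z).re) := by
      simp
    rw [this, abs_neg, abs_of_nonneg (by positivity)]
  rw [h2] at h1
  gcongr

lemma T_bdry {b : ℝ} {z : ℂ} (hz : (sf z).re = 0) :
    T b z = ((Real.sin (b * (sf z).im) / b : ℝ) : ℂ) := by
  have h1 : -Complex.I * b * sf z = ((b * (sf z).im : ℝ) : ℂ) := by
    apply Complex.ext <;> simp [hz]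
  rw [T, h1]
  push_cast
  rfl

lemma norm_T_zero_le {b : ℝ} (hb : 0 < b) : ‖T b 0‖ ≤ Real.exp b := by
  have h1 : sf 0 = 1 := by simp [sf]
  rw [T, h1, mul_one, norm_div, Complex.norm_real, Real.norm_eq_abs, abs_of_pos hb]
  have h2 : Complex.sin (-Complex.I * b) = -(Complex.I * (Real.sinh b : ℂ)) := by
    rw [neg_mul, Complex.sin_neg, mul_comm, Complex.sin_mul_I, mul_comm]
    push_cast
    rfl
  rw [h2, norm_neg, norm_mul, Complex.norm_I, one_mul, Complex.norm_real, Real.norm_eq_abs,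
    abs_of_nonneg (Real.sinh_nonneg_iff.2 hb.le), div_le_iff₀ hb]
  rw [Real.sinh_eq]
  have h3 : 1 + (-(2 * b)) ≤ Real.exp (-(2 * b)) := by
    have := Real.add_one_le_exp (-(2 * b))
    linarith
  have h4 : Real.exp (-b) = Real.exp b * Real.exp (-(2 * b)) := by
    rw [← Real.exp_add]
    ring_nf
  rw [h4]
  have h5 := Real.exp_pos b
  nlinarith

lemma differentiableOn_T (b : ℝ) : DifferentiableOn ℂ (T b) (Metric.ball 0 1) := by
  intro z hz
  rw [Metric.mem_ball, dist_zero_right] at hz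
  apply DifferentiableAt.differentiableWithinAt
  unfold T
  have h1 := differentiableAt_sf (ne_one hz)
  exact ((h1.const_mul _).csin).div_const _

lemma continuousAt_T (b : ℝ) {z : ℂ} (hz : z ≠ 1) : ContinuousAt (T b) z := by
  unfold T
  have h1 := (differentiableAt_sf hz).continuousAt
  have h2 : ContinuousAt (fun z => -Complex.I * b * sf z) z := h1.const_mul _
  exact (Complex.continuous_sin.continuousAt.comp h2).div_const _

end Pool.Agent.Helper34.Bmoa
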