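import Pool.Agent.Helper34.Bmoa1

set_option autoImplicit false

open MeasureTheory Filter Topology Set Complex
open scoped Interval

namespace Pool.Agent.Helper34.Bmoa

/-- radii tending to one -/
noncomputable def rr (n : ℕ) : ℝ := 1 - 1 / ((n : ℝ) + 2)

lemma rr_lt_one (n : ℕ) : rr n < 1 := by
  have : (0 : ℝ) < 1 / ((n : ℝ) + 2) := by positivity
  unfold rr
  linarith

lemma half_le_rr (n : ℕ) : 1 / 2 ≤ rr n := by
  have h1 : 1 / ((n : ℝ) + 2) ≤ 1 / 2 := by
    apply one_div_le_one_div_of_le (by norm_num)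
    have : (0 : ℝ) ≤ n := Nat.cast_nonneg n
    linarith
  unfold rr
  linarith

lemma rr_pos (n : ℕ) : 0 < rr n := by
  have := half_le_rr n
  linarith

lemma tendsto_rr : Tendsto rr atTop (𝓝 1) := by
  have h1 : Tendsto (fun n : ℕ => 1 / ((n : ℝ) + 2)) atTop (𝓝 0) := by
    have h2 := tendsto_one_div_add_atTop_nhds_zero_nat (𝕜 := ℝ)
    have h3 := (tendsto_add_atTop_iff_nat 1).2 h2
    refine h3.congr ?_
    intro n
    push_cast
    ring
  have h2 := h1.const_sub 1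
  rw [sub_zero] at h2
  exact h2

/-- the point `r_n e^{iθ}` -/
noncomputable def cm (n : ℕ) (θ : ℝ) : ℂ := circleMap 0 (rr n) θ

lemma norm_cm (n : ℕ) (θ : ℝ) : ‖cm n θ‖ = rr n := by
  rw [cm, norm_circleMap_zero, abs_of_pos (rr_pos n)]

lemma norm_cm_lt (n : ℕ) (θ : ℝ) : ‖cm n θ‖ < 1 := by
  rw [norm_cm]
  exact rr_lt_one n

lemma cm_mem (n : ℕ) (θ : ℝ) : cm n θ ∈ Metric.ball (0 : ℂ) 1 := by
  rw [Metric.mem_ball, dist_zero_right]
  exact norm_cm_lt n θ

lemma continuous_cm (n : ℕ) : Continuous (cm n) := continuous_circleMap 0 (rr n)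

/-- the boundary point -/
noncomputable def cb (θ : ℝ) : ℂ := circleMap 0 1 θ

lemma norm_cb (θ : ℝ) : ‖cb θ‖ = 1 := by
  rw [cb, norm_circleMap_zero, abs_one]

lemma tendsto_cm (θ : ℝ) : Tendsto (fun n => cm n θ) atTop (𝓝 (cb θ)) := by
  have h1 : ∀ n, cm n θ = (rr n : ℂ) * Complex.exp (θ * Complex.I) := by
    intro n
    rw [cm, circleMap_zero]
  have h2 : cb θ = ((1 : ℝ) : ℂ) * Complex.exp (θ * Complex.I) := by
    rw [cb, circleMap_zero]
  simp_rw [h1]
  rw [h2]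
  exact ((Complex.continuous_ofReal.tendsto 1).comp tendsto_rr).mul_const _

lemma continuous_cb : Continuous cb := continuous_circleMap 0 1

lemma ae_cb_ne_one : ∀ᵐ θ : ℝ, θ ∈ Ι 0 (2 * Real.pi) → cb θ ≠ 1 := by
  have h1 : ∀ᵐ θ : ℝ, θ ≠ 2 * Real.pi := by simp [ae_iff, measure_singleton]
  filter_upwards [h1] with θ hθ hmem h
  rw [uIoc_of_le Real.two_pi_pos.le] at hmem
  have h2 : Complex.exp (θ * Complex.I) = 1 := by
    rw [cb, circleMap_zero] at h
    simpa using h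
  rw [Complex.exp_eq_one_iff] at h2
  obtain ⟨k, hk⟩ := h2
  have h3 : (θ : ℂ) = ((k * (2 * Real.pi) : ℝ) : ℂ) := by
    have h4 : (θ : ℂ) * Complex.I = (((k * (2 * Real.pi) : ℝ) : ℂ)) * Complex.I := by
      rw [hk]
      push_cast
      ring
    exact mul_right_cancel₀ Complex.I_ne_zero h4
  have h5 : θ = k * (2 * Real.pi) := by exact_mod_cast h3
  have hpi := Real.pi_pos
  have h6 : (0 : ℝ) < k := by
    by_contra hneg
    push Not at hneg
    have : θ ≤ 0 := by rw [h5]; nlinarith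
    linarith [hmem.1]
  have h7 : (k : ℝ) ≤ 1 := by
    by_contra hneg
    push Not at hneg
    have : 2 * Real.pi < θ := by rw [h5]; nlinarith
    linarith [hmem.2]
  have h8 : k = 1 := by
    have a1 : (0 : ℤ) < k := by exact_mod_cast h6
    have a2 : k ≤ (1 : ℤ) := by exact_mod_cast h7
    omega
  apply hθ
  rw [h5, h8]
  simp

lemma measurable_sf : Measurable sf := by
  unfold sf
  exact (measurable_const.add measurable_id).div (measurable_const.sub measurable_id)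

lemma measurable_T (b : ℝ) : Measurable (T b) := by
  unfold T
  exact ((Complex.continuous_sin.measurable.comp (measurable_sf.const_mul _))).div_const _

lemma sf_cb_re (θ : ℝ) : (sf (cb θ)).re = 0 := sf_re_bdry (norm_cb θ)

/-- boundary coordinate -/
noncomputable def yy (θ : ℝ) : ℝ := (sf (cb θ)).im

/-- the boundary weight -/
noncomputable def tt (b θ : ℝ) : ℝ := Real.sin (b * yy θ) / b

lemma T_cb (b θ : ℝ) : T b (cb θ) = (tt b θ : ℂ) := T_bdry (sf_cb_re θ)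

lemma measurable_tt (b : ℝ) : Measurable (tt b) := by
  have h1 : tt b = fun θ => (T b (cb θ)).re := by
    funext θ
    rw [T_cb, Complex.ofReal_re]
  rw [h1]
  exact Complex.measurable_re.comp ((measurable_T b).comp continuous_cb.measurable)

lemma abs_tt_le {b : ℝ} (hb : 0 < b) (θ : ℝ) : |tt b θ| ≤ 1 / b := by
  rw [tt, abs_div, abs_of_pos hb]
  gcongr
  exact Real.abs_sin_le_one _

lemma tt_pow_le {b : ℝ} (hb : 0 < b) (N : ℕ) (θ : ℝ) : tt b θ ^ (2 * N) ≤ (1 / b) ^ (2 * N) := by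
  have h1 : tt b θ ^ (2 * N) = |tt b θ| ^ (2 * N) := by
    rw [pow_mul, pow_mul, sq_abs]
  rw [h1]
  gcongr
  exact abs_tt_le hb θ

lemma tt_pow_nonneg (b : ℝ) (N : ℕ) (θ : ℝ) : 0 ≤ tt b θ ^ (2 * N) := by
  rw [pow_mul]
  positivity

lemma tt_pow_le_one {b : ℝ} (hb : 0 < b) (N : ℕ) {θ : ℝ} (hy : |yy θ| ≤ 1) :
    tt b θ ^ (2 * N) ≤ 1 := by
  have h1 : tt b θ ^ (2 * N) = |tt b θ| ^ (2 * N) := by
    rw [pow_mul, pow_mul, sq_abs]
  rw [h1]
  apply pow_le_one₀ (abs_nonneg _)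
  rw [tt, abs_div, abs_of_pos hb, div_le_one hb]
  calc |Real.sin (b * yy θ)| ≤ |b * yy θ| := Real.abs_sin_le_abs
    _ = b * |yy θ| := by rw [abs_mul, abs_of_pos hb]
    _ ≤ b * 1 := by gcongr
    _ = b := mul_one b

lemma two_pow_le_tt {b : ℝ} (hb : 0 < b) (hb4 : b ≤ 1 / 4) (N : ℕ) {θ : ℝ} (h2 : 2 ≤ yy θ)
    (h3 : yy θ ≤ 3) : (2 : ℝ) ^ N ≤ tt b θ ^ (2 * N) := by
  rw [pow_mul]
  have hx0 : 0 < b * yy θ := by positivity
  have hx1 : b * yy θ ≤ 3 / 4 := by nlinarith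
  have h4 := Real.sin_gt_sub_cube hx0
  have h5 : 3 / 2 ≤ tt b θ := by
    rw [tt, le_div_iff₀ hb]
    have h6 : b * yy θ - (b * yy θ) ^ 3 / 6 ≥ b * yy θ * (1 - 9 / 96) := by
      have : (b * yy θ) ^ 2 ≤ 9 / 16 := by nlinarith
      nlinarith
    nlinarith
  have h7 : (2 : ℝ) ≤ tt b θ ^ 2 := by nlinarith
  gcongr

lemma norm_F_cb {θ : ℝ} (hy : 1 ≤ |yy θ|) : ‖F (cb θ)‖ = 1 := by
  rw [norm_F, rho_bdry (sf_cb_re θ)]
  have h1 : 1 ≤ (sf (cb θ)).im ^ 2 := by
    rw [← sq_abs]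
    have : (1 : ℝ) ≤ |(sf (cb θ)).im| := hy
    nlinarith
  rw [abs_of_nonpos (by linarith)]
  simp

lemma norm_F_cb_lt {θ : ℝ} (hy : |yy θ| < 1) : ‖F (cb θ)‖ < 1 := by
  rw [norm_F, rho_bdry (sf_cb_re θ)]
  have h1 : (sf (cb θ)).im ^ 2 < 1 := by
    rw [← sq_abs]
    have : |(sf (cb θ)).im| < 1 := hy
    have := abs_nonneg (sf (cb θ)).im
    nlinarith
  rw [abs_of_pos (by linarith)]
  rw [Real.exp_lt_one_iff]
  have : 0 < Real.sqrt ((1 - (sf (cb θ)).im ^ 2 + (1 - (sf (cb θ)).im ^ 2)) / 2) := by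
    apply Real.sqrt_pos.2
    linarith
  linarith

lemma continuousAt_norm_F {z : ℂ} (hz : z ≠ 1) : ContinuousAt (fun z => ‖F z‖) z := by
  have h1 : (fun z => ‖F z‖) = fun z => Real.exp (-rho (sf z)) := by
    funext z
    exact norm_F z
  rw [h1]
  have h2 := (differentiableAt_sf hz).continuousAt
  have h3 : ContinuousAt (fun z => rho (sf z)) z :=
    (continuous_rho.continuousAt (x := sf z)).comp h2
  exact Real.continuous_exp.continuousAt.comp h3.neg

/-- limit of the defect integrals -/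
lemma tendsto_defect {b : ℝ} (hb : 0 < b) (N : ℕ) :
    Tendsto (fun n => ∫ θ in (0 : ℝ)..(2 * Real.pi), (1 - ‖F (cm n θ)‖ ^ 2) * tt b θ ^ (2 * N))
      atTop (𝓝 (∫ θ in (0 : ℝ)..(2 * Real.pi), (1 - ‖F (cb θ)‖ ^ 2) * tt b θ ^ (2 * N))) := by
  apply intervalIntegral.tendsto_integral_filter_of_dominated_convergence
    (fun _ => (1 / b) ^ (2 * N))
  · refine Eventually.of_forall fun n => ?_
    apply Measurable.aestronglyMeasurable
    have h1 : Continuous fun θ => ‖F (cm n θ)‖ := by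
      rw [continuous_iff_continuousAt]
      intro θ
      exact (continuousAt_norm_F (ne_one (norm_cm_lt n θ))).comp (continuous_cm n).continuousAt
    exact (measurable_const.sub (h1.measurable.pow_const 2)).mul ((measurable_tt b).pow_const _)
  · refine Eventually.of_forall fun n => Eventually.of_forall fun θ _ => ?_
    have h1 := norm_F_le_one (cm n θ)
    have h2 := norm_nonneg (F (cm n θ))
    rw [Real.norm_eq_abs, abs_mul, abs_of_nonneg (tt_pow_nonneg b N θ),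
      abs_of_nonneg (by nlinarith)]
    have h3 := tt_pow_le hb N θ
    have h4 := tt_pow_nonneg b N θ
    nlinarith [sq_nonneg ‖F (cm n θ)‖]
  · exact intervalIntegrable_const
  · filter_upwards [ae_cb_ne_one] with θ hθ hmem
    have h1 : Tendsto (fun n => ‖F (cm n θ)‖) atTop (𝓝 ‖F (cb θ)‖) :=
      (continuousAt_norm_F (hθ hmem)).tendsto.comp (tendsto_cm θ)
    exact ((h1.pow 2).const_sub 1).mul_const _

lemma defect_le {b : ℝ} (hb : 0 < b) (N : ℕ) :
    ∫ θ in (0 : ℝ)..(2 * Real.pi), (1 - ‖F (cb θ)‖ ^ 2) * tt b θ ^ (2 * N) ≤ 2 * Real.pi := by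
  have h1 : ∀ θ ∈ Ι (0 : ℝ) (2 * Real.pi),
      ‖(1 - ‖F (cb θ)‖ ^ 2) * tt b θ ^ (2 * N)‖ ≤ 1 := by
    intro θ _
    have h1 := norm_F_le_one (cb θ)
    have h2 := norm_nonneg (F (cb θ))
    have h4 := tt_pow_nonneg b N θ
    rw [Real.norm_eq_abs, abs_mul, abs_of_nonneg h4, abs_of_nonneg (by nlinarith)]
    rcases le_total 1 |yy θ| with hy | hy
    · rw [norm_F_cb hy]
      simp
    · have h5 := tt_pow_le_one hb N hy
      nlinarith [sq_nonneg ‖F (cb θ)‖]
  have h2 := intervalIntegral.norm_integral_le_of_norm_le_const h1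
  rw [one_mul, sub_zero, abs_of_pos Real.two_pi_pos] at h2
  exact (le_abs_self _).trans h2

section main

variable {q : ℂ → ℂ} (hq : DifferentiableOn ℂ q (Metric.ball 0 1))
  (hbd : ∀ z ∈ Metric.ball (0 : ℂ) 1, ‖F z + (starRingEnd ℂ) (q z)‖ ≤ 1)
include hbd

lemma norm_q_le {z : ℂ} (hz : ‖z‖ < 1) : ‖q z‖ ≤ 2 := by
  have h1 := hbd z (by rwa [Metric.mem_ball, dist_zero_right])
  have h2 : ‖q z‖ = ‖(F z + (starRingEnd ℂ) (q z)) - F z‖ := by
    rw [add_sub_cancel_left, RCLike.norm_conj]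
  rw [h2]
  have h3 := norm_sub_le (F z + (starRingEnd ℂ) (q z)) (F z)
  have h4 := norm_F_le_one z
  linarith

lemma key_ineq {z : ℂ} (hz : ‖z‖ < 1) :
    ‖q z‖ ^ 2 ≤ 1 - ‖F z‖ ^ 2 - 2 * (F z * q z).re := by
  have h1 := hbd z (by rwa [Metric.mem_ball, dist_zero_right])
  have h2 : ‖F z + (starRingEnd ℂ) (q z)‖ ^ 2 ≤ 1 := by
    have := norm_nonneg (F z + (starRingEnd ℂ) (q z))
    nlinarith
  rw [← Complex.normSq_eq_norm_sq, Complex.normSq_add, Complex.normSq_conj,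
    Complex.conj_conj, Complex.normSq_eq_norm_sq, Complex.normSq_eq_norm_sq] at h2
  linarith

lemma norm_G_le {z : ℂ} (hz : ‖z‖ < 1) : ‖F z * q z‖ ≤ 2 * Real.exp (-(sf z).re) := by
  rw [norm_mul]
  have h1 := norm_F_le hz
  have h2 := norm_q_le hbd hz
  have h3 := norm_nonneg (F z)
  have h4 := norm_nonneg (q z)
  nlinarith [Real.exp_pos (-(sf z).re)]

lemma norm_G_le_two {z : ℂ} (hz : ‖z‖ < 1) : ‖F z * q z‖ ≤ 2 := by
  have h1 := norm_G_le hbd hz
  have h2 : Real.exp (-(sf z).re) ≤ 1 := by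
    rw [Real.exp_le_one_iff]
    have := sf_re_pos hz
    linarith
  linarith

lemma norm_GT_le {b : ℝ} (hb : 0 < b) (N : ℕ) (hN : 2 * N * b ≤ 1) {z : ℂ} (hz : ‖z‖ < 1) :
    ‖F z * q z * T b z ^ (2 * N)‖ ≤ 2 * (1 / b) ^ (2 * N) := by
  rw [norm_mul, norm_pow]
  have h1 := norm_G_le hbd hz
  have h2 := norm_T_le hb (sf_re_pos hz).le
  have h3 : ‖T b z‖ ^ (2 * N) ≤ Real.exp ((sf z).re) * (1 / b) ^ (2 * N) := by
    calc ‖T b z‖ ^ (2 * N) ≤ (Real.exp (b * (sf z).re) / b) ^ (2 * N) := by gcongr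
      _ = Real.exp (b * (sf z).re) ^ (2 * N) * (1 / b) ^ (2 * N) := by
          rw [div_eq_mul_one_div, mul_pow]
      _ = Real.exp ((2 * N : ℕ) * (b * (sf z).re)) * (1 / b) ^ (2 * N) := by
          rw [Real.exp_nat_mul]
      _ ≤ Real.exp ((sf z).re) * (1 / b) ^ (2 * N) := by
          gcongr
          have h5 := sf_re_pos hz
          push_cast
          nlinarith
  have h4 := Real.exp_pos (-(sf z).re)
  calc ‖F z * q z‖ * ‖T b z‖ ^ (2 * N)
      ≤ (2 * Real.exp (-(sf z).re)) * (Real.exp ((sf z).re) * (1 / b) ^ (2 * N)) := by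
        gcongr
    _ = 2 * (Real.exp (-(sf z).re) * Real.exp ((sf z).re)) * (1 / b) ^ (2 * N) := by ring
    _ = 2 * (1 / b) ^ (2 * N) := by
        rw [← Real.exp_add]
        simp

include hq

omit hbd in
lemma differentiableOn_G : DifferentiableOn ℂ (fun z => F z * q z) (Metric.ball 0 1) :=
  differentiableOn_F.mul hq

omit hbd in
/-- mean value property -/
lemma mean_value (b : ℝ) (N n : ℕ) :
    ∫ θ in (0 : ℝ)..(2 * Real.pi), F (cm n θ) * q (cm n θ) * T b (cm n θ) ^ (2 * N) =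
      2 * Real.pi * (F 0 * q 0 * T b 0 ^ (2 * N)) := by
  have h1 : DiffContOnCl ℂ (fun z => F z * q z * T b z ^ (2 * N)) (Metric.ball 0 |rr n|) := by
    have h2 : DifferentiableOn ℂ (fun z => F z * q z * T b z ^ (2 * N)) (Metric.ball 0 1) :=
      (differentiableOn_F.mul hq).mul ((differentiableOn_T b).pow _)
    apply DifferentiableOn.diffContOnCl
    refine h2.mono ?_
    refine Metric.closure_ball_subset_closedBall.trans ?_
    rw [abs_of_pos (rr_pos n)]
    exact Metric.closedBall_subset_ball (rr_lt_one n)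
  have h3 := h1.circleAverage
  rw [Real.circleAverage_def] at h3
  have h4 : (2 * Real.pi : ℂ) ≠ 0 := by
    exact_mod_cast Real.two_pi_pos.ne'
  rw [← h3]
  rw [Complex.real_smul]
  push_cast
  rw [← mul_assoc, mul_inv_cancel₀ h4, one_mul]
  rfl

end main

end Pool.Agent.Helper34.Bmoa
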