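import Pool.Agent.Helper34.Bmoa2

set_option autoImplicit false

open MeasureTheory Filter Topology Set Complex
open scoped Interval

namespace Pool.Agent.Helper34.Bmoa

section main

variable {q : ℂ → ℂ} (hq : DifferentiableOn ℂ q (Metric.ball 0 1))
  (hbd : ∀ z ∈ Metric.ball (0 : ℂ) 1, ‖F z + (starRingEnd ℂ) (q z)‖ ≤ 1)

include hq in
lemma continuous_G_cm (n : ℕ) : Continuous fun θ => F (cm n θ) * q (cm n θ) :=
  ((differentiableOn_G hq).continuousOn).comp_continuous (continuous_cm n) (cm_mem n)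

include hq in
lemma continuous_q_cm (n : ℕ) : Continuous fun θ => q (cm n θ) :=
  (hq.continuousOn).comp_continuous (continuous_cm n) (cm_mem n)

lemma continuous_T_cm (b : ℝ) (n : ℕ) : Continuous fun θ => T b (cm n θ) :=
  ((differentiableOn_T b).continuousOn).comp_continuous (continuous_cm n) (cm_mem n)

lemma continuous_F_cm (n : ℕ) : Continuous fun θ => F (cm n θ) :=
  (differentiableOn_F.continuousOn).comp_continuous (continuous_cm n) (cm_mem n)

include hq hbd in
/-- the error term -/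
lemma tendsto_error {b : ℝ} (hb : 0 < b) (N : ℕ) (hN : 2 * N * b ≤ 1) :
    Tendsto (fun n => ∫ θ in (0 : ℝ)..(2 * Real.pi),
      F (cm n θ) * q (cm n θ) * (T b (cm n θ) ^ (2 * N) - (tt b θ : ℂ) ^ (2 * N)))
      atTop (𝓝 0) := by
  have hz : (0 : ℂ) = ∫ θ in (0 : ℝ)..(2 * Real.pi), (0 : ℂ) := by simp
  rw [hz]
  apply intervalIntegral.tendsto_integral_filter_of_dominated_convergence
    (fun _ => 4 * (1 / b) ^ (2 * N))
  · refine Eventually.of_forall fun n => ?_
    apply Measurable.aestronglyMeasurable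
    refine (continuous_G_cm hq n).measurable.mul ?_
    refine ((continuous_T_cm b n).measurable.pow_const _).sub ?_
    exact (Complex.measurable_ofReal.comp (measurable_tt b)).pow_const _
  · refine Eventually.of_forall fun n => Eventually.of_forall fun θ _ => ?_
    have h1 := norm_GT_le hbd hb N hN (norm_cm_lt n θ)
    have h2 : ‖F (cm n θ) * q (cm n θ) * (tt b θ : ℂ) ^ (2 * N)‖ ≤ 2 * (1 / b) ^ (2 * N) := by
      rw [norm_mul]
      have h3 := norm_G_le_two hbd (norm_cm_lt n θ)
      have h4 : ‖(tt b θ : ℂ) ^ (2 * N)‖ ≤ (1 / b) ^ (2 * N) := by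
        rw [norm_pow, Complex.norm_real, Real.norm_eq_abs]
        gcongr
        exact abs_tt_le hb θ
      gcongr
    rw [mul_sub]
    refine (norm_sub_le _ _).trans ?_
    linarith
  · exact intervalIntegrable_const
  · filter_upwards [ae_cb_ne_one] with θ hθ hmem
    have h1 : Tendsto (fun n => T b (cm n θ)) atTop (𝓝 (T b (cb θ))) :=
      (continuousAt_T b (hθ hmem)).tendsto.comp (tendsto_cm θ)
    rw [T_cb] at h1
    have h2 : Tendsto (fun n => T b (cm n θ) ^ (2 * N) - (tt b θ : ℂ) ^ (2 * N)) atTop (𝓝 0) := by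
      have := (h1.pow (2 * N)).sub_const ((tt b θ : ℂ) ^ (2 * N))
      rwa [sub_self] at this
    have h3 : Tendsto (fun n => 2 * ‖T b (cm n θ) ^ (2 * N) - (tt b θ : ℂ) ^ (2 * N)‖) atTop
        (𝓝 0) := by
      have := h2.norm.const_mul 2
      simpa using this
    refine squeeze_zero_norm (fun n => ?_) h3
    rw [norm_mul]
    gcongr
    exact norm_G_le_two hbd (norm_cm_lt n θ)

lemma intervalIntegrable_mul_tt {f : ℝ → ℝ} (hf : Continuous f) {b : ℝ} (hb : 0 < b) (N : ℕ)
    (a c : ℝ) : IntervalIntegrable (fun θ => f θ * tt b θ ^ (2 * N)) volume a c := by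
  have h1 : IntervalIntegrable (fun θ => tt b θ ^ (2 * N)) volume a c := by
    apply IntervalIntegrable.mono_fun (f := fun _ => (1 / b) ^ (2 * N)) intervalIntegrable_const
    · exact ((measurable_tt b).pow_const _).aestronglyMeasurable
    · refine Eventually.of_forall fun θ => ?_
      have h4 := tt_pow_nonneg b N θ
      have h5 := tt_pow_le hb N θ
      simp only [Real.norm_eq_abs]
      rw [abs_of_nonneg h4, abs_of_nonneg (h4.trans h5)]
      exact h5
  exact h1.continuousOn_mul hf.continuousOn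

lemma intervalIntegrable_mul_ttc {f : ℝ → ℂ} (hf : Continuous f) {b : ℝ} (hb : 0 < b) (N : ℕ)
    (a c : ℝ) : IntervalIntegrable (fun θ => f θ * (tt b θ : ℂ) ^ (2 * N)) volume a c := by
  have h1 : IntervalIntegrable (fun θ => (tt b θ : ℂ) ^ (2 * N)) volume a c := by
    apply IntervalIntegrable.mono_fun (f := fun _ => (1 / b) ^ (2 * N)) intervalIntegrable_const
    · exact ((Complex.measurable_ofReal.comp (measurable_tt b)).pow_const _).aestronglyMeasurable
    · refine Eventually.of_forall fun θ => ?_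
      have h5 := abs_tt_le hb θ
      simp only [norm_pow, Complex.norm_real, Real.norm_eq_abs]
      rw [abs_of_pos (by positivity : (0 : ℝ) < 1 / b)]
      gcongr
  exact h1.continuousOn_mul hf.continuousOn

include hq hbd in
/-- the main estimate -/
lemma eventually_le {b : ℝ} (hb : 0 < b) (N : ℕ) (hN : 2 * N * b ≤ 1) :
    ∀ᶠ n in atTop, ∫ θ in (0 : ℝ)..(2 * Real.pi), ‖q (cm n θ)‖ ^ 2 * tt b θ ^ (2 * N) ≤ 100 := by
  have h1 := tendsto_error hq hbd hb N hN
  have h2 := tendsto_defect hb N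
  have h3 := defect_le hb N
  have h4 : ∀ᶠ n in atTop, ‖∫ θ in (0 : ℝ)..(2 * Real.pi),
      F (cm n θ) * q (cm n θ) * (T b (cm n θ) ^ (2 * N) - (tt b θ : ℂ) ^ (2 * N))‖ < 1 := by
    have := h1.norm
    rw [norm_zero] at this
    exact this.eventually_lt_const one_pos
  have h5 : ∀ᶠ n in atTop, ∫ θ in (0 : ℝ)..(2 * Real.pi),
      (1 - ‖F (cm n θ)‖ ^ 2) * tt b θ ^ (2 * N) < 2 * Real.pi + 1 := by
    apply h2.eventually_lt_const
    linarith
  filter_upwards [h4, h5] with n hn4 hn5
  -- pointwise inequality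
  have hF : Continuous fun θ => ‖F (cm n θ)‖ ^ 2 := (continuous_F_cm n).norm.pow 2
  have hG := continuous_G_cm hq n
  have hGre : Continuous fun θ => (F (cm n θ) * q (cm n θ)).re := Complex.continuous_re.comp hG
  have h6 : ∫ θ in (0 : ℝ)..(2 * Real.pi), ‖q (cm n θ)‖ ^ 2 * tt b θ ^ (2 * N) ≤
      ∫ θ in (0 : ℝ)..(2 * Real.pi), ((1 - ‖F (cm n θ)‖ ^ 2) * tt b θ ^ (2 * N) -
        2 * ((F (cm n θ) * q (cm n θ)).re * tt b θ ^ (2 * N))) := by
    apply intervalIntegral.integral_mono_on Real.two_pi_pos.le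
    · exact intervalIntegrable_mul_tt ((continuous_q_cm hq n).norm.pow 2) hb N _ _
    · exact (intervalIntegrable_mul_tt (continuous_const.sub hF) hb N _ _).sub
        ((intervalIntegrable_mul_tt hGre hb N _ _).const_mul 2)
    · intro θ _
      have h7 := key_ineq hbd (norm_cm_lt n θ)
      have h8 := tt_pow_nonneg b N θ
      nlinarith
  have hI1 : IntervalIntegrable (fun θ => (1 - ‖F (cm n θ)‖ ^ 2) * tt b θ ^ (2 * N)) volume 0
      (2 * Real.pi) := intervalIntegrable_mul_tt (continuous_const.sub hF) hb N _ _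
  have hI2 : IntervalIntegrable (fun θ => 2 * ((F (cm n θ) * q (cm n θ)).re * tt b θ ^ (2 * N)))
      volume 0 (2 * Real.pi) := (intervalIntegrable_mul_tt hGre hb N _ _).const_mul 2
  rw [intervalIntegral.integral_sub hI1 hI2, intervalIntegral.integral_const_mul] at h6
  -- the G integral
  have h7 : ∫ θ in (0 : ℝ)..(2 * Real.pi), (F (cm n θ) * q (cm n θ)).re * tt b θ ^ (2 * N) =
      (∫ θ in (0 : ℝ)..(2 * Real.pi), F (cm n θ) * q (cm n θ) * (tt b θ : ℂ) ^ (2 * N)).re := by
    have h8 := Complex.reCLM.intervalIntegral_comp_comm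
      (intervalIntegrable_mul_ttc hG hb N 0 (2 * Real.pi))
    simp only [Complex.reCLM_apply] at h8
    rw [← h8]
    congr 1
    funext θ
    rw [← Complex.ofReal_pow, Complex.re_mul_ofReal]
  have h8 : ∫ θ in (0 : ℝ)..(2 * Real.pi), F (cm n θ) * q (cm n θ) * (tt b θ : ℂ) ^ (2 * N) =
      2 * Real.pi * (F 0 * q 0 * T b 0 ^ (2 * N)) - ∫ θ in (0 : ℝ)..(2 * Real.pi),
      F (cm n θ) * q (cm n θ) * (T b (cm n θ) ^ (2 * N) - (tt b θ : ℂ) ^ (2 * N)) := by
    rw [← mean_value hq b N n, ← intervalIntegral.integral_sub]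
    · congr 1
      funext θ
      ring
    · exact (hG.mul ((continuous_T_cm b n).pow _)).intervalIntegrable _ _
    · have h9 := ((hG.mul ((continuous_T_cm b n).pow (2 * N))).intervalIntegrable
        (μ := volume) 0 (2 * Real.pi)).sub
        (intervalIntegrable_mul_ttc hG hb N 0 (2 * Real.pi))
      refine h9.congr ?_
      intro θ _
      simp only [Pi.mul_apply, Pi.pow_apply]
      ring
  have h9 : ‖∫ θ in (0 : ℝ)..(2 * Real.pi), F (cm n θ) * q (cm n θ) * (tt b θ : ℂ) ^ (2 * N)‖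
      ≤ 2 * Real.pi * 2 * 3 + 1 := by
    rw [h8]
    refine (norm_sub_le _ _).trans ?_
    have h10 : ‖(2 * Real.pi * (F 0 * q 0 * T b 0 ^ (2 * N)) : ℂ)‖ ≤ 2 * Real.pi * 2 * 3 := by
      have h11 : ‖F 0 * q 0‖ ≤ 2 := norm_G_le_two hbd (by simp)
      have h12 : ‖T b 0‖ ^ (2 * N) ≤ 3 := by
        calc ‖T b 0‖ ^ (2 * N) ≤ (Real.exp b) ^ (2 * N) := by
              gcongr
              exact norm_T_zero_le hb
          _ = Real.exp ((2 * N : ℕ) * b) := by rw [Real.exp_nat_mul]
          _ ≤ Real.exp 1 := by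
              apply Real.exp_le_exp.2
              push_cast
              exact hN
          _ ≤ 3 := by
              have := Real.exp_one_lt_d9
              linarith
      rw [norm_mul, norm_mul, norm_mul (F 0 * q 0), norm_pow]
      have h13 : ‖(2 : ℂ)‖ * ‖(Real.pi : ℂ)‖ = 2 * Real.pi := by
        rw [Complex.norm_real, Real.norm_eq_abs, abs_of_pos Real.pi_pos]
        simp
      rw [h13]
      have h14 : ‖F 0 * q 0‖ * ‖T b 0‖ ^ (2 * N) ≤ 2 * 3 := by gcongr
      have := Real.pi_pos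
      nlinarith
    linarith
  have h10 : |(∫ θ in (0 : ℝ)..(2 * Real.pi),
      F (cm n θ) * q (cm n θ) * (tt b θ : ℂ) ^ (2 * N)).re| ≤ 2 * Real.pi * 2 * 3 + 1 :=
    (Complex.abs_re_le_norm _).trans h9
  rw [h7] at h6
  have h11 := neg_abs_le (∫ θ in (0 : ℝ)..(2 * Real.pi),
      F (cm n θ) * q (cm n θ) * (tt b θ : ℂ) ^ (2 * N)).re
  have hpi : Real.pi < 3.15 := Real.pi_lt_d2
  linarith

end main

end Pool.Agent.Helper34.Bmoa
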