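import Pool.Agent.Helper34.Bmoa3

set_option autoImplicit false

open MeasureTheory Filter Topology Set Complex
open scoped Interval

namespace Pool.Agent.Helper34.Bmoa

lemma cb_re (θ : ℝ) : (cb θ).re = Real.cos θ := by
  rw [cb, circleMap_zero, Complex.ofReal_one, one_mul, Complex.exp_ofReal_mul_I_re]

lemma cb_im (θ : ℝ) : (cb θ).im = Real.sin θ := by
  rw [cb, circleMap_zero, Complex.ofReal_one, one_mul, Complex.exp_ofReal_mul_I_im]

lemma yy_eq (θ : ℝ) : yy θ = 2 * Real.sin θ / (2 - 2 * Real.cos θ) := by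
  rw [yy, sf, Complex.div_im]
  have h1 : Complex.normSq (1 - cb θ) = 2 - 2 * Real.cos θ := by
    rw [Complex.normSq_apply]
    simp only [Complex.sub_re, Complex.sub_im, Complex.one_re, Complex.one_im, cb_re, cb_im]
    nlinarith [Real.sin_sq_add_cos_sq θ]
  rw [h1]
  simp only [Complex.sub_re, Complex.sub_im, Complex.one_re, Complex.one_im, cb_re, cb_im,
    Complex.add_re, Complex.add_im]
  rw [← sub_div]
  congr 1
  ring

/-- endpoints of the arc -/
noncomputable def a1 : ℝ := Real.arccos (4 / 5)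
noncomputable def a2 : ℝ := Real.arccos (3 / 5)

lemma a1_lt_a2 : a1 < a2 := Real.arccos_lt_arccos (by norm_num) (by norm_num) (by norm_num)

lemma a1_nonneg : 0 ≤ a1 := Real.arccos_nonneg _

lemma a2_le : a2 ≤ 2 * Real.pi := by
  have := Real.arccos_le_pi (3 / 5)
  have h2 := Real.pi_pos
  unfold a2
  linarith

lemma yy_mem {θ : ℝ} (h1 : a1 ≤ θ) (h2 : θ ≤ a2) : 2 ≤ yy θ ∧ yy θ ≤ 3 := by
  have h0 : 0 ≤ θ := a1_nonneg.trans h1
  have hpi : θ ≤ Real.pi := h2.trans (Real.arccos_le_pi _)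
  have hc1 : Real.cos θ ≤ 4 / 5 := by
    have := Real.cos_le_cos_of_nonneg_of_le_pi a1_nonneg hpi h1
    rwa [a1, Real.cos_arccos (by norm_num) (by norm_num)] at this
  have hc2 : 3 / 5 ≤ Real.cos θ := by
    have h := Real.cos_le_cos_of_nonneg_of_le_pi h0 (Real.arccos_le_pi _) h2
    rwa [Real.cos_arccos (by norm_num) (by norm_num)] at h
  have hs : 0 ≤ Real.sin θ := Real.sin_nonneg_of_nonneg_of_le_pi h0 hpi
  have hd : 0 < 2 - 2 * Real.cos θ := by linarith
  have hsq := Real.sin_sq_add_cos_sq θ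
  rw [yy_eq, le_div_iff₀ hd, div_le_iff₀ hd]
  constructor
  · have : (2 * (2 - 2 * Real.cos θ)) ^ 2 ≤ (2 * Real.sin θ) ^ 2 := by nlinarith
    exact (pow_le_pow_iff_left₀ (by positivity) (by positivity) two_ne_zero).1 this
  · have : (2 * Real.sin θ) ^ 2 ≤ (3 * (2 - 2 * Real.cos θ)) ^ 2 := by nlinarith
    exact (pow_le_pow_iff_left₀ (by positivity) (by positivity) two_ne_zero).1 this

section main

variable {q : ℂ → ℂ} (hq : DifferentiableOn ℂ q (Metric.ball 0 1))
  (hbd : ∀ z ∈ Metric.ball (0 : ℂ) 1, ‖F z + (starRingEnd ℂ) (q z)‖ ≤ 1)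

include hq hbd in
lemma eventually_arc_le (N : ℕ) (hN : 1 ≤ N) :
    ∀ᶠ n in atTop, ∫ θ in a1..a2, ‖q (cm n θ)‖ ^ 2 ≤ 100 * (1 / 2) ^ N := by
  have hN0 : (1 : ℝ) ≤ N := by exact_mod_cast hN
  set b : ℝ := 1 / (4 * N) with hbdef
  have hb : 0 < b := by positivity
  have hb4 : b ≤ 1 / 4 := by
    rw [hbdef]
    apply one_div_le_one_div_of_le (by norm_num)
    linarith
  have hNb : 2 * N * b ≤ 1 := by
    rw [hbdef]
    field_simp
    norm_num
  filter_upwards [eventually_le hq hbd hb N hNb] with n hn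
  have hcont := (continuous_q_cm hq n).norm.pow 2
  have hI : ∀ x y, IntervalIntegrable (fun θ => ‖q (cm n θ)‖ ^ 2 * tt b θ ^ (2 * N)) volume x y :=
    fun x y => intervalIntegrable_mul_tt hcont hb N x y
  have hnn : ∀ θ, 0 ≤ ‖q (cm n θ)‖ ^ 2 * tt b θ ^ (2 * N) := fun θ =>
    mul_nonneg (by positivity) (tt_pow_nonneg b N θ)
  have h1 : ∫ θ in a1..a2, ‖q (cm n θ)‖ ^ 2 * tt b θ ^ (2 * N) ≤ 100 := by
    have h2 : ∫ θ in a1..a2, ‖q (cm n θ)‖ ^ 2 * tt b θ ^ (2 * N) ≤
        ∫ θ in (0 : ℝ)..(2 * Real.pi), ‖q (cm n θ)‖ ^ 2 * tt b θ ^ (2 * N) := by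
      apply intervalIntegral.integral_mono_interval a1_nonneg a1_lt_a2.le a2_le
      · exact Eventually.of_forall hnn
      · exact hI _ _
    linarith
  have h2 : ∫ θ in a1..a2, 2 ^ N * ‖q (cm n θ)‖ ^ 2 ≤
      ∫ θ in a1..a2, ‖q (cm n θ)‖ ^ 2 * tt b θ ^ (2 * N) := by
    apply intervalIntegral.integral_mono_on a1_lt_a2.le
    · exact (hcont.const_mul _).intervalIntegrable _ _
    · exact hI _ _
    · intro θ hθ
      obtain ⟨h3, h4⟩ := yy_mem hθ.1 hθ.2
      have h5 := two_pow_le_tt hb hb4 N h3 h4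
      rw [mul_comm]
      gcongr
  rw [intervalIntegral.integral_const_mul] at h2
  have h3 : (0 : ℝ) < 2 ^ N := by positivity
  rw [one_div, inv_pow, ← div_eq_mul_inv, le_div_iff₀ h3]
  linarith

include hq in
lemma jensen_lower : ∃ L : ℝ, ∀ n, L ≤ ∫ θ in (0 : ℝ)..(2 * Real.pi), Real.log ‖q (cm n θ)‖ := by
  have hana : AnalyticOnNhd ℂ q (Metric.ball 0 1) := hq.analyticOnNhd Metric.isOpen_ball
  refine ⟨2 * Real.pi * ((((analyticOrderAt q 0).map (fun n : ℕ => (n : ℤ))).untop₀ : ℤ) *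
    Real.log (1 / 2) + Real.log ‖meromorphicTrailingCoeffAt q 0‖), fun n => ?_⟩
  have hR : rr n ≠ 0 := (rr_pos n).ne'
  have hsub : Metric.closedBall (0 : ℂ) |rr n| ⊆ Metric.ball 0 1 := by
    rw [abs_of_pos (rr_pos n)]
    exact Metric.closedBall_subset_ball (rr_lt_one n)
  have hana' : AnalyticOnNhd ℂ q (Metric.closedBall 0 |rr n|) := hana.mono hsub
  have h1 := MeromorphicOn.circleAverage_log_norm hR hana'.meromorphicOn
  rw [Real.circleAverage_def] at h1
  have h2 : ∫ θ in (0 : ℝ)..(2 * Real.pi), Real.log ‖q (cm n θ)‖ = 2 * Real.pi *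
      ((2 * Real.pi)⁻¹ • ∫ θ in (0 : ℝ)..(2 * Real.pi), Real.log ‖q (circleMap 0 (rr n) θ)‖) := by
    rw [smul_eq_mul, ← mul_assoc, mul_inv_cancel₀ Real.two_pi_pos.ne', one_mul]
    rfl
  rw [h2, h1]
  have hmem : (0 : ℂ) ∈ Metric.closedBall (0 : ℂ) |rr n| := by simp
  rw [MeromorphicOn.AnalyticOnNhd.divisor_apply hana' hmem]
  have hdiv := MeromorphicOn.AnalyticOnNhd.divisor_nonneg hana'
  have h3 : 0 ≤ ∑ᶠ u, (MeromorphicOn.divisor q (Metric.closedBall 0 |rr n|) u : ℝ) *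
      Real.log (rr n * ‖0 - u‖⁻¹) := by
    apply finsum_nonneg
    intro u
    by_cases hu : u ∈ Metric.closedBall (0 : ℂ) |rr n|
    · apply mul_nonneg
      · exact_mod_cast hdiv u
      · rcases eq_or_ne u 0 with rfl | hu0
        · simp
        · apply Real.log_nonneg
          rw [mem_closedBall_zero_iff, abs_of_pos (rr_pos n)] at hu
          rw [zero_sub, norm_neg, ← div_eq_mul_inv, one_le_div (norm_pos_iff.2 hu0)]
          exact hu
    · rw [(MeromorphicOn.divisor q (Metric.closedBall 0 |rr n|)).apply_eq_zero_of_notMem hu]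
      simp
  have h4 : Real.log (1 / 2) ≤ Real.log (rr n) :=
    Real.log_le_log (by norm_num) (half_le_rr n)
  have h5 : (0 : ℝ) ≤ (((analyticOrderAt q 0).map (fun n : ℕ => (n : ℤ))).untop₀ : ℤ) := by
    have := hdiv 0
    rw [MeromorphicOn.AnalyticOnNhd.divisor_apply hana' hmem] at this
    exact_mod_cast this
  have h6 := mul_le_mul_of_nonneg_left h4 h5
  have h7 := Real.two_pi_pos
  apply mul_le_mul_of_nonneg_left _ h7.le
  linarith

lemma log_le_aux {x δ : ℝ} (hx : 0 < x) (hδ : 0 < δ) :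
    Real.log x ≤ x ^ 2 / (2 * δ) + Real.log δ / 2 := by
  have h1 : Real.log (x ^ 2 / δ) ≤ x ^ 2 / δ - 1 := Real.log_le_sub_one_of_pos (by positivity)
  rw [Real.log_div (by positivity) hδ.ne', Real.log_pow] at h1
  have h2 : x ^ 2 / (2 * δ) = x ^ 2 / δ / 2 := by
    rw [mul_comm, div_mul_eq_div_div]
  rw [h2]
  push_cast at h1
  linarith

include hq in
lemma ae_ne_zero (hne : ∃ z ∈ Metric.ball (0 : ℂ) 1, q z ≠ 0) (n : ℕ) (x y : ℝ) :
    ∀ᵐ θ ∂(volume.restrict (Ι x y)), q (cm n θ) ≠ 0 := by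
  have hana : AnalyticOnNhd ℂ q (Metric.ball 0 1) := hq.analyticOnNhd Metric.isOpen_ball
  obtain ⟨z, hz, hz0⟩ := hne
  have hconn : IsConnected (Metric.ball (0 : ℂ) 1) :=
    (Metric.isConnected_ball one_pos)
  have h1 := hana.preimage_zero_mem_codiscreteWithin hz0 hz hconn
  have h2 : q ⁻¹' {0}ᶜ ∈ codiscreteWithin (Metric.sphere (0 : ℂ) |rr n|) := by
    apply codiscreteWithin_mono _ h1
    rw [abs_of_pos (rr_pos n)]
    intro w hw
    rw [mem_sphere_zero_iff_norm] at hw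
    rw [Metric.mem_ball, dist_zero_right, hw]
    exact rr_lt_one n
  have h3 := circleMap_preimage_codiscrete (rr_pos n).ne' h2
  have h4 : {θ | q (cm n θ) ≠ 0} ∈ codiscreteWithin (Ι x y) :=
    codiscreteWithin_mono (subset_univ _) h3
  exact ae_restrict_le_codiscreteWithin measurableSet_uIoc h4

include hq hbd in
theorem q_eq_zero : ∀ z ∈ Metric.ball (0 : ℂ) 1, q z = 0 := by
  by_contra hcon
  push Not at hcon
  obtain ⟨L, hL⟩ := jensen_lower hq
  have hc : 0 < (a2 - a1) / 2 * Real.log 2 := by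
    have h1 := a1_lt_a2
    have h2 : 0 < Real.log 2 := Real.log_pos (by norm_num)
    have : 0 < a2 - a1 := by linarith
    positivity
  obtain ⟨N, hN⟩ := exists_nat_gt ((2 * Real.pi + 50 - L) / ((a2 - a1) / 2 * Real.log 2))
  rw [div_lt_iff₀ hc] at hN
  have hN1 : 1 ≤ N + 1 := by omega
  obtain ⟨n, hn⟩ := (eventually_arc_le hq hbd (N + 1) hN1).exists
  have hLn := hL n
  have hana : AnalyticOnNhd ℂ q (Metric.ball 0 1) := hq.analyticOnNhd Metric.isOpen_ball
  have hmero : MeromorphicOn q (Metric.sphere (0 : ℂ) |rr n|) := by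
    apply AnalyticOnNhd.meromorphicOn
    apply hana.mono
    rw [abs_of_pos (rr_pos n)]
    intro w hw
    rw [mem_sphere_zero_iff_norm] at hw
    rw [Metric.mem_ball, dist_zero_right, hw]
    exact rr_lt_one n
  have hci : IntervalIntegrable (fun θ => Real.log ‖q (cm n θ)‖) volume 0 (2 * Real.pi) :=
    hmero.circleIntegrable_log_norm
  have hsub1 : uIcc 0 a1 ⊆ uIcc 0 (2 * Real.pi) := by
    rw [uIcc_of_le a1_nonneg, uIcc_of_le Real.two_pi_pos.le]
    exact Icc_subset_Icc le_rfl (a1_lt_a2.le.trans a2_le)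
  have hsub2 : uIcc a1 a2 ⊆ uIcc 0 (2 * Real.pi) := by
    rw [uIcc_of_le a1_lt_a2.le, uIcc_of_le Real.two_pi_pos.le]
    exact Icc_subset_Icc a1_nonneg a2_le
  have hsub3 : uIcc a2 (2 * Real.pi) ⊆ uIcc 0 (2 * Real.pi) := by
    rw [uIcc_of_le a2_le, uIcc_of_le Real.two_pi_pos.le]
    exact Icc_subset_Icc (a1_nonneg.trans a1_lt_a2.le) le_rfl
  have hI1 := hci.mono_set hsub1
  have hI2 := hci.mono_set hsub2
  have hI3 := hci.mono_set hsub3
  have hsplit : ∫ θ in (0 : ℝ)..(2 * Real.pi), Real.log ‖q (cm n θ)‖ =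
      (∫ θ in (0 : ℝ)..a1, Real.log ‖q (cm n θ)‖) + (∫ θ in a1..a2, Real.log ‖q (cm n θ)‖) +
      ∫ θ in a2..(2 * Real.pi), Real.log ‖q (cm n θ)‖ := by
    rw [intervalIntegral.integral_add_adjacent_intervals hI1 hI2,
      intervalIntegral.integral_add_adjacent_intervals (hI1.trans hI2) hI3]
  have hlog1 : ∀ θ, Real.log ‖q (cm n θ)‖ ≤ 1 := by
    intro θ
    rcases eq_or_ne (q (cm n θ)) 0 with h0 | h0
    · rw [h0]
      simp
    · have h1 := norm_q_le hbd (norm_cm_lt n θ)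
      have h2 := Real.log_le_sub_one_of_pos (norm_pos_iff.2 h0)
      linarith
  have hb1 : ∫ θ in (0 : ℝ)..a1, Real.log ‖q (cm n θ)‖ ≤ a1 := by
    have := intervalIntegral.integral_mono_on a1_nonneg hI1 intervalIntegrable_const
      (fun θ _ => hlog1 θ)
    simpa using this
  have hb3 : ∫ θ in a2..(2 * Real.pi), Real.log ‖q (cm n θ)‖ ≤ 2 * Real.pi - a2 := by
    have := intervalIntegral.integral_mono_on a2_le hI3 intervalIntegrable_const
      (fun θ _ => hlog1 θ)
    simpa using this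
  set δ : ℝ := (1 / 2) ^ (N + 1) with hδdef
  have hδ : 0 < δ := by positivity
  have hcont : Continuous fun θ => ‖q (cm n θ)‖ ^ 2 := (continuous_q_cm hq n).norm.pow 2
  have hb2 : ∫ θ in a1..a2, Real.log ‖q (cm n θ)‖ ≤
      50 + (a2 - a1) * (Real.log δ / 2) := by
    have h1 : ∫ θ in a1..a2, Real.log ‖q (cm n θ)‖ ≤
        ∫ θ in a1..a2, (‖q (cm n θ)‖ ^ 2 / (2 * δ) + Real.log δ / 2) := by
      apply intervalIntegral.integral_mono_ae_restrict a1_lt_a2.le hI2
      · exact ((hcont.div_const _).add continuous_const).intervalIntegrable _ _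
      · have h2 := ae_ne_zero hq hcon n a1 a2
        rw [uIoc_of_le a1_lt_a2.le, Measure.restrict_congr_set Ioc_ae_eq_Icc] at h2
        filter_upwards [h2] with θ hθ
        exact log_le_aux (norm_pos_iff.2 hθ) hδ
    rw [intervalIntegral.integral_add ((hcont.div_const _).intervalIntegrable _ _)
      intervalIntegrable_const, intervalIntegral.integral_div,
      intervalIntegral.integral_const, smul_eq_mul] at h1
    have h3 : (∫ θ in a1..a2, ‖q (cm n θ)‖ ^ 2) / (2 * δ) ≤ 50 := by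
      rw [div_le_iff₀ (by positivity)]
      linarith
    linarith
  have hlogδ : Real.log δ = -((N + 1 : ℝ) * Real.log 2) := by
    rw [hδdef, Real.log_pow, one_div, Real.log_inv]
    push_cast
    ring
  rw [hlogδ] at hb2
  rw [hsplit] at hLn
  have := a1_lt_a2
  have h2 : 0 < Real.log 2 := Real.log_pos (by norm_num)
  nlinarith

end main

end Pool.Agent.Helper34.Bmoa
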