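import Pool.Agent.Helper34.Bmoa4

set_option autoImplicit false

open MeasureTheory Filter Topology Set Complex
open scoped Interval

namespace Pool.Agent.Helper34.Bmoa

lemma cb_ne_one {θ : ℝ} (h0 : 0 < θ) (h1 : θ < 2 * Real.pi) : cb θ ≠ 1 := by
  intro h
  have h2 : Real.cos θ = 1 := by rw [← cb_re, h, Complex.one_re]
  rw [Real.cos_eq_one_iff] at h2
  obtain ⟨k, hk⟩ := h2
  have hpi := Real.pi_pos
  have h3 : (0 : ℝ) < k := by
    by_contra hneg
    push Not at hneg
    nlinarith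
  have h4 : (k : ℝ) < 1 := by
    by_contra hneg
    push Not at hneg
    nlinarith
  have a1 : (0 : ℤ) < k := by exact_mod_cast h3
  have a2 : k < (1 : ℤ) := by exact_mod_cast h4
  omega

/-- radial limits of `‖F‖` -/
lemma tendsto_radial {θ : ℝ} (h : cb θ ≠ 1) :
    Tendsto (fun r : ℝ => ‖F ((r : ℂ) * Complex.exp ((θ : ℂ) * Complex.I))‖) (𝓝[<] 1)
      (𝓝 ‖F (cb θ)‖) := by
  have h1 : Tendsto (fun r : ℝ => (r : ℂ) * Complex.exp ((θ : ℂ) * Complex.I)) (𝓝[<] 1)
      (𝓝 (cb θ)) := by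
    have h2 : cb θ = ((1 : ℝ) : ℂ) * Complex.exp (θ * Complex.I) := by
      rw [cb, circleMap_zero]
    rw [h2]
    have h3 : Tendsto (fun r : ℝ => (r : ℂ) * Complex.exp ((θ : ℂ) * Complex.I)) (𝓝 1)
        (𝓝 (((1 : ℝ) : ℂ) * Complex.exp (θ * Complex.I))) :=
      (Complex.continuous_ofReal.tendsto 1).mul_const _
    exact h3.mono_left nhdsWithin_le_nhds
  exact (continuousAt_norm_F h).tendsto.comp h1

/-- No best approximation with constant radial modulus exists for `F`. -/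
theorem not_exists_best (M : ℝ) {q : ℂ → ℂ} (hq : DifferentiableOn ℂ q (Metric.ball 0 1))
    (hM : ∀ z ∈ Metric.ball (0 : ℂ) 1, ‖F z + (starRingEnd ℂ) (q z)‖ ≤ M)
    (hmin : ∀ q' : ℂ → ℂ, DifferentiableOn ℂ q' (Metric.ball 0 1) → ∀ M' : ℝ,
          (∀ z ∈ Metric.ball (0 : ℂ) 1, ‖F z + starRingEnd ℂ (q' z)‖ ≤ M') → M ≤ M')
    (hrad : ∀ᵐ θ : ℝ, Filter.Tendsto
          (fun r : ℝ => ‖F ((r : ℂ) * Complex.exp ((θ : ℂ) * Complex.I)) +
            starRingEnd ℂ (q ((r : ℂ) * Complex.exp ((θ : ℂ) * Complex.I)))‖)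
          (nhdsWithin 1 (Set.Iio 1)) (nhds M)) : False := by
  have hM1 : M ≤ 1 := by
    apply hmin (fun _ => 0) (differentiableOn_const 0) 1
    intro z _
    simpa using norm_F_le_one z
  have hq0 := q_eq_zero hq (fun z hz => (hM z hz).trans hM1)
  -- the radial limit of `‖F‖` is `M` a.e.
  have h1 : ∀ᵐ θ : ℝ, cb θ ≠ 1 → ‖F (cb θ)‖ = M := by
    filter_upwards [hrad] with θ hθ hne
    have h2 := tendsto_radial hne
    refine tendsto_nhds_unique h2 (hθ.congr' ?_)
    have h3 : Ioo (-1 : ℝ) 1 ∈ 𝓝[<] (1 : ℝ) := by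
      apply Ioo_mem_nhdsLT
      norm_num
    filter_upwards [h3] with r hr
    have h4 : (r : ℂ) * Complex.exp ((θ : ℂ) * Complex.I) ∈ Metric.ball (0 : ℂ) 1 := by
      rw [Metric.mem_ball, dist_zero_right, norm_mul, Complex.norm_exp_ofReal_mul_I, mul_one,
        Complex.norm_real, Real.norm_eq_abs, abs_lt]
      exact hr
    rw [hq0 _ h4]
    simp
  -- pick a point in the arc `A`
  have hA : ∃ θ ∈ Ioo a1 a2, (cb θ ≠ 1 → ‖F (cb θ)‖ = M) := by
    have h2 : (volume (Ioo a1 a2)) ≠ 0 := by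
      rw [Real.volume_Ioo]
      simp [a1_lt_a2]
    by_contra hcon
    push Not at hcon
    apply h2
    apply measure_mono_null _ (ae_iff.1 h1)
    intro θ hθ
    have := hcon θ hθ
    simpa using this
  have hpi := Real.pi_pos
  have hB : ∃ θ ∈ Ioo (2 * Real.pi / 3) Real.pi, (cb θ ≠ 1 → ‖F (cb θ)‖ = M) := by
    have h2 : (volume (Ioo (2 * Real.pi / 3) Real.pi)) ≠ 0 := by
      rw [Real.volume_Ioo]
      simp
      linarith
    by_contra hcon
    push Not at hcon
    apply h2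
    apply measure_mono_null _ (ae_iff.1 h1)
    intro θ hθ
    have := hcon θ hθ
    simpa using this
  obtain ⟨θ, hθ, hθ1⟩ := hA
  obtain ⟨φ, hφ, hφ1⟩ := hB
  have h3 : cb θ ≠ 1 := by
    apply cb_ne_one (a1_nonneg.trans_lt hθ.1)
    exact hθ.2.trans_le a2_le
  have h4 : cb φ ≠ 1 := by
    apply cb_ne_one
    · have := hφ.1
      linarith
    · have := hφ.2
      linarith
  have h5 := hθ1 h3
  have h6 := hφ1 h4
  have h7 : ‖F (cb θ)‖ = 1 := by
    apply norm_F_cb
    have := (yy_mem hθ.1.le hθ.2.le).1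
    rw [abs_of_nonneg (by linarith)]
    linarith
  have h8 : ‖F (cb φ)‖ < 1 := by
    apply norm_F_cb_lt
    have hcos : Real.cos φ < 0 := by
      apply Real.cos_neg_of_pi_div_two_lt_of_lt
      · have := hφ.1
        linarith
      · have := hφ.2
        linarith
    have hs : 0 ≤ Real.sin φ := by
      apply Real.sin_nonneg_of_nonneg_of_le_pi
      · have := hφ.1
        linarith
      · exact hφ.2.le
    have hs1 := Real.sin_le_one φ
    rw [yy_eq, abs_of_nonneg (div_nonneg (by linarith) (by linarith)), div_lt_one (by linarith)]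
    linarith
  linarith

end Pool.Agent.Helper34.Bmoa
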