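import Mathlib

set_option autoImplicit false

open MeasureTheory Filter Topology Set InnerProductSpace

namespace Pool.Agent.Helper34.Krein

variable {H : Type*} [NormedAddCommGroup H] [InnerProductSpace ℂ H]

/-- An isometric representation of the discrete additive group of reals. -/
structure IsRep (π : ℝ → H →ₗᵢ[ℂ] H) : Prop where
  zero : ∀ w, π 0 w = w
  add : ∀ x y w, π (x + y) w = π x (π y w)

namespace IsRep

variable {π : ℝ → H →ₗᵢ[ℂ] H} (hπ : IsRep π)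
include hπ

lemma neg_cancel (x : ℝ) (w : H) : π (-x) (π x w) = w := by
  rw [← hπ.add, neg_add_cancel, hπ.zero]

lemma cancel_neg (x : ℝ) (w : H) : π x (π (-x) w) = w := by
  rw [← hπ.add, add_neg_cancel, hπ.zero]

lemma inner_left (x : ℝ) (v w : H) : ⟪π x v, w⟫_ℂ = ⟪v, π (-x) w⟫_ℂ := by
  rw [← (π (-x)).inner_map_map (π x v) w, hπ.neg_cancel]

lemma inner_right (x : ℝ) (v w : H) : ⟪v, π x w⟫_ℂ = ⟪π (-x) v, w⟫_ℂ := by
  rw [hπ.inner_left, neg_neg]

end IsRep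

/-- The subspace of vectors all of whose coefficients vanish almost everywhere. -/
def H0 (π : ℝ → H →ₗᵢ[ℂ] H) : Submodule ℂ H where
  carrier := {w | ∀ x : H, ∀ᵐ l : ℝ, ⟪x, π l w⟫_ℂ = 0}
  add_mem' := by
    intro a b ha hb x
    filter_upwards [ha x, hb x] with l h1 h2
    rw [map_add, inner_add_right, h1, h2, add_zero]
  zero_mem' := by
    intro x
    filter_upwards with l
    simp
  smul_mem' := by
    intro c a ha x
    filter_upwards [ha x] with l h1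
    rw [map_smul, inner_smul_right, h1, mul_zero]

lemma mem_H0 {π : ℝ → H →ₗᵢ[ℂ] H} {w : H} :
    w ∈ H0 π ↔ ∀ x : H, ∀ᵐ l : ℝ, ⟪x, π l w⟫_ℂ = 0 := Iff.rfl

lemma isClosed_H0 (π : ℝ → H →ₗᵢ[ℂ] H) : IsClosed (H0 π : Set H) := by
  rw [← isSeqClosed_iff_isClosed]
  intro s w hs hw x
  have h1 : ∀ᵐ l : ℝ, ∀ n : ℕ, ⟪x, π l (s n)⟫_ℂ = 0 := by
    rw [ae_all_iff]
    intro n
    exact hs n x
  filter_upwards [h1] with l hl
  have h2 : Tendsto (fun n => ⟪x, π l (s n)⟫_ℂ) atTop (𝓝 ⟪x, π l w⟫_ℂ) := by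
    exact tendsto_const_nhds.inner (((π l).continuous.tendsto w).comp hw)
  have h3 : (fun n => ⟪x, π l (s n)⟫_ℂ) = fun _ => (0 : ℂ) := by
    funext n
    exact hl n
  rw [h3] at h2
  exact (tendsto_nhds_unique h2 tendsto_const_nhds)

/-- translation invariance of almost everywhere statements -/
lemma ae_comp_add {p : ℝ → Prop} (h : ∀ᵐ l : ℝ, p l) (a : ℝ) : ∀ᵐ l : ℝ, p (l + a) := by
  have := (measurePreserving_add_right (volume : Measure ℝ) a).quasiMeasurePreserving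
  exact this.ae h

lemma IsRep.H0_invariant {π : ℝ → H →ₗᵢ[ℂ] H} (hπ : IsRep π) {w : H} (hw : w ∈ H0 π) (a : ℝ) :
    π a w ∈ H0 π := by
  intro x
  filter_upwards [ae_comp_add (hw x) a] with l hl
  rw [← hπ.add]
  exact hl

/-- The subspace of norm continuous vectors. -/
def Hc (π : ℝ → H →ₗᵢ[ℂ] H) : Submodule ℂ H where
  carrier := {w | Continuous fun l : ℝ => π l w}
  add_mem' := by
    intro a b ha hb
    have h : Continuous fun l : ℝ => π l a + π l b := Continuous.add ha hb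
    simpa [map_add] using h
  zero_mem' := by
    simpa using continuous_const
  smul_mem' := by
    intro c a ha
    have h : Continuous fun l : ℝ => c • π l a := Continuous.const_smul ha c
    simpa [map_smul] using h

lemma mem_Hc {π : ℝ → H →ₗᵢ[ℂ] H} {w : H} :
    w ∈ Hc π ↔ Continuous fun l : ℝ => π l w := Iff.rfl

lemma isClosed_Hc (π : ℝ → H →ₗᵢ[ℂ] H) : IsClosed (Hc π : Set H) := by
  rw [← isSeqClosed_iff_isClosed]
  intro s w hs hw
  have h1 : TendstoUniformly (fun n (l : ℝ) => π l (s n)) (fun l => π l w) atTop := by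
    rw [Metric.tendstoUniformly_iff]
    intro ε hε
    have := (Metric.tendsto_nhds.1 hw) ε hε
    filter_upwards [this] with n hn
    intro l
    rw [(π l).dist_map, dist_comm]
    exact hn
  exact h1.continuous (Eventually.of_forall hs).frequently

lemma IsRep.Hc_invariant {π : ℝ → H →ₗᵢ[ℂ] H} (hπ : IsRep π) {w : H} (hw : w ∈ Hc π) (a : ℝ) :
    π a w ∈ Hc π := by
  have : Continuous fun l : ℝ => π (l + a) w := by
    have h : Continuous fun l : ℝ => π l w := hw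
    exact h.comp (continuous_add_const a)
  simpa [mem_Hc, hπ.add] using this

lemma IsRep.mem_Hc_of_tendsto {π : ℝ → H →ₗᵢ[ℂ] H} (hπ : IsRep π) {w : H}
    (h : Tendsto (fun a : ℝ => π a w) (𝓝 0) (𝓝 w)) : w ∈ Hc π := by
  rw [mem_Hc, continuous_iff_continuousAt]
  intro l
  rw [ContinuousAt, tendsto_iff_norm_sub_tendsto_zero]
  rw [tendsto_iff_norm_sub_tendsto_zero] at h
  have h2 : Tendsto (fun y : ℝ => y - l) (𝓝 l) (𝓝 0) := by
    have := (continuous_sub_right l).tendsto l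
    simpa using this
  have h3 := h.comp h2
  refine h3.congr ?_
  intro y
  simp only [Function.comp]
  have : π y w - π l w = π l (π (y - l) w - w) := by
    rw [map_sub, ← hπ.add]
    congr 2
    ring_nf
  rw [this, (π l).norm_map]

lemma IsRep.orthogonal_invariant {π : ℝ → H →ₗᵢ[ℂ] H} (hπ : IsRep π) {K : Submodule ℂ H}
    (hK : ∀ w ∈ K, ∀ a, π a w ∈ K) {w : H} (hw : w ∈ Kᗮ) (a : ℝ) : π a w ∈ Kᗮ := by
  rw [Submodule.mem_orthogonal] at hw ⊢
  intro u hu
  rw [hπ.inner_right]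
  exact hw _ (hK u hu _)

lemma exists_finset_sep {T : Set ℝ} (hT : volume T ≠ 0) {p : ℝ → Prop}
    (hp : ∀ᵐ l : ℝ, p l) (n : ℕ) :
    ∃ t : Finset ℝ, t.card = n ∧ (∀ a ∈ t, a ∈ T) ∧ ∀ a ∈ t, ∀ b ∈ t, a ≠ b → p (a - b) := by
  induction n with
  | zero => exact ⟨∅, by simp⟩
  | succ n ih =>
    obtain ⟨t, ht, htT, htp⟩ := ih
    have h1 : ∀ᵐ l : ℝ, ∀ a ∈ t, (p (l - a) ∧ p (a - l)) ∧ l ≠ a := by
      rw [Finset.eventually_all]
      intro a _
      have h2 : ∀ᵐ l : ℝ, p (l - a) := ae_comp_add hp (-a)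
      have h3 : ∀ᵐ l : ℝ, p (a - l) := by
        have := (Measure.measurePreserving_sub_left (volume : Measure ℝ) a).quasiMeasurePreserving
        exact this.ae hp
      have h4 : ∀ᵐ l : ℝ, l ≠ a := by simp [ae_iff, measure_singleton]
      filter_upwards [h2, h3, h4] with l h2 h3 h4
      exact ⟨⟨h2, h3⟩, h4⟩
    have h5 : ∃ l ∈ T, ∀ a ∈ t, (p (l - a) ∧ p (a - l)) ∧ l ≠ a := by
      by_contra hcon
      push Not at hcon
      apply hT
      rw [ae_iff] at h1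
      refine measure_mono_null ?_ h1
      intro l hl
      simp only [mem_ofPred_eq]
      intro hh
      obtain ⟨a, ha, h6⟩ := hcon l hl
      exact (hh a ha).2 (h6 (hh a ha).1)
    obtain ⟨l, hlT, hl⟩ := h5
    have hlt : l ∉ t := fun h => (hl l h).2 rfl
    refine ⟨insert l t, by rw [Finset.card_insert_of_notMem hlt, ht], ?_, ?_⟩
    · intro a ha
      rcases Finset.mem_insert.1 ha with rfl | ha
      · exact hlT
      · exact htT a ha
    · intro a ha b hb hab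
      rcases Finset.mem_insert.1 ha with rfl | ha'
      · rcases Finset.mem_insert.1 hb with rfl | hb'
        · exact absurd rfl hab
        · exact (hl b hb').1.1
      · rcases Finset.mem_insert.1 hb with rfl | hb'
        · exact (hl a ha').1.2
        · exact htp a ha' b hb' hab

/-- Gram matrix estimate. -/
lemma gram_estimate {ι : Type*} (t : Finset ι) (g : ι → H) (x : H) (r B ε : ℝ) (hr : 0 ≤ r)
    (hε : 0 ≤ ε)
    (h1 : ∀ a ∈ t, r ≤ ‖⟪x, g a⟫_ℂ‖) (h2 : ∀ a ∈ t, ‖g a‖ ≤ B)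
    (h3 : ∀ a ∈ t, ∀ b ∈ t, a ≠ b → ‖⟪g a, g b⟫_ℂ‖ ≤ ε) :
    (t.card * r) ^ 2 ≤ ‖x‖ ^ 2 * (t.card * B ^ 2 + t.card ^ 2 * ε) := by
  classical
  set c : ι → ℂ := fun a => (starRingEnd ℂ) ⟪x, g a⟫_ℂ / ‖⟪x, g a⟫_ℂ‖ with hc
  have hcn : ∀ a, ‖c a‖ ≤ 1 := by
    intro a
    rw [hc]
    simp only [norm_div, RCLike.norm_conj, Complex.norm_real, norm_norm]
    exact div_self_le_one _
  have hcx : ∀ a, c a * ⟪x, g a⟫_ℂ = (‖⟪x, g a⟫_ℂ‖ : ℂ) := by
    intro a
    rw [hc]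
    simp only
    by_cases h0 : ⟪x, g a⟫_ℂ = 0
    · simp [h0]
    · have h0' : (‖⟪x, g a⟫_ℂ‖ : ℂ) ≠ 0 := by
        simpa using h0
      field_simp
      rw [mul_comm, Complex.mul_conj, Complex.normSq_eq_norm_sq]
      push_cast
      ring
  set y : H := ∑ a ∈ t, c a • g a with hy
  have hxy : ⟪x, y⟫_ℂ = ((∑ a ∈ t, ‖⟪x, g a⟫_ℂ‖ : ℝ) : ℂ) := by
    rw [hy, inner_sum]
    push_cast
    refine Finset.sum_congr rfl fun a _ => ?_
    rw [inner_smul_right, hcx]
  have hlow : t.card * r ≤ ‖⟪x, y⟫_ℂ‖ := by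
    rw [hxy, Complex.norm_real, Real.norm_of_nonneg (Finset.sum_nonneg fun _ _ => norm_nonneg _)]
    calc (t.card : ℝ) * r = ∑ a ∈ t, r := by simp
      _ ≤ _ := Finset.sum_le_sum h1
  have hyy : ‖y‖ ^ 2 ≤ t.card * B ^ 2 + t.card ^ 2 * ε := by
    have e1 : (‖y‖ ^ 2 : ℝ) = ‖⟪y, y⟫_ℂ‖ := by
      rw [inner_self_eq_norm_sq_to_K]
      simp
    rw [e1]
    have e2 : ⟪y, y⟫_ℂ = ∑ a ∈ t, ∑ b ∈ t, (starRingEnd ℂ) (c a) * (c b * ⟪g a, g b⟫_ℂ) := by
      rw [hy, sum_inner]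
      refine Finset.sum_congr rfl fun a _ => ?_
      rw [inner_smul_left, inner_sum, Finset.mul_sum]
      refine Finset.sum_congr rfl fun b _ => ?_
      rw [inner_smul_right]
    rw [e2]
    have e3 : ∀ a ∈ t, ∀ b ∈ t, ‖(starRingEnd ℂ) (c a) * (c b * ⟪g a, g b⟫_ℂ)‖
        ≤ (if a = b then B ^ 2 else 0) + ε := by
      intro a ha b hb
      rw [norm_mul, norm_mul, RCLike.norm_conj]
      have f1 : ‖c a‖ * (‖c b‖ * ‖⟪g a, g b⟫_ℂ‖) ≤ ‖⟪g a, g b⟫_ℂ‖ := by
        calc ‖c a‖ * (‖c b‖ * ‖⟪g a, g b⟫_ℂ‖) ≤ 1 * (1 * ‖⟪g a, g b⟫_ℂ‖) := by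
              gcongr
              · exact hcn a
              · exact hcn b
          _ = _ := by ring
      refine f1.trans ?_
      by_cases hab : a = b
      · subst hab
        simp only [if_true]
        calc ‖⟪g a, g a⟫_ℂ‖ ≤ ‖g a‖ * ‖g a‖ := norm_inner_le_norm _ _
          _ ≤ B * B := by
            have := h2 a ha
            gcongr
            exact (norm_nonneg _).trans this
          _ ≤ B ^ 2 + ε := by nlinarith
      · simp only [if_neg hab, zero_add]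
        exact h3 a ha b hb hab
    calc ‖∑ a ∈ t, ∑ b ∈ t, (starRingEnd ℂ) (c a) * (c b * ⟪g a, g b⟫_ℂ)‖
        ≤ ∑ a ∈ t, ∑ b ∈ t, ((if a = b then B ^ 2 else 0) + ε) := by
          refine (norm_sum_le _ _).trans (Finset.sum_le_sum fun a ha => ?_)
          exact (norm_sum_le _ _).trans (Finset.sum_le_sum fun b hb => e3 a ha b hb)
      _ = t.card * B ^ 2 + t.card ^ 2 * ε := by
          simp only [Finset.sum_add_distrib, Finset.sum_ite_eq, Finset.sum_const, nsmul_eq_mul]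
          rw [Finset.sum_ite_mem]
          simp
          ring
  calc (t.card * r) ^ 2 ≤ ‖⟪x, y⟫_ℂ‖ ^ 2 := by gcongr
    _ ≤ (‖x‖ * ‖y‖) ^ 2 := by
      gcongr
      exact norm_inner_le_norm _ _
    _ = ‖x‖ ^ 2 * ‖y‖ ^ 2 := by ring
    _ ≤ _ := by gcongr

lemma IsRep.mem_H0_of_small {π : ℝ → H →ₗᵢ[ℂ] H} (hπ : IsRep π) {w : H}
    (h : ∀ ε > 0, ∃ δ > 0, ∀ᵐ l : ℝ, |l| < δ → ‖⟪w, π l w⟫_ℂ‖ ≤ ε) : w ∈ H0 π := by
  intro x
  by_contra hcon
  rw [ae_iff] at hcon
  -- a level set of positive outer measure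
  have h1 : ∃ n : ℕ, volume {l : ℝ | 1 / ((n : ℝ) + 1) < ‖⟪x, π l w⟫_ℂ‖} ≠ 0 := by
    by_contra hall
    push Not at hall
    apply hcon
    refine measure_mono_null ?_ (measure_iUnion_null hall)
    intro l hl
    simp only [mem_ofPred_eq] at hl
    simp only [mem_iUnion, mem_ofPred_eq]
    exact exists_nat_one_div_lt (norm_pos_iff.2 hl)
  obtain ⟨m, hm⟩ := h1
  set r : ℝ := 1 / ((m : ℝ) + 1) with hr
  have hr0 : 0 < r := by positivity
  set ε : ℝ := r ^ 2 / (2 * (‖x‖ ^ 2 + 1)) with hε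
  have hε0 : 0 < ε := by positivity
  obtain ⟨δ, hδ, hδ2⟩ := h ε hε0
  obtain ⟨c, hc, hc2⟩ := exists_mem_forall_mem_nhdsWithin_pos_measure hm
  have h3 : 0 < volume ({l : ℝ | r < ‖⟪x, π l w⟫_ℂ‖} ∩ Metric.ball c (δ / 2)) := by
    apply hc2
    exact inter_mem self_mem_nhdsWithin (mem_nhdsWithin_of_mem_nhds
      (Metric.ball_mem_nhds c (by positivity)))
  obtain ⟨n, hn⟩ := exists_nat_gt (2 * (‖x‖ ^ 2 * ‖w‖ ^ 2) / r ^ 2)
  obtain ⟨t, ht, htT, htp⟩ := exists_finset_sep h3.ne' hδ2 n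
  have h4 := gram_estimate t (fun a => π a w) x r ‖w‖ ε hr0.le hε0.le
    (fun a ha => (htT a ha).1.le) (fun a _ => ((π a).norm_map w).le) (by
      intro a ha b hb hab
      rw [hπ.inner_left, ← hπ.add]
      have h5 : -a + b = b - a := by ring
      rw [h5]
      apply htp b hb a ha (Ne.symm hab)
      have ha1 := (htT a ha).2
      have hb1 := (htT b hb).2
      rw [Metric.mem_ball, Real.dist_eq] at ha1 hb1
      calc |b - a| = |(b - c) - (a - c)| := by ring_nf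
        _ ≤ |b - c| + |a - c| := abs_sub _ _
        _ < δ := by linarith)
  rw [ht] at h4
  have hn0 : (0 : ℝ) < n := lt_of_le_of_lt (by positivity) hn
  have h6 : 2 * (‖x‖ ^ 2 * ‖w‖ ^ 2) < n * r ^ 2 := by
    rw [div_lt_iff₀ (by positivity)] at hn
    exact hn
  have h7 : ‖x‖ ^ 2 * ε ≤ r ^ 2 / 2 := by
    rw [hε, mul_div_assoc', div_le_div_iff₀ (by positivity) (by norm_num)]
    nlinarith [sq_nonneg ‖x‖, sq_nonneg r]
  nlinarith [mul_pos hn0 hn0]

/-- closed span of the small translates of `u` -/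
def Ksub (π : ℝ → H →ₗᵢ[ℂ] H) (u : H) (ε : ℝ) : Submodule ℂ H :=
  (Submodule.span ℂ {z | ∃ a : ℝ, |a| < ε ∧ z = π a u}).topologicalClosure

lemma isClosed_Ksub (π : ℝ → H →ₗᵢ[ℂ] H) (u : H) (ε : ℝ) : IsClosed (Ksub π u ε : Set H) :=
  Submodule.isClosed_topologicalClosure _

lemma translate_mem_Ksub (π : ℝ → H →ₗᵢ[ℂ] H) (u : H) {ε a : ℝ} (ha : |a| < ε) :
    π a u ∈ Ksub π u ε :=
  Submodule.le_topologicalClosure _ (Submodule.subset_span ⟨a, ha, rfl⟩)

lemma Ksub_le {π : ℝ → H →ₗᵢ[ℂ] H} {u : H} {ε : ℝ} {M : Submodule ℂ H}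
    (hM : IsClosed (M : Set H)) (h : ∀ a : ℝ, |a| < ε → π a u ∈ M) : Ksub π u ε ≤ M := by
  refine Submodule.topologicalClosure_minimal _ ?_ hM
  rw [Submodule.span_le]
  rintro z ⟨a, ha, rfl⟩
  exact h a ha

lemma Ksub_mono (π : ℝ → H →ₗᵢ[ℂ] H) (u : H) {ε ε' : ℝ} (h : ε ≤ ε') :
    Ksub π u ε ≤ Ksub π u ε' :=
  Ksub_le (isClosed_Ksub π u ε') fun _ ha => translate_mem_Ksub π u (ha.trans_le h)

lemma IsRep.translate_Ksub {π : ℝ → H →ₗᵢ[ℂ] H} (hπ : IsRep π) {u z : H} {ε δ a : ℝ}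
    (hz : z ∈ Ksub π u ε) (ha : |a| ≤ δ) : π a z ∈ Ksub π u (ε + δ) := by
  have hcl : IsClosed ((Submodule.comap (π a).toLinearMap (Ksub π u (ε + δ)) : Submodule ℂ H) :
      Set H) := by
    have := (isClosed_Ksub π u (ε + δ)).preimage (π a).continuous
    exact this
  have h1 : Ksub π u ε ≤ Submodule.comap (π a).toLinearMap (Ksub π u (ε + δ)) := by
    refine Ksub_le hcl ?_
    intro b hb
    rw [Submodule.mem_comap]
    change π a (π b u) ∈ _
    rw [← hπ.add]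
    apply translate_mem_Ksub
    calc |a + b| ≤ |a| + |b| := abs_add_le a b
      _ < ε + δ := by linarith
  exact h1 hz

/-- The key limiting projection lemma. -/
lemma IsRep.exists_limit_vector [CompleteSpace H] {π : ℝ → H →ₗᵢ[ℂ] H} (hπ : IsRep π) (u y : H) :
    ∃ y₀ : H, (∀ ε > 0, y₀ ∈ Ksub π u ε) ∧ ⟪y, u⟫_ℂ = ⟪y₀, u⟫_ℂ ∧
      ∀ r > 0, ∃ δ > 0, ∀ a : ℝ, |a| < δ → ‖⟪y, π a y₀⟫_ℂ - ⟪y₀, π a y₀⟫_ℂ‖ ≤ r := by
  set K : ℕ → Submodule ℂ H := fun n => Ksub π u (1 / ((n : ℝ) + 1)) with hK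
  have hKanti : Antitone K := by
    intro m n hmn
    apply Ksub_mono
    apply one_div_le_one_div_of_le (by positivity)
    have : (m : ℝ) ≤ n := by exact_mod_cast hmn
    linarith
  have hU : Monotone fun n => (K n)ᗮ := fun m n hmn => Submodule.orthogonal_le (hKanti hmn)
  have hcomp : ∀ n, (K n).HasOrthogonalProjection := by
    intro n
    have : IsClosed ((K n : Submodule ℂ H) : Set H) := isClosed_Ksub _ _ _
    have := this.completeSpace_coe
    infer_instance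
  have hlim := Submodule.starProjection_tendsto_closure_iSup (fun n => (K n)ᗮ) hU y
  set p := ((⨆ i, (K i)ᗮ).topologicalClosure).starProjection y with hp
  set yn : ℕ → H := fun n => y - ((K n)ᗮ).starProjection y with hyn
  have hynlim : Tendsto yn atTop (𝓝 (y - p)) := tendsto_const_nhds.sub hlim
  have hynK : ∀ n, yn n ∈ K n := by
    intro n
    have h1 : yn n ∈ (K n)ᗮᗮ := by
      rw [hyn]
      exact Submodule.sub_starProjection_mem_orthogonal (K := (K n)ᗮ) y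
    rwa [Submodule.orthogonal_orthogonal] at h1
  have hy0 : ∀ n, y - p ∈ K n := by
    intro n
    refine (isClosed_Ksub π u _).mem_of_tendsto hynlim ?_
    filter_upwards [eventually_ge_atTop n] with m hm
    exact hKanti hm (hynK m)
  have horth : ∀ n, ∀ z ∈ K n, ⟪y, z⟫_ℂ = ⟪yn n, z⟫_ℂ := by
    intro n z hz
    rw [hyn]
    simp only [inner_sub_left]
    have h1 : ((K n)ᗮ).starProjection y ∈ (K n)ᗮ := Submodule.starProjection_apply_mem _ _
    have h2 : ⟪((K n)ᗮ).starProjection y, z⟫_ℂ = 0 := by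
      rw [Submodule.mem_orthogonal'] at h1
      exact h1 z hz
    rw [h2, sub_zero]
  refine ⟨y - p, ?_, ?_, ?_⟩
  · intro ε hε
    obtain ⟨n, hn⟩ := exists_nat_one_div_lt hε
    exact Ksub_mono π u hn.le (hy0 n)
  · have hu : ∀ n, u ∈ K n := by
      intro n
      have := translate_mem_Ksub π u (a := 0) (ε := 1 / ((n : ℝ) + 1)) (by simp; positivity)
      rwa [hπ.zero] at this
    have h1 : Tendsto (fun n => ⟪yn n, u⟫_ℂ) atTop (𝓝 ⟪y - p, u⟫_ℂ) :=
      hynlim.inner tendsto_const_nhds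
    have h2 : (fun n => ⟪yn n, u⟫_ℂ) = fun _ => ⟪y, u⟫_ℂ := by
      funext n
      exact (horth n u (hu n)).symm
    rw [h2] at h1
    exact tendsto_nhds_unique tendsto_const_nhds h1
  · intro r hr
    have h1 : Tendsto (fun n => ‖yn n - (y - p)‖ * ‖y - p‖) atTop (𝓝 0) := by
      have := (tendsto_iff_norm_sub_tendsto_zero.1 hynlim).mul_const ‖y - p‖
      simpa using this
    obtain ⟨n, hn⟩ := (h1.eventually (ge_mem_nhds hr)).exists
    refine ⟨1 / ((n : ℝ) + 1) / 2, by positivity, ?_⟩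
    intro a ha
    have h2 : π a (y - p) ∈ K n := by
      have h3 : y - p ∈ Ksub π u (1 / ((n : ℝ) + 1) / 2) := by
        obtain ⟨m, hm⟩ := exists_nat_one_div_lt (show (0 : ℝ) < 1 / ((n : ℝ) + 1) / 2 by positivity)
        exact Ksub_mono π u hm.le (hy0 m)
      have h4 := hπ.translate_Ksub h3 ha.le
      rwa [add_halves] at h4
    rw [horth n _ h2, ← inner_sub_left]
    calc ‖⟪yn n - (y - p), π a (y - p)⟫_ℂ‖ ≤ ‖yn n - (y - p)‖ * ‖π a (y - p)‖ :=
          norm_inner_le_norm _ _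
      _ = ‖yn n - (y - p)‖ * ‖y - p‖ := by rw [(π a).norm_map]
      _ ≤ r := hn

/-- vectors whose coefficient against `v` vanishes a.e. near zero -/
def Zsub (π : ℝ → H →ₗᵢ[ℂ] H) (v : H) (δ : ℝ) : Submodule ℂ H where
  carrier := {w | ∀ᵐ l : ℝ, |l| < δ → ⟪v, π l w⟫_ℂ = 0}
  add_mem' := by
    intro a b ha hb
    change ∀ᵐ l : ℝ, |l| < δ → ⟪v, π l a⟫_ℂ = 0 at ha
    change ∀ᵐ l : ℝ, |l| < δ → ⟪v, π l b⟫_ℂ = 0 at hb
    change ∀ᵐ l : ℝ, |l| < δ → ⟪v, π l (a + b)⟫_ℂ = 0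
    filter_upwards [ha, hb] with l h1 h2 hl
    rw [map_add, inner_add_right, h1 hl, h2 hl, add_zero]
  zero_mem' := by
    change ∀ᵐ l : ℝ, |l| < δ → ⟪v, π l 0⟫_ℂ = 0
    filter_upwards with l
    simp
  smul_mem' := by
    intro c a ha
    change ∀ᵐ l : ℝ, |l| < δ → ⟪v, π l a⟫_ℂ = 0 at ha
    change ∀ᵐ l : ℝ, |l| < δ → ⟪v, π l (c • a)⟫_ℂ = 0
    filter_upwards [ha] with l h1 hl
    rw [map_smul, inner_smul_right, h1 hl, mul_zero]

lemma isClosed_Zsub (π : ℝ → H →ₗᵢ[ℂ] H) (v : H) (δ : ℝ) : IsClosed (Zsub π v δ : Set H) := by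
  rw [← isSeqClosed_iff_isClosed]
  intro s w hs hw
  have h1 : ∀ᵐ l : ℝ, ∀ n : ℕ, |l| < δ → ⟪v, π l (s n)⟫_ℂ = 0 := by
    rw [ae_all_iff]
    intro n
    exact hs n
  change ∀ᵐ l : ℝ, |l| < δ → ⟪v, π l w⟫_ℂ = 0
  filter_upwards [h1] with l hl hlδ
  have h2 : Tendsto (fun n => ⟪v, π l (s n)⟫_ℂ) atTop (𝓝 ⟪v, π l w⟫_ℂ) := by
    exact tendsto_const_nhds.inner (((π l).continuous.tendsto w).comp hw)
  have h3 : (fun n => ⟪v, π l (s n)⟫_ℂ) = fun _ => (0 : ℂ) := by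
    funext n
    exact hl n hlδ
  rw [h3] at h2
  exact (tendsto_nhds_unique h2 tendsto_const_nhds)

/-- Lemma C. -/
lemma IsRep.inner_eq_zero_of_ae_zero [CompleteSpace H] {π : ℝ → H →ₗᵢ[ℂ] H} (hπ : IsRep π)
    {u v : H} (hu : u ∈ (H0 π)ᗮ) {δ : ℝ} (hδ : 0 < δ)
    (h : ∀ᵐ l : ℝ, |l| < δ → ⟪v, π l u⟫_ℂ = 0) : ⟪v, u⟫_ℂ = 0 := by
  obtain ⟨y₀, hK, he, hr⟩ := hπ.exists_limit_vector u v
  have h1 : y₀ ∈ Zsub π v (δ / 2) := by
    refine Ksub_le (isClosed_Zsub π v _) ?_ (hK (δ / 2) (by positivity))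
    intro a ha
    change ∀ᵐ l : ℝ, |l| < δ / 2 → ⟪v, π l (π a u)⟫_ℂ = 0
    filter_upwards [ae_comp_add h a] with l hl hl2
    rw [← hπ.add]
    apply hl
    calc |l + a| ≤ |l| + |a| := abs_add_le _ _
      _ < δ := by linarith
  have h2 : y₀ ∈ H0 π := by
    apply hπ.mem_H0_of_small
    intro ε hε
    obtain ⟨δ₁, hδ₁, h3⟩ := hr ε hε
    refine ⟨min δ₁ (δ / 2), by positivity, ?_⟩
    filter_upwards [h1] with l hl hl2
    have h4 := h3 l (hl2.trans_le (min_le_left _ _))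
    rw [hl (hl2.trans_le (min_le_right _ _)), zero_sub, norm_neg] at h4
    exact h4
  have h3 : y₀ ∈ (H0 π)ᗮ := by
    refine Ksub_le (Submodule.isClosed_orthogonal _) ?_ (hK 1 one_pos)
    intro a _
    exact hπ.orthogonal_invariant (fun w hw b => hπ.H0_invariant hw b) hu a
  have h4 : y₀ = 0 := by
    rw [Submodule.mem_orthogonal] at h3
    have := h3 y₀ h2
    simpa using this
  rw [he, h4, inner_zero_left]

/-- vectors whose coefficient against `v` is Lebesgue measurable on `S` -/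
def Msub (π : ℝ → H →ₗᵢ[ℂ] H) (v : H) (S : Set ℝ) : Submodule ℂ H where
  carrier := {w | AEStronglyMeasurable (fun l : ℝ => ⟪v, π l w⟫_ℂ) (volume.restrict S)}
  add_mem' := by
    intro a b ha hb
    have h : AEStronglyMeasurable (fun l : ℝ => ⟪v, π l a⟫_ℂ + ⟪v, π l b⟫_ℂ)
      (volume.restrict S) := AEStronglyMeasurable.add ha hb
    simpa [map_add, inner_add_right] using h
  zero_mem' := by
    simpa using aestronglyMeasurable_const
  smul_mem' := by
    intro c a ha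
    have h : AEStronglyMeasurable (fun l : ℝ => c • ⟪v, π l a⟫_ℂ)
      (volume.restrict S) := AEStronglyMeasurable.const_smul ha c
    simpa [map_smul, inner_smul_right] using h

lemma mem_Msub {π : ℝ → H →ₗᵢ[ℂ] H} {v w : H} {S : Set ℝ} : w ∈ Msub π v S ↔
    AEStronglyMeasurable (fun l : ℝ => ⟪v, π l w⟫_ℂ) (volume.restrict S) := Iff.rfl

lemma isClosed_Msub (π : ℝ → H →ₗᵢ[ℂ] H) (v : H) (S : Set ℝ) :
    IsClosed (Msub π v S : Set H) := by
  rw [← isSeqClosed_iff_isClosed]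
  intro s w hs hw
  refine aestronglyMeasurable_of_tendsto_ae atTop (f := fun n l => ⟪v, π l (s n)⟫_ℂ) hs ?_
  refine Eventually.of_forall fun l => ?_
  exact tendsto_const_nhds.inner (((π l).continuous.tendsto w).comp hw)

lemma aestronglyMeasurable_comp_add {f : ℝ → ℂ} {S T : Set ℝ} {a : ℝ}
    (hf : AEStronglyMeasurable f (volume.restrict S))
    (hS : MeasurableSet S) (h : ∀ l ∈ T, l + a ∈ S) :
    AEStronglyMeasurable (fun l => f (l + a)) (volume.restrict T) := by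
  have h1 : MeasurePreserving (fun l : ℝ => l + a) (volume.restrict ((fun l : ℝ => l + a) ⁻¹' S))
      (volume.restrict S) :=
    (measurePreserving_add_right (volume : Measure ℝ) a).restrict_preimage hS
  have h2 : AEStronglyMeasurable (fun l => f (l + a))
      (volume.restrict ((fun l : ℝ => l + a) ⁻¹' S)) := hf.comp_measurePreserving h1
  exact h2.mono_measure (Measure.restrict_mono h le_rfl)

lemma integral_shift_sub_le {G : ℝ → ℂ} {B α β a R : ℝ}
    (hG : AEStronglyMeasurable G (volume.restrict (Ioo (-R) R)))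
    (hB : ∀ l, ‖G l‖ ≤ B) (hα : -R < α) (hαβ : α ≤ β) (hβ : β < R)
    (hα' : -R < α + a) (hβ' : β + a < R) :
    ‖(∫ l in α..β, G (l + a)) - ∫ l in α..β, G l‖ ≤ 2 * (B * |a|) := by
  have hint : ∀ x y : ℝ, x ∈ Ioo (-R) R → y ∈ Ioo (-R) R → IntervalIntegrable G volume x y := by
    intro x y hx hy
    rw [intervalIntegrable_iff]
    have hsub : uIoc x y ⊆ Ioo (-R) R := by
      intro z hz
      rw [mem_uIoc] at hz
      rcases hz with hz | hz
      · exact ⟨hx.1.trans hz.1, hz.2.trans_lt hy.2⟩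
      · exact ⟨hy.1.trans hz.1, hz.2.trans_lt hx.2⟩
    have hfin : IsFiniteMeasure (volume.restrict (uIoc x y)) := by
      constructor
      rw [Measure.restrict_apply_univ, uIoc, Real.volume_Ioc]
      exact ENNReal.ofReal_lt_top
    exact Integrable.of_bound (hG.mono_measure (Measure.restrict_mono hsub le_rfl)) B
      (Eventually.of_forall hB)
  have mα : α ∈ Ioo (-R) R := ⟨hα, by linarith⟩
  have mβ : β ∈ Ioo (-R) R := ⟨by linarith, hβ⟩
  have mα' : α + a ∈ Ioo (-R) R := ⟨hα', by linarith⟩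
  have mβ' : β + a ∈ Ioo (-R) R := ⟨by linarith, hβ'⟩
  rw [intervalIntegral.integral_comp_add_right]
  rw [intervalIntegral.integral_interval_sub_interval_comm (hint _ _ mα' mβ') (hint _ _ mα mβ)
    (hint _ _ mα' mα)]
  calc ‖(∫ l in (α + a)..α, G l) - ∫ l in (β + a)..β, G l‖
      ≤ ‖∫ l in (α + a)..α, G l‖ + ‖∫ l in (β + a)..β, G l‖ := norm_sub_le _ _
    _ ≤ B * |α - (α + a)| + B * |β - (β + a)| := by
        gcongr
        · exact intervalIntegral.norm_integral_le_of_norm_le_const fun x _ => hB x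
        · exact intervalIntegral.norm_integral_le_of_norm_le_const fun x _ => hB x
    _ = 2 * (B * |a|) := by
        have e1 : α - (α + a) = -a := by ring
        have e2 : β - (β + a) = -a := by ring
        rw [e1, e2, abs_neg]
        ring

/-- Lemma A, local form. -/
lemma IsRep.ae_zero_of_measurable [CompleteSpace H] {π : ℝ → H →ₗᵢ[ℂ] H} (hπ : IsRep π)
    {u v : H} (hu : u ∈ (Hc π)ᗮ) {δ : ℝ} (hδ : 0 < δ)
    (h : AEStronglyMeasurable (fun l : ℝ => ⟪v, π l u⟫_ℂ) (volume.restrict (Ioo (-δ) δ))) :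
    ∀ᵐ l : ℝ, |l| < δ / 2 → ⟪v, π l u⟫_ℂ = 0 := by
  set R : ℝ := 3 * δ / 4 with hR
  have hmem : ∀ a : ℝ, |a| < δ / 4 → π a u ∈ Msub π v (Ioo (-R) R) := by
    intro a ha
    rw [abs_lt] at ha
    rw [mem_Msub]
    have h1 : AEStronglyMeasurable (fun l : ℝ => ⟪v, π (l + a) u⟫_ℂ)
        (volume.restrict (Ioo (-R) R)) := by
      refine aestronglyMeasurable_comp_add (f := fun l => ⟪v, π l u⟫_ℂ) h measurableSet_Ioo ?_
      intro l hl
      constructor <;> [have := hl.1; have := hl.2] <;> rw [hR] at this <;> linarith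
    simpa only [hπ.add] using h1
  have hKM : Ksub π u (δ / 4) ≤ Msub π v (Ioo (-R) R) := Ksub_le (isClosed_Msub π v _) hmem
  -- integrals over intervals vanish
  have key : ∀ α β : ℝ, -(δ / 2) < α → α ≤ β → β < δ / 2 →
      ∫ l in α..β, ⟪v, π l u⟫_ℂ = 0 := by
    intro α β hα hαβ hβ
    set M := Msub π v (Ioo (-R) R) with hM
    have hMcl : IsClosed ((M : Submodule ℂ H) : Set H) := isClosed_Msub _ _ _
    have hMc := hMcl.completeSpace_coe
    have hbd : ∀ z : H, ∀ l : ℝ, ‖⟪v, π l z⟫_ℂ‖ ≤ ‖v‖ * ‖z‖ := by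
      intro z l
      calc ‖⟪v, π l z⟫_ℂ‖ ≤ ‖v‖ * ‖π l z‖ := norm_inner_le_norm _ _
        _ = ‖v‖ * ‖z‖ := by rw [(π l).norm_map]
    have hint : ∀ z ∈ M, IntervalIntegrable (fun l => ⟪v, π l z⟫_ℂ) volume α β := by
      intro z hz
      rw [intervalIntegrable_iff_integrableOn_Ioc_of_le hαβ]
      have hfin : IsFiniteMeasure (volume.restrict (Ioc α β)) := by
        constructor
        rw [Measure.restrict_apply_univ, Real.volume_Ioc]
        exact ENNReal.ofReal_lt_top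
      refine Integrable.of_bound (AEStronglyMeasurable.mono_measure hz
        (Measure.restrict_mono ?_ le_rfl)) (‖v‖ * ‖z‖) (Eventually.of_forall (hbd z))
      intro l hl
      constructor <;> [have := hl.1; have := hl.2] <;> rw [hR] <;> linarith
    let ℓ₀ : M →ₗ[ℂ] ℂ :=
      { toFun := fun z => ∫ l in α..β, ⟪v, π l (z : H)⟫_ℂ
        map_add' := by
          intro z z'
          rw [← intervalIntegral.integral_add (hint _ z.2) (hint _ z'.2)]
          refine intervalIntegral.integral_congr fun l _ => ?_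
          simp [inner_add_right]
        map_smul' := by
          intro c z
          rw [RingHom.id_apply, ← intervalIntegral.integral_smul]
          refine intervalIntegral.integral_congr fun l _ => ?_
          simp [inner_smul_right] }
    let ℓ : M →L[ℂ] ℂ := ℓ₀.mkContinuous (‖v‖ * |β - α|) (by
      intro z
      calc ‖∫ l in α..β, ⟪v, π l (z : H)⟫_ℂ‖ ≤ (‖v‖ * ‖(z : H)‖) * |β - α| :=
            intervalIntegral.norm_integral_le_of_norm_le_const fun x _ => hbd _ x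
        _ = ‖v‖ * |β - α| * ‖z‖ := by rw [Submodule.coe_norm]; ring)
    set y : H := ((InnerProductSpace.toDual ℂ M).symm ℓ : M).1 with hy
    have hyz : ∀ z ∈ M, ⟪y, z⟫_ℂ = ∫ l in α..β, ⟪v, π l z⟫_ℂ := by
      intro z hz
      have h1 : ⟪(InnerProductSpace.toDual ℂ M).symm ℓ, (⟨z, hz⟩ : M)⟫_ℂ = ℓ ⟨z, hz⟩ :=
        InnerProductSpace.toDual_symm_apply
      exact h1
    obtain ⟨y₀, hK, he, hr⟩ := hπ.exists_limit_vector u y
    have hy0M : y₀ ∈ M := hKM (hK _ (by positivity))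
    have hself : ⟪y, y₀⟫_ℂ = ⟪y₀, y₀⟫_ℂ := by
      have h1 : ∀ r > 0, ‖⟪y, y₀⟫_ℂ - ⟪y₀, y₀⟫_ℂ‖ ≤ r := by
        intro r hr0
        obtain ⟨δ₁, hδ₁, h3⟩ := hr r hr0
        have := h3 0 (by simpa using hδ₁)
        rwa [hπ.zero] at this
      have h2 : ‖⟪y, y₀⟫_ℂ - ⟪y₀, y₀⟫_ℂ‖ ≤ 0 := le_of_forall_pos_le_add (by simpa using h1)
      exact sub_eq_zero.1 (norm_le_zero_iff.1 h2)
    have hshift : ∀ a : ℝ, |a| < δ / 8 → ‖⟪y, π a y₀⟫_ℂ - ⟪y, y₀⟫_ℂ‖ ≤
        2 * (‖v‖ * ‖y₀‖ * |a|) := by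
      intro a ha
      have h1 : π a y₀ ∈ M := by
        have := hπ.translate_Ksub (hK (δ / 8) (by positivity)) ha.le
        have e : δ / 8 + δ / 8 = δ / 4 := by ring
        rw [e] at this
        exact hKM this
      rw [hyz _ h1, hyz _ hy0M]
      have e2 : (∫ l in α..β, ⟪v, π l (π a y₀)⟫_ℂ) = ∫ l in α..β, ⟪v, π (l + a) y₀⟫_ℂ := by
        refine intervalIntegral.integral_congr fun l _ => ?_
        simp only [hπ.add]
      rw [e2]
      rw [abs_lt] at ha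
      exact integral_shift_sub_le (G := fun l => ⟪v, π l y₀⟫_ℂ) hy0M (hbd y₀)
        (by rw [hR]; linarith) hαβ (by rw [hR]; linarith) (by rw [hR]; linarith)
        (by rw [hR]; linarith)
    have hcont : Tendsto (fun a : ℝ => ⟪y₀, π a y₀⟫_ℂ) (𝓝 0) (𝓝 ⟪y₀, y₀⟫_ℂ) := by
      rw [tendsto_iff_norm_sub_tendsto_zero, Metric.tendsto_nhds]
      intro ε hε
      obtain ⟨δ₁, hδ₁, h3⟩ := hr (ε / 2) (by positivity)
      have h5 : ∀ᶠ a : ℝ in 𝓝 0, |a| < δ₁ := by
        have := Metric.ball_mem_nhds (0 : ℝ) hδ₁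
        filter_upwards [this] with a ha
        simpa using ha
      have h6 : ∀ᶠ a : ℝ in 𝓝 0, |a| < δ / 8 := by
        have := Metric.ball_mem_nhds (0 : ℝ) (show (0 : ℝ) < δ / 8 by positivity)
        filter_upwards [this] with a ha
        simpa using ha
      have h7 : ∀ᶠ a : ℝ in 𝓝 0, |a| < ε / 2 / (2 * (‖v‖ * ‖y₀‖) + 1) := by
        have := Metric.ball_mem_nhds (0 : ℝ)
          (show (0 : ℝ) < ε / 2 / (2 * (‖v‖ * ‖y₀‖) + 1) by positivity)
        filter_upwards [this] with a ha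
        simpa using ha
      filter_upwards [h5, h6, h7] with a ha5 ha6 ha7
      rw [dist_zero_right, norm_norm]
      have e3 : ⟪y₀, π a y₀⟫_ℂ - ⟪y₀, y₀⟫_ℂ = -(⟪y, π a y₀⟫_ℂ - ⟪y₀, π a y₀⟫_ℂ) +
          (⟪y, π a y₀⟫_ℂ - ⟪y, y₀⟫_ℂ) := by
        rw [hself]; ring
      rw [e3]
      calc ‖-(⟪y, π a y₀⟫_ℂ - ⟪y₀, π a y₀⟫_ℂ) + (⟪y, π a y₀⟫_ℂ - ⟪y, y₀⟫_ℂ)‖
          ≤ ‖-(⟪y, π a y₀⟫_ℂ - ⟪y₀, π a y₀⟫_ℂ)‖ + ‖⟪y, π a y₀⟫_ℂ - ⟪y, y₀⟫_ℂ‖ := norm_add_le _ _
        _ ≤ ε / 2 + 2 * (‖v‖ * ‖y₀‖ * |a|) := by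
            rw [norm_neg]
            exact add_le_add (h3 a ha5) (hshift a ha6)
        _ < ε / 2 + ε / 2 := by
            have h8 : 0 ≤ ‖v‖ * ‖y₀‖ := by positivity
            rw [lt_div_iff₀ (by positivity)] at ha7
            have : 2 * (‖v‖ * ‖y₀‖ * |a|) < ε / 2 ∨ |a| = 0 := by
              by_cases h0 : |a| = 0
              · right; exact h0
              · left
                have : 0 < |a| := lt_of_le_of_ne (abs_nonneg _) (Ne.symm h0)
                nlinarith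
            rcases this with h9 | h9
            · linarith
            · rw [h9]; simp; linarith
        _ = ε := by ring
    have hc : y₀ ∈ Hc π := by
      apply hπ.mem_Hc_of_tendsto
      rw [tendsto_iff_norm_sub_tendsto_zero]
      have h1 : Tendsto (fun a : ℝ => 2 * ‖y₀‖ ^ 2 - 2 * RCLike.re ⟪y₀, π a y₀⟫_ℂ) (𝓝 0)
          (𝓝 (2 * ‖y₀‖ ^ 2 - 2 * RCLike.re ⟪y₀, y₀⟫_ℂ)) := by
        have := (RCLike.continuous_re.tendsto _).comp hcont
        exact tendsto_const_nhds.sub (this.const_mul 2)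
      have h2 : 2 * ‖y₀‖ ^ 2 - 2 * RCLike.re ⟪y₀, y₀⟫_ℂ = 0 := by
        rw [inner_self_eq_norm_sq]; ring
      rw [h2] at h1
      have h3 : ∀ a : ℝ, ‖π a y₀ - y₀‖ ^ 2 = 2 * ‖y₀‖ ^ 2 - 2 * RCLike.re ⟪y₀, π a y₀⟫_ℂ := by
        intro a
        rw [@norm_sub_sq ℂ, (π a).norm_map, ← inner_conj_symm, RCLike.conj_re]
        ring
      have h4 : Tendsto (fun a : ℝ => ‖π a y₀ - y₀‖ ^ 2) (𝓝 0) (𝓝 0) := by
        simp_rw [h3]
        exact h1
      have h5 := h4.sqrt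
      simpa [Real.sqrt_sq (norm_nonneg _)] using h5
    have h0 : y₀ ∈ (Hc π)ᗮ := by
      refine Ksub_le (Submodule.isClosed_orthogonal _) ?_ (hK 1 one_pos)
      intro a _
      exact hπ.orthogonal_invariant (fun w hw b => hπ.Hc_invariant hw b) hu a
    have h4 : y₀ = 0 := by
      rw [Submodule.mem_orthogonal] at h0
      have := h0 y₀ hc
      simpa using this
    have huM : u ∈ M := by
      have := hKM (translate_mem_Ksub π u (a := 0) (ε := δ / 4) (by simp; positivity))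
      rwa [hπ.zero] at this
    rw [← hyz u huM, he, h4, inner_zero_left]
  -- conclude by differentiation
  have hIi : ∀ n : ℕ, IntervalIntegrable (fun l => ⟪v, π l u⟫_ℂ) volume
      (-(δ / 2) + δ / 2 / (n + 2)) (δ / 2 - δ / 2 / (n + 2)) := by
    intro n
    have h1 : (0 : ℝ) < δ / 2 / (n + 2) := by positivity
    have h2 : δ / 2 / (n + 2) ≤ δ / 2 / 2 := by
      apply div_le_div_of_nonneg_left (by positivity) (by norm_num)
      have : (0 : ℝ) ≤ n := Nat.cast_nonneg n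
      linarith
    rw [intervalIntegrable_iff_integrableOn_Ioc_of_le (by linarith)]
    have hfin : IsFiniteMeasure (volume.restrict
        (Ioc (-(δ / 2) + δ / 2 / (n + 2)) (δ / 2 - δ / 2 / (n + 2)))) := by
      constructor
      rw [Measure.restrict_apply_univ, Real.volume_Ioc]
      exact ENNReal.ofReal_lt_top
    refine Integrable.of_bound (AEStronglyMeasurable.mono_measure h
        (Measure.restrict_mono ?_ le_rfl)) (‖v‖ * ‖u‖) (Eventually.of_forall ?_)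
    · intro l hl
      constructor <;> [have := hl.1; have := hl.2] <;> linarith
    · intro l
      calc ‖⟪v, π l u⟫_ℂ‖ ≤ ‖v‖ * ‖π l u‖ := norm_inner_le_norm _ _
        _ = ‖v‖ * ‖u‖ := by rw [(π l).norm_map]
  have h1 : ∀ᵐ l : ℝ, ∀ n : ℕ, l ∈ uIcc (-(δ / 2) + δ / 2 / ((n : ℝ) + 2))
      (δ / 2 - δ / 2 / (n + 2)) → ∀ c ∈ uIcc (-(δ / 2) + δ / 2 / ((n : ℝ) + 2))
      (δ / 2 - δ / 2 / (n + 2)), HasDerivAt (fun x => ∫ (t : ℝ) in c..x, ⟪v, π t u⟫_ℂ)
        (⟪v, π l u⟫_ℂ) l := by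
    rw [ae_all_iff]
    intro n
    exact (hIi n).ae_hasDerivAt_integral
  filter_upwards [h1] with l hl hlδ
  rw [abs_lt] at hlδ
  obtain ⟨n, hn⟩ := exists_nat_gt (δ / 2 / (min (l + δ / 2) (δ / 2 - l)))
  have hmin : 0 < min (l + δ / 2) (δ / 2 - l) := by
    apply lt_min <;> linarith
  have h2 : δ / 2 / ((n : ℝ) + 2) < min (l + δ / 2) (δ / 2 - l) := by
    rw [div_lt_iff₀ hmin] at hn
    rw [div_lt_iff₀ (by positivity)]
    nlinarith
  have h3 : δ / 2 / ((n : ℝ) + 2) < l + δ / 2 := h2.trans_le (min_le_left _ _)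
  have h4 : δ / 2 / ((n : ℝ) + 2) < δ / 2 - l := h2.trans_le (min_le_right _ _)
  have h5 : (0 : ℝ) < δ / 2 / (n + 2) := by positivity
  have h6 : l ∈ uIcc (-(δ / 2) + δ / 2 / ((n : ℝ) + 2)) (δ / 2 - δ / 2 / (n + 2)) := by
    rw [uIcc_of_le (by linarith)]
    constructor <;> linarith
  have h7 := hl n h6 l h6
  have h8 : (fun x => ∫ (t : ℝ) in l..x, ⟪v, π t u⟫_ℂ) =ᶠ[𝓝 l] fun _ => (0 : ℂ) := by
    have : Ioo (-(δ / 2)) (δ / 2) ∈ 𝓝 l := Ioo_mem_nhds (by linarith) (by linarith)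
    filter_upwards [this] with x hx
    rcases le_total l x with hlx | hlx
    · exact key l x (by linarith) hlx hx.2
    · rw [intervalIntegral.integral_symm, key x l hx.1 hlx (by linarith), neg_zero]
  have h9 := h7.congr_of_eventuallyEq h8.symm
  exact h9.unique (hasDerivAt_const l (0 : ℂ))

end Pool.Agent.Helper34.Krein
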