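import Pool.Agent.Helper34.KreinRep

set_option autoImplicit false

open MeasureTheory Filter Topology Set InnerProductSpace
open scoped BoundedContinuousFunction Pointwise

namespace Pool.Agent.Helper34.Krein

/-- Riesz representation of a functional dominated by the norm of an image. -/
lemma exists_riesz {V H : Type*} [AddCommGroup V] [Module ℂ V] [NormedAddCommGroup H]
    [InnerProductSpace ℂ H] [CompleteSpace H] (T : V →ₗ[ℂ] H) (F : V →ₗ[ℂ] ℂ) (K : ℝ)
    (hK : ∀ h, ‖F h‖ ≤ K * ‖T h‖) (hK0 : 0 ≤ K) :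
    ∃ v : H, ‖v‖ ≤ K ∧ ∀ h, F h = ⟪v, T h⟫_ℂ := by
  obtain ⟨s, hs⟩ := T.rangeRestrict.exists_rightInverse_of_surjective T.range_rangeRestrict
  have hs' : ∀ z : LinearMap.range T, T (s z) = z := by
    intro z
    have := congrArg (fun g => ((g z : LinearMap.range T) : H)) hs
    simpa using this
  have hF : ∀ h, F h = F (s (T.rangeRestrict h)) := by
    intro h
    have h1 := hK (h - s (T.rangeRestrict h))
    have e0 : ((T.rangeRestrict h : LinearMap.range T) : H) = T h := rfl
    rw [map_sub T, hs', e0, sub_self, norm_zero, mul_zero] at h1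
    have h2 := norm_le_zero_iff.1 h1
    rw [map_sub, sub_eq_zero] at h2
    exact h2
  let g : LinearMap.range T →L[ℂ] ℂ := (F ∘ₗ s).mkContinuous K (by
    intro z
    have := hK (s z)
    rw [hs'] at this
    simpa using this)
  obtain ⟨G, hG, hGn⟩ := exists_extension_norm_eq (LinearMap.range T) g
  refine ⟨(InnerProductSpace.toDual ℂ H).symm G, ?_, ?_⟩
  · rw [LinearIsometryEquiv.norm_map, hGn]
    exact LinearMap.mkContinuous_norm_le _ hK0 _
  · intro h
    rw [InnerProductSpace.toDual_symm_apply]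
    have h1 : G (T h) = g (T.rangeRestrict h) := hG (T.rangeRestrict h)
    rw [h1, hF h]
    rfl

/-- domination of a functional by a positive one (Hahn-Banach) -/
theorem exists_posFun (D : Set ℝ) (f : ℝ → ℂ) (C : ℝ)
    (hC : ∀ h ∈ Finsupp.supported ℂ ℂ D, ∀ M : ℝ, (∀ t, ‖ap h t‖ ≤ M) → ‖Phi f h‖ ≤ C * M) :
    ∃ P : PosFun, P.toLin 1 ≤ C ∧
      ∀ h ∈ Finsupp.supported ℂ ℂ D, ‖Phi f h‖ ≤ P.toLin (ap h).normComp := by
  set S : (ℝ →ᵇ ℝ) → Set ℝ := fun g =>
    {s : ℝ | ∃ c : ℝ, ∃ h ∈ Finsupp.supported ℂ ℂ D, (∀ t, g t + ‖ap h t‖ ≤ c) ∧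
      s = C * c - (Phi f h).re} with hS
  have hne : ∀ g, (S g).Nonempty := by
    intro g
    refine ⟨C * ‖g‖ - (Phi f 0).re, ‖g‖, 0, Submodule.zero_mem _, ?_, rfl⟩
    intro t
    simp only [map_zero, BoundedContinuousFunction.coe_zero, Pi.zero_apply, norm_zero, add_zero]
    exact (le_abs_self _).trans (g.norm_coe_le_norm t)
  have hbdd : ∀ g, BddBelow (S g) := by
    intro g
    refine ⟨-(C * ‖g‖), ?_⟩
    rintro s ⟨c, h, hh, hle, rfl⟩
    have h1 : ∀ t, ‖ap h t‖ ≤ c + ‖g‖ := by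
      intro t
      have h2 := hle t
      have h3 := (neg_abs_le (g t)).trans' (neg_le_neg (g.norm_coe_le_norm t))
      linarith
    have h4 := hC h hh _ h1
    have h5 := (le_abs_self _).trans ((Complex.abs_re_le_norm (Phi f h)).trans h4)
    linarith
  set N : (ℝ →ᵇ ℝ) → ℝ := fun g => sInf (S g) with hN
  have Nhom : ∀ c : ℝ, 0 < c → ∀ g, N (c • g) = c * N g := by
    intro c hc g
    have h1 : S (c • g) = c • S g := by
      ext s
      rw [Set.mem_smul_set]
      constructor
      · rintro ⟨c', h, hh, hle, rfl⟩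
        refine ⟨C * (c⁻¹ * c') - (Phi f ((c⁻¹ : ℂ) • h)).re, ⟨c⁻¹ * c', (c⁻¹ : ℂ) • h,
          Submodule.smul_mem _ _ hh, ?_, rfl⟩, ?_⟩
        · intro t
          have := hle t
          rw [map_smul]
          simp only [BoundedContinuousFunction.coe_smul, smul_eq_mul, norm_mul, norm_inv,
            Complex.norm_real, Real.norm_eq_abs, abs_of_pos hc] at this ⊢
          calc g t + c⁻¹ * ‖ap h t‖ = c⁻¹ * (c * g t + ‖ap h t‖) := by field_simp
            _ ≤ c⁻¹ * c' := by gcongr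
        · rw [map_smul]
          have e1 : ((c⁻¹ : ℂ) • Phi f h).re = c⁻¹ * (Phi f h).re := by
            rw [smul_eq_mul, ← Complex.ofReal_inv, Complex.re_ofReal_mul]
          rw [e1, smul_eq_mul]
          field_simp
      · rintro ⟨s', ⟨c', h, hh, hle, rfl⟩, rfl⟩
        refine ⟨c * c', (c : ℂ) • h, Submodule.smul_mem _ _ hh, ?_, ?_⟩
        · intro t
          have := hle t
          rw [map_smul]
          simp only [BoundedContinuousFunction.coe_smul, smul_eq_mul, norm_mul,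
            Complex.norm_real, Real.norm_eq_abs, abs_of_pos hc]
          calc c * g t + c * ‖ap h t‖ = c * (g t + ‖ap h t‖) := by ring
            _ ≤ c * c' := by gcongr
        · rw [map_smul]
          have e1 : ((c : ℂ) • Phi f h).re = c * (Phi f h).re := by
            rw [smul_eq_mul, Complex.re_ofReal_mul]
          rw [e1, smul_eq_mul]
          ring
    rw [hN]
    simp only
    rw [h1, Real.sInf_smul_of_nonneg hc.le, smul_eq_mul]
  have Nadd : ∀ g g', N (g + g') ≤ N g + N g' := by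
    intro g g'
    have h1 : ∀ s ∈ S g, ∀ s' ∈ S g', N (g + g') ≤ s + s' := by
      rintro s ⟨c, h, hh, hle, rfl⟩ s' ⟨c', h', hh', hle', rfl⟩
      refine csInf_le (hbdd _) ⟨c + c', h + h', Submodule.add_mem _ hh hh', ?_, ?_⟩
      · intro t
        have h2 := hle t
        have h3 := hle' t
        rw [map_add]
        simp only [BoundedContinuousFunction.coe_add, Pi.add_apply]
        have h4 := norm_add_le (ap h t) (ap h' t)
        linarith
      · rw [map_add, Complex.add_re]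
        ring
    have h2 : ∀ s' ∈ S g', N (g + g') - s' ≤ N g := by
      intro s' hs'
      refine le_csInf (hne g) ?_
      intro s hs
      have := h1 s hs s' hs'
      linarith
    have h3 : N (g + g') - N g ≤ N g' := by
      refine le_csInf (hne g') ?_
      intro s' hs'
      have := h2 s' hs'
      linarith
    linarith
  obtain ⟨P, -, hP⟩ := exists_extension_of_le_sublinear (⊥ : (ℝ →ᵇ ℝ) →ₗ.[ℝ] ℝ) N Nhom Nadd (by
    rintro ⟨x, hx⟩
    have hx' : x = 0 := (Submodule.mem_bot ℝ).1 hx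
    subst hx'
    have h1 : N 0 = 0 := by
      have := Nhom 2 (by norm_num) 0
      rw [smul_zero] at this
      linarith
    change (0 : ℝ) ≤ N 0
    rw [h1])
  have hpos : ∀ g : ℝ →ᵇ ℝ, (∀ t, 0 ≤ g t) → 0 ≤ P g := by
    intro g hg
    have h1 : P (-g) ≤ N (-g) := hP _
    have h2 : N (-g) ≤ C * 0 - (Phi f 0).re := by
      refine csInf_le (hbdd _) ⟨0, 0, Submodule.zero_mem _, ?_, rfl⟩
      intro t
      simpa using hg t
    rw [map_neg] at h1
    simp at h2
    linarith
  refine ⟨⟨P, hpos⟩, ?_, ?_⟩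
  · have h2 : N 1 ≤ C * 1 - (Phi f 0).re := by
      refine csInf_le (hbdd _) ⟨1, 0, Submodule.zero_mem _, ?_, rfl⟩
      intro t
      simp
    have h1 := hP 1
    simp at h2
    exact h1.trans h2
  · intro h hh
    -- rotate
    have key : ∀ h' ∈ Finsupp.supported ℂ ℂ D, (Phi f h').re ≤ P (ap h').normComp := by
      intro h' hh'
      have h1 : P (-(ap h').normComp) ≤ N (-(ap h').normComp) := hP _
      have h2 : N (-(ap h').normComp) ≤ C * 0 - (Phi f h').re := by
        refine csInf_le (hbdd _) ⟨0, h', hh', ?_, rfl⟩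
        intro t
        simp
      rw [map_neg] at h1
      linarith
    by_cases h0 : Phi f h = 0
    · rw [h0, norm_zero]
      apply hpos
      intro t
      simp
    · set ω : ℂ := (starRingEnd ℂ) (Phi f h) / ‖Phi f h‖ with hω
      have hn0 : ‖Phi f h‖ ≠ 0 := by simpa using h0
      have hωn : ‖ω‖ = 1 := by
        rw [hω, norm_div, RCLike.norm_conj, Complex.norm_real, norm_norm, div_self hn0]
      have h1 := key (ω • h) (Submodule.smul_mem _ _ hh)
      have h2 : Phi f (ω • h) = (‖Phi f h‖ : ℂ) := by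
        rw [map_smul, smul_eq_mul, hω]
        have : (‖Phi f h‖ : ℂ) ≠ 0 := by exact_mod_cast hn0
        field_simp
        rw [mul_comm, Complex.mul_conj, Complex.normSq_eq_norm_sq]
        push_cast
        ring
      rw [h2, Complex.ofReal_re] at h1
      have h3 : (ap (ω • h)).normComp = (ap h).normComp := by
        ext t
        rw [map_smul]
        simp [hωn]
      rw [h3] at h1
      exact h1

/-- The representation theorem. -/
theorem exists_rep (D : Set ℝ) (f : ℝ → ℂ) (C : ℝ)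
    (hC : ∀ h ∈ Finsupp.supported ℂ ℂ D, ∀ M : ℝ, (∀ t, ‖ap h t‖ ≤ M) → ‖Phi f h‖ ≤ C * M) :
    ∃ (H : Type) (_ : NormedAddCommGroup H) (_ : InnerProductSpace ℂ H) (_ : CompleteSpace H)
      (π : ℝ → H →ₗᵢ[ℂ] H) (u v : H), IsRep π ∧
      (∀ h : ℝ →₀ ℂ, ∀ M : ℝ, (∀ t, ‖ap h t‖ ≤ M) → ∀ w : H,
        ‖h.sum fun x a => a • π x w‖ ≤ M * ‖w‖) ∧
      ‖u‖ ^ 2 ≤ C ∧ ‖v‖ ^ 2 ≤ C ∧ ∀ x ∈ D, f x = ⟪v, π x u⟫_ℂ := by
  obtain ⟨P, hP1, hPf⟩ := exists_posFun D f C hC
  have hC0 : 0 ≤ C := by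
    have := P.nonneg 1 (fun t => by simp)
    linarith
  set u₀ : P.Pre := P.toPre 1 with hu₀
  have hu₀n : ‖u₀‖ ^ 2 ≤ C := by
    rw [P.norm_sq_def, hu₀, PosFun.ofPre_toPre]
    have : reB (star (1 : ℝ →ᵇ ℂ) * 1) = 1 := by
      ext t
      simp
    rw [this]
    exact hP1
  -- the comparison
  let T : Finsupp.supported ℂ ℂ D →ₗ[ℂ] P.Hil :=
    { toFun := fun h => ((P.toPre (ap (h : ℝ →₀ ℂ)) : P.Pre) : P.Hil)
      map_add' := by
        intro a b
        rw [← UniformSpace.Completion.coe_add, Submodule.coe_add, map_add, map_add]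
      map_smul' := by
        intro c a
        rw [RingHom.id_apply, ← UniformSpace.Completion.coe_smul, Submodule.coe_smul, map_smul,
          map_smul] }
  let F : Finsupp.supported ℂ ℂ D →ₗ[ℂ] ℂ := (Phi f) ∘ₗ (Finsupp.supported ℂ ℂ D).subtype
  have hFT : ∀ h, ‖F h‖ ≤ Real.sqrt C * ‖T h‖ := by
    intro h
    have h1 := hPf h h.2
    have h2 : P.toLin (ap (h : ℝ →₀ ℂ)).normComp ≤ Real.sqrt C * ‖T h‖ := by
      -- Cauchy-Schwarz in the pre-Hilbert space
      set k : ℝ →ᵇ ℂ := BoundedContinuousFunction.ofNormedAddCommGroup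
        (fun t : ℝ => ((‖ap (h : ℝ →₀ ℂ) t‖ : ℝ) : ℂ)) (by fun_prop) ‖ap (h : ℝ →₀ ℂ)‖ (by
          intro t
          rw [Complex.norm_real, norm_norm]
          exact (ap (h : ℝ →₀ ℂ)).norm_coe_le_norm t) with hk
      have e1 : ⟪u₀, P.toPre k⟫_ℂ = (P.toLin (ap (h : ℝ →₀ ℂ)).normComp : ℂ) := by
        rw [P.inner_def, hu₀, PosFun.ofPre_toPre, PosFun.ofPre_toPre]
        apply Complex.ext
        · simp only [PosFun.cplx, Complex.ofReal_re]
          congr 1
          ext t
          simp [hk]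
        · simp only [PosFun.cplx, Complex.ofReal_im]
          have : imB (star 1 * k) = 0 := by
            ext t
            simp [hk]
          rw [this, map_zero]
      have e2 : ‖P.toPre k‖ ^ 2 = ‖P.toPre (ap (h : ℝ →₀ ℂ))‖ ^ 2 := by
        rw [P.norm_sq_def, P.norm_sq_def, PosFun.ofPre_toPre, PosFun.ofPre_toPre]
        congr 1
        ext t
        simp only [reB_apply, BoundedContinuousFunction.coe_mul,
          BoundedContinuousFunction.coe_star, Pi.mul_apply, Pi.star_apply, RCLike.star_def,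
          ← Complex.normSq_eq_conj_mul_self, Complex.ofReal_re]
        rw [Complex.normSq_eq_norm_sq, Complex.normSq_eq_norm_sq]
        simp [hk]
      have e3 : ‖P.toPre k‖ = ‖P.toPre (ap (h : ℝ →₀ ℂ))‖ := by
        rwa [sq_eq_sq₀ (norm_nonneg _) (norm_nonneg _)] at e2
      have e4 : ‖T h‖ = ‖P.toPre (ap (h : ℝ →₀ ℂ))‖ := UniformSpace.Completion.norm_coe _
      have e5 := norm_inner_le_norm (𝕜 := ℂ) u₀ (P.toPre k)
      rw [e1, Complex.norm_real, e3, ← e4] at e5
      calc P.toLin (ap (h : ℝ →₀ ℂ)).normComp ≤ ‖P.toLin (ap (h : ℝ →₀ ℂ)).normComp‖ :=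
            le_abs_self _
        _ ≤ ‖u₀‖ * ‖T h‖ := e5
        _ ≤ Real.sqrt C * ‖T h‖ := by
          gcongr
          exact Real.le_sqrt_of_sq_le hu₀n
    exact h1.trans h2
  obtain ⟨v, hv, hvF⟩ := exists_riesz T F (Real.sqrt C) hFT (Real.sqrt_nonneg _)
  refine ⟨P.Hil, inferInstance, inferInstance, inferInstance, P.rep, (u₀ : P.Hil), v,
    P.isRep_rep, ?_, ?_, ?_, ?_⟩
  · intro h M hM w
    rw [← P.mulH_ap]
    exact P.norm_mulH_le (ap h) M hM w
  · rw [UniformSpace.Completion.norm_coe]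
    exact hu₀n
  · calc ‖v‖ ^ 2 ≤ Real.sqrt C ^ 2 := by gcongr
      _ = C := Real.sq_sqrt hC0
  · intro x hx
    have h1 := hvF ⟨Finsupp.single x 1, Finsupp.single_mem_supported ℂ 1 hx⟩
    have h2 : F ⟨Finsupp.single x 1, Finsupp.single_mem_supported ℂ 1 hx⟩ = f x := by
      change Phi f (Finsupp.single x 1) = f x
      rw [Phi, Finsupp.linearCombination_single, one_smul]
    rw [h2] at h1
    have h3 : T ⟨Finsupp.single x 1, Finsupp.single_mem_supported ℂ 1 hx⟩ =
        ((P.toPre (eB x) : P.Pre) : P.Hil) := by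
      change ((P.toPre (ap (Finsupp.single x 1)) : P.Pre) : P.Hil) = _
      rw [ap, Finsupp.linearCombination_single, one_smul]
    rw [h1, P.rep_apply, P.mulH_coe, hu₀, PosFun.ofPre_toPre, mul_one, h3]

end Pool.Agent.Helper34.Krein
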