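import Pool.Agent.Helper34.KreinHB

set_option autoImplicit false

open MeasureTheory Filter Topology Set InnerProductSpace
open scoped BoundedContinuousFunction Pointwise

namespace Pool.Agent.Helper34.Krein

variable {H : Type*} [NormedAddCommGroup H] [InnerProductSpace ℂ H]

lemma IsRep.inner_Hc_H0 {π : ℝ → H →ₗᵢ[ℂ] H} (hπ : IsRep π) {w z : H} (hw : w ∈ Hc π)
    (hz : z ∈ H0 π) : ⟪w, z⟫_ℂ = 0 := by
  have h1 : Continuous fun l : ℝ => ⟪w, π l z⟫_ℂ := by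
    have h2 : Continuous fun l : ℝ => ⟪π (-l) w, z⟫_ℂ := by
      have h3 : Continuous fun l : ℝ => π (-l) w := by
        have h4 : Continuous fun l : ℝ => π l w := hw
        exact h4.comp continuous_neg
      exact h3.inner continuous_const
    simpa only [hπ.inner_right] using h2
  have h5 : (fun l : ℝ => ⟪w, π l z⟫_ℂ) =ᵐ[volume] fun _ => (0 : ℂ) := hz w
  have h6 := Continuous.ae_eq_iff_eq volume h1 continuous_const |>.1 h5
  have h7 := congrFun h6 0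
  simpa [hπ.zero] using h7

/-- Main decomposition theorem. -/
theorem IsRep.decomposition [CompleteSpace H] {π : ℝ → H →ₗᵢ[ℂ] H} (hπ : IsRep π) (u v : H)
    {D : Set ℝ} (hD : IsOpen D)
    (hF : AEStronglyMeasurable (fun l : ℝ => ⟪v, π l u⟫_ℂ) (volume.restrict D)) :
    ∃ uc u0 u2 : H, u = uc + u0 + u2 ∧ uc ∈ Hc π ∧ u0 ∈ H0 π ∧
      ‖uc + u0‖ ^ 2 + ‖u2‖ ^ 2 = ‖u‖ ^ 2 ∧ ∀ l ∈ D, ⟪v, π l u2⟫_ℂ = 0 := by
  have hc1 := (isClosed_Hc π).completeSpace_coe
  have hc0 := (isClosed_H0 π).completeSpace_coe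
  set uc := (Hc π).starProjection u with huc
  have hucm : uc ∈ Hc π := Submodule.starProjection_apply_mem _ _
  set u1 := u - uc with hu1
  have hu1m : u1 ∈ (Hc π)ᗮ := Submodule.sub_starProjection_mem_orthogonal u
  set u0 := (H0 π).starProjection u1 with hu0
  have hu0m : u0 ∈ H0 π := Submodule.starProjection_apply_mem _ _
  set u2 := u1 - u0 with hu2
  have hu2m : u2 ∈ (H0 π)ᗮ := Submodule.sub_starProjection_mem_orthogonal u1
  refine ⟨uc, u0, u2, by rw [hu2, hu1]; abel, hucm, hu0m, ?_, ?_⟩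
  · have e1 : ⟪uc + u0, u2⟫_ℂ = 0 := by
      rw [inner_add_left]
      have h2 : ⟪u0, u2⟫_ℂ = 0 := (Submodule.mem_orthogonal _ _).1 hu2m u0 hu0m
      have h3 : ⟪uc, u1⟫_ℂ = 0 := (Submodule.mem_orthogonal _ _).1 hu1m uc hucm
      have h4 : ⟪uc, u0⟫_ℂ = 0 := hπ.inner_Hc_H0 hucm hu0m
      have h5 : ⟪uc, u2⟫_ℂ = 0 := by rw [hu2, inner_sub_right, h3, h4, sub_zero]
      rw [h2, h5, add_zero]
    have e2 := norm_add_sq_eq_norm_sq_add_norm_sq_of_inner_eq_zero (uc + u0) u2 e1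
    have e3 : uc + u0 + u2 = u := by rw [hu2, hu1]; abel
    rw [e3] at e2
    nlinarith [e2]
  · intro l₀ hl₀
    obtain ⟨δ, hδ, hball⟩ := Metric.isOpen_iff.1 hD l₀ hl₀
    have hF1 : AEStronglyMeasurable (fun l : ℝ => ⟪v, π l u1⟫_ℂ) (volume.restrict D) := by
      have h1 : (fun l : ℝ => ⟪v, π l u1⟫_ℂ) = fun l => ⟪v, π l u⟫_ℂ - ⟪v, π l uc⟫_ℂ := by
        funext l
        rw [hu1, map_sub, inner_sub_right]
      rw [h1]
      refine hF.sub ?_
      have h2 : Continuous fun l : ℝ => ⟪v, π l uc⟫_ℂ := by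
        have h3 : Continuous fun l : ℝ => π l uc := hucm
        exact continuous_const.inner h3
      exact h2.aestronglyMeasurable
    have h2 : AEStronglyMeasurable (fun l : ℝ => ⟪v, π l (π l₀ u1)⟫_ℂ)
        (volume.restrict (Ioo (-δ) δ)) := by
      have h3 := aestronglyMeasurable_comp_add (T := Ioo (-δ) δ) (a := l₀) hF1
        hD.measurableSet (by
          intro l hl
          apply hball
          rw [Metric.mem_ball, Real.dist_eq, add_sub_cancel_right, abs_lt]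
          exact hl)
      simpa only [hπ.add] using h3
    have h4 := hπ.ae_zero_of_measurable (hπ.orthogonal_invariant
      (fun w hw b => hπ.Hc_invariant hw b) hu1m l₀) hδ h2
    have h5 : ∀ᵐ l : ℝ, |l| < δ / 2 → ⟪v, π l (π l₀ u2)⟫_ℂ = 0 := by
      filter_upwards [h4, hπ.H0_invariant hu0m l₀ v] with l hl hl2 hl3
      rw [hu2, map_sub, map_sub, inner_sub_right, hl hl3, hl2, sub_zero]
    exact hπ.inner_eq_zero_of_ae_zero (hπ.orthogonal_invariant
      (fun w hw b => hπ.H0_invariant hw b) hu2m l₀) (by positivity) h5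

/-- coefficients of the good vectors are measurable on the line -/
lemma aestronglyMeasurable_good {π : ℝ → H →ₗᵢ[ℂ] H} {uc u0 : H} (hc : uc ∈ Hc π)
    (h0 : u0 ∈ H0 π) (v : H) :
    AEStronglyMeasurable (fun l : ℝ => ⟪v, π l (uc + u0)⟫_ℂ) volume := by
  have h2 : Continuous fun l : ℝ => ⟪v, π l uc⟫_ℂ := by
    have h3 : Continuous fun l : ℝ => π l uc := hc
    exact continuous_const.inner h3
  have h3 : AEStronglyMeasurable (fun l : ℝ => ⟪v, π l u0⟫_ℂ) volume := by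
    have : (fun l : ℝ => ⟪v, π l u0⟫_ℂ) =ᵐ[volume] fun _ => (0 : ℂ) := h0 v
    exact aestronglyMeasurable_const.congr this.symm
  have h4 : (fun l : ℝ => ⟪v, π l (uc + u0)⟫_ℂ) = fun l => ⟪v, π l uc⟫_ℂ + ⟪v, π l u0⟫_ℂ := by
    funext l
    rw [map_add, inner_add_right]
  rw [h4]
  exact h2.aestronglyMeasurable.add h3

/-- coefficients of a contractive representation define bounded functionals -/
lemma norm_Phi_coeff_le {π : ℝ → H →ₗᵢ[ℂ] H}
    (hb : ∀ h : ℝ →₀ ℂ, ∀ M : ℝ, (∀ t, ‖ap h t‖ ≤ M) → ∀ w : H,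
        ‖h.sum fun x a => a • π x w‖ ≤ M * ‖w‖) (v w : H) (h : ℝ →₀ ℂ) (M : ℝ)
    (hM : ∀ t, ‖ap h t‖ ≤ M) :
    ‖Phi (fun x => ⟪v, π x w⟫_ℂ) h‖ ≤ (‖v‖ * ‖w‖) * M := by
  have h1 : Phi (fun x => ⟪v, π x w⟫_ℂ) h = ⟪v, h.sum fun x a => a • π x w⟫_ℂ := by
    rw [Phi, Finsupp.linearCombination_apply, Finsupp.sum, Finsupp.sum, inner_sum]
    refine Finset.sum_congr rfl fun x _ => ?_
    rw [inner_smul_right, smul_eq_mul]
  rw [h1]
  calc ‖⟪v, h.sum fun x a => a • π x w⟫_ℂ‖ ≤ ‖v‖ * ‖h.sum fun x a => a • π x w‖ :=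
        norm_inner_le_norm _ _
    _ ≤ ‖v‖ * (M * ‖w‖) := by
        gcongr
        exact hb h M hM w
    _ = _ := by ring

lemma ap_apply (h : ℝ →₀ ℂ) (t : ℝ) :
    ap h t = ∑ x ∈ h.support, h x * Complex.exp (Complex.I * (x : ℂ) * (t : ℂ)) := by
  rw [ap, Finsupp.linearCombination_apply, Finsupp.sum]
  simp

lemma Phi_apply (f : ℝ → ℂ) (h : ℝ →₀ ℂ) : Phi f h = ∑ x ∈ h.support, h x * f x := by
  rw [Phi, Finsupp.linearCombination_apply, Finsupp.sum]
  simp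

lemma ap_finset (s : Finset ℝ) (c : ℝ → ℂ) (t : ℝ) :
    ap (∑ x ∈ s, Finsupp.single x (c x)) t =
      ∑ x ∈ s, c x * Complex.exp (Complex.I * (x : ℂ) * (t : ℂ)) := by
  rw [map_sum]
  simp [ap]

lemma Phi_finset (f : ℝ → ℂ) (s : Finset ℝ) (c : ℝ → ℂ) :
    Phi f (∑ x ∈ s, Finsupp.single x (c x)) = ∑ x ∈ s, c x * f x := by
  rw [map_sum]
  simp [Phi]

end Pool.Agent.Helper34.Krein
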