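import Pool.Agent.Helper34.KreinMain

set_option autoImplicit false

open MeasureTheory Filter Topology Set InnerProductSpace
open scoped BoundedContinuousFunction Pointwise

namespace Pool.Agent.Helper34.Krein

namespace PosFun

variable (P : PosFun)

/-- the constant function one in the Hilbert space -/
noncomputable def one : P.Hil := ((P.toPre 1 : P.Pre) : P.Hil)

lemma norm_one_sq : ‖P.one‖ ^ 2 = P.toLin 1 := by
  rw [one, UniformSpace.Completion.norm_coe, P.norm_sq_def, PosFun.ofPre_toPre]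
  have : reB (star (1 : ℝ →ᵇ ℂ) * 1) = 1 := by
    ext t
    simp
  rw [this]

lemma rep_one (x : ℝ) : P.rep x P.one = ((P.toPre (eB x) : P.Pre) : P.Hil) := by
  rw [P.rep_apply, one, P.mulH_coe, PosFun.ofPre_toPre, mul_one]

/-- Every functional dominated by `P` is given by a vector. -/
theorem exists_vector (D : Set ℝ) (f : ℝ → ℂ)
    (hPf : ∀ h ∈ Finsupp.supported ℂ ℂ D, ‖Phi f h‖ ≤ P.toLin (ap h).normComp) :
    ∃ v : P.Hil, ‖v‖ ≤ ‖P.one‖ ∧ ∀ x ∈ D, f x = ⟪v, P.rep x P.one⟫_ℂ := by
  let T : Finsupp.supported ℂ ℂ D →ₗ[ℂ] P.Hil :=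
    { toFun := fun h => ((P.toPre (ap (h : ℝ →₀ ℂ)) : P.Pre) : P.Hil)
      map_add' := by
        intro a b
        rw [← UniformSpace.Completion.coe_add, Submodule.coe_add, map_add, map_add]
      map_smul' := by
        intro c a
        rw [RingHom.id_apply, ← UniformSpace.Completion.coe_smul, Submodule.coe_smul, map_smul,
          map_smul] }
  let F : Finsupp.supported ℂ ℂ D →ₗ[ℂ] ℂ := (Phi f) ∘ₗ (Finsupp.supported ℂ ℂ D).subtype
  have hFT : ∀ h, ‖F h‖ ≤ ‖P.one‖ * ‖T h‖ := by
    intro h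
    have h1 := hPf h h.2
    have h2 : P.toLin (ap (h : ℝ →₀ ℂ)).normComp ≤ ‖P.one‖ * ‖T h‖ := by
      set k : ℝ →ᵇ ℂ := BoundedContinuousFunction.ofNormedAddCommGroup
        (fun t : ℝ => ((‖ap (h : ℝ →₀ ℂ) t‖ : ℝ) : ℂ)) (by fun_prop) ‖ap (h : ℝ →₀ ℂ)‖ (by
          intro t
          rw [Complex.norm_real, norm_norm]
          exact (ap (h : ℝ →₀ ℂ)).norm_coe_le_norm t) with hk
      have e1 : ⟪P.toPre 1, P.toPre k⟫_ℂ = (P.toLin (ap (h : ℝ →₀ ℂ)).normComp : ℂ) := by
        rw [P.inner_def, PosFun.ofPre_toPre, PosFun.ofPre_toPre]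
        apply Complex.ext
        · simp only [PosFun.cplx, Complex.ofReal_re]
          congr 1
          ext t
          simp [hk]
        · simp only [PosFun.cplx, Complex.ofReal_im]
          have : imB (star 1 * k) = 0 := by
            ext t
            simp [hk]
          rw [this, map_zero]
      have e2 : ‖P.toPre k‖ ^ 2 = ‖P.toPre (ap (h : ℝ →₀ ℂ))‖ ^ 2 := by
        rw [P.norm_sq_def, P.norm_sq_def, PosFun.ofPre_toPre, PosFun.ofPre_toPre]
        congr 1
        ext t
        simp only [reB_apply, BoundedContinuousFunction.coe_mul,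
          BoundedContinuousFunction.coe_star, Pi.mul_apply, Pi.star_apply, RCLike.star_def,
          ← Complex.normSq_eq_conj_mul_self, Complex.ofReal_re]
        rw [Complex.normSq_eq_norm_sq, Complex.normSq_eq_norm_sq]
        simp [hk]
      have e3 : ‖P.toPre k‖ = ‖P.toPre (ap (h : ℝ →₀ ℂ))‖ := by
        rwa [sq_eq_sq₀ (norm_nonneg _) (norm_nonneg _)] at e2
      have e4 : ‖T h‖ = ‖P.toPre (ap (h : ℝ →₀ ℂ))‖ := UniformSpace.Completion.norm_coe _
      have e5 := norm_inner_le_norm (𝕜 := ℂ) (P.toPre 1) (P.toPre k)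
      rw [e1, Complex.norm_real, e3, ← e4] at e5
      have e6 : ‖P.one‖ = ‖P.toPre 1‖ := UniformSpace.Completion.norm_coe _
      rw [e6]
      exact (le_abs_self _).trans e5
    exact h1.trans h2
  obtain ⟨v, hv, hvF⟩ := exists_riesz T F ‖P.one‖ hFT (norm_nonneg _)
  refine ⟨v, hv, ?_⟩
  intro x hx
  have h1 := hvF ⟨Finsupp.single x 1, Finsupp.single_mem_supported ℂ 1 hx⟩
  have h2 : F ⟨Finsupp.single x 1, Finsupp.single_mem_supported ℂ 1 hx⟩ = f x := by
    change Phi f (Finsupp.single x 1) = f x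
    rw [Phi, Finsupp.linearCombination_single, one_smul]
  rw [h2] at h1
  have h3 : T ⟨Finsupp.single x 1, Finsupp.single_mem_supported ℂ 1 hx⟩ =
      ((P.toPre (eB x) : P.Pre) : P.Hil) := by
    change ((P.toPre (ap (Finsupp.single x 1)) : P.Pre) : P.Hil) = _
    rw [ap, Finsupp.linearCombination_single, one_smul]
  rw [h1, P.rep_one, h3]

lemma contractive (h : ℝ →₀ ℂ) (M : ℝ) (hM : ∀ t, ‖ap h t‖ ≤ M) (w : P.Hil) :
    ‖h.sum fun x a => a • P.rep x w‖ ≤ M * ‖w‖ := by
  rw [← P.mulH_ap]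
  exact P.norm_mulH_le (ap h) M hM w

lemma inner_mulH_nonneg (g : ℝ →ᵇ ℂ) (hg : ∀ t, (g t).im = 0 ∧ 0 ≤ (g t).re) (w : P.Hil) :
    (⟪w, P.mulH g w⟫_ℂ).im = 0 ∧ 0 ≤ (⟪w, P.mulH g w⟫_ℂ).re := by
  induction w using UniformSpace.Completion.induction_on with
  | hp =>
    have hc : Continuous fun w : P.Hil => ⟪w, P.mulH g w⟫_ℂ :=
      continuous_id.inner (P.mulH g).continuous
    have h1 : IsClosed {w : P.Hil | (⟪w, P.mulH g w⟫_ℂ).im = 0} :=
      isClosed_eq (Complex.continuous_im.comp hc) continuous_const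
    have h2 : IsClosed {w : P.Hil | 0 ≤ (⟪w, P.mulH g w⟫_ℂ).re} :=
      isClosed_le continuous_const (Complex.continuous_re.comp hc)
    exact h1.inter h2
  | ih a =>
    rw [mulH_coe, UniformSpace.Completion.inner_coe, P.inner_def, ofPre_toPre]
    constructor
    · simp only [cplx]
      have : imB (star (P.ofPre a) * (g * P.ofPre a)) = 0 := by
        ext t
        have h1 := (hg t).1
        simp [Complex.mul_im, Complex.mul_re, h1]
        ring
      rw [this, map_zero]
    · simp only [cplx]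
      apply P.nonneg
      intro t
      have h1 := (hg t).1
      have h2 := (hg t).2
      simp only [reB_apply, BoundedContinuousFunction.coe_mul,
        BoundedContinuousFunction.coe_star, Pi.mul_apply, Pi.star_apply, RCLike.star_def,
        Complex.mul_re, Complex.mul_im, Complex.conj_re, Complex.conj_im, h1]
      nlinarith [mul_nonneg h2 (mul_self_nonneg (P.ofPre a t).re),
        mul_nonneg h2 (mul_self_nonneg (P.ofPre a t).im)]

lemma Phi_inner (v w : P.Hil) (h : ℝ →₀ ℂ) :
    Phi (fun x => ⟪v, P.rep x w⟫_ℂ) h = ⟪v, P.mulH (ap h) w⟫_ℂ := by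
  rw [P.mulH_ap, Phi, Finsupp.linearCombination_apply, Finsupp.sum, Finsupp.sum, inner_sum]
  refine Finset.sum_congr rfl fun x _ => ?_
  rw [inner_smul_right, smul_eq_mul]

/-- sum of positive functionals -/
noncomputable def add (P Q : PosFun) : PosFun where
  toLin := P.toLin + Q.toLin
  nonneg g hg := by
    have h1 := P.nonneg g hg
    have h2 := Q.nonneg g hg
    simpa using add_nonneg h1 h2

lemma add_toLin (P Q : PosFun) (g : ℝ →ᵇ ℝ) : (P.add Q).toLin g = P.toLin g + Q.toLin g := rfl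

end PosFun

lemma Phi_smul_apply (f : ℝ → ℂ) (c : ℂ) (h : ℝ →₀ ℂ) : Phi f (c • h) = c * Phi f h := by
  rw [map_smul, smul_eq_mul]

/-- A nonnegative functional is hermitian. -/
lemma conj_of_pos {D : Set ℝ} (hD0 : (0 : ℝ) ∈ D) (hDs : ∀ x ∈ D, -x ∈ D) {f : ℝ → ℂ}
    (hf : ∀ h ∈ Finsupp.supported ℂ ℂ D, (∀ t, (ap h t).im = 0 ∧ 0 ≤ (ap h t).re) →
      (Phi f h).im = 0 ∧ 0 ≤ (Phi f h).re) {x : ℝ} (hx : x ∈ D) :
    f (-x) = (starRingEnd ℂ) (f x) := by
  have hexp : ∀ t : ℝ, eB x t = ⟨Real.cos (x * t), Real.sin (x * t)⟩ := by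
    intro t
    rw [eB_apply]
    have e1 : Complex.I * (x : ℂ) * (t : ℂ) = ((x * t : ℝ) : ℂ) * Complex.I := by
      push_cast; ring
    rw [e1]
    apply Complex.ext
    · rw [Complex.exp_ofReal_mul_I_re]
    · rw [Complex.exp_ofReal_mul_I_im]
  have hexp' : ∀ t : ℝ, eB (-x) t = ⟨Real.cos (x * t), -Real.sin (x * t)⟩ := by
    intro t
    rw [eB_apply]
    have e1 : Complex.I * ((-x : ℝ) : ℂ) * (t : ℂ) = ((-(x * t) : ℝ) : ℂ) * Complex.I := by
      push_cast; ring
    rw [e1]
    apply Complex.ext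
    · rw [Complex.exp_ofReal_mul_I_re, Real.cos_neg]
    · rw [Complex.exp_ofReal_mul_I_im, Real.sin_neg]
  have h0 : (f 0).im = 0 := by
    have := (hf (Finsupp.single 0 1) (Finsupp.single_mem_supported ℂ 1 hD0) (by
      intro t
      simp [ap])).1
    simpa [Phi] using this
  have h1 := (hf (Finsupp.single 0 2 + (Finsupp.single x 1 + Finsupp.single (-x) 1))
    (Submodule.add_mem _ (Finsupp.single_mem_supported ℂ _ hD0)
      (Submodule.add_mem _ (Finsupp.single_mem_supported ℂ _ hx)
        (Finsupp.single_mem_supported ℂ _ (hDs x hx)))) (by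
      intro t
      have e : ap (Finsupp.single 0 2 + (Finsupp.single x 1 + Finsupp.single (-x) 1)) t =
          2 * eB 0 t + (eB x t + eB (-x) t) := by
        rw [map_add, map_add]
        simp [ap]
      rw [e, hexp, hexp', eB_zero]
      constructor
      · simp
      · simp
        have := Real.neg_one_le_cos (x * t)
        linarith)).1
  have h2 := (hf (Finsupp.single 0 2 + (Finsupp.single x Complex.I +
      Finsupp.single (-x) (-Complex.I)))
    (Submodule.add_mem _ (Finsupp.single_mem_supported ℂ _ hD0)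
      (Submodule.add_mem _ (Finsupp.single_mem_supported ℂ _ hx)
        (Finsupp.single_mem_supported ℂ _ (hDs x hx)))) (by
      intro t
      have e : ap (Finsupp.single 0 2 + (Finsupp.single x Complex.I +
          Finsupp.single (-x) (-Complex.I))) t =
          2 * eB 0 t + (Complex.I * eB x t + (-Complex.I) * eB (-x) t) := by
        rw [map_add, map_add]
        simp [ap]
      rw [e, hexp, hexp', eB_zero]
      constructor
      · simp
      · simp
        have := Real.sin_le_one (x * t)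
        linarith)).1
  have e1 : Phi f (Finsupp.single 0 2 + (Finsupp.single x 1 + Finsupp.single (-x) 1)) =
      2 * f 0 + (f x + f (-x)) := by
    rw [map_add, map_add]
    simp [Phi]
  have e2 : Phi f (Finsupp.single 0 2 + (Finsupp.single x Complex.I +
      Finsupp.single (-x) (-Complex.I))) =
      2 * f 0 + (Complex.I * f x + (-Complex.I) * f (-x)) := by
    rw [map_add, map_add]
    simp [Phi]
  rw [e1] at h1
  rw [e2] at h2
  simp [h0] at h1 h2
  apply Complex.ext
  · rw [Complex.conj_re]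
    linarith
  · rw [Complex.conj_im]
    linarith

/-- reflection of coefficients -/
noncomputable def refl (h : ℝ →₀ ℂ) : ℝ →₀ ℂ :=
  ∑ x ∈ h.support, Finsupp.single (-x) ((starRingEnd ℂ) (h x))

lemma refl_mem {D : Set ℝ} (hDs : ∀ x ∈ D, -x ∈ D) {h : ℝ →₀ ℂ}
    (hh : h ∈ Finsupp.supported ℂ ℂ D) : refl h ∈ Finsupp.supported ℂ ℂ D := by
  refine Submodule.sum_mem _ fun x hx => ?_
  exact Finsupp.single_mem_supported ℂ _ (hDs x ((Finsupp.mem_supported ℂ h).1 hh hx))

lemma ap_refl (h : ℝ →₀ ℂ) (t : ℝ) : ap (refl h) t = (starRingEnd ℂ) (ap h t) := by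
  rw [refl, map_sum, ap_apply, map_sum]
  simp only [ap, Finsupp.linearCombination_single, BoundedContinuousFunction.coe_sum,
    Finset.sum_apply, BoundedContinuousFunction.coe_smul, smul_eq_mul, map_mul]
  refine Finset.sum_congr rfl fun x _ => ?_
  rw [eB_apply, ← Complex.exp_conj]
  congr 2
  simp

lemma Phi_refl {D : Set ℝ} {f : ℝ → ℂ}
    (hf : ∀ x ∈ D, f (-x) = (starRingEnd ℂ) (f x)) {h : ℝ →₀ ℂ}
    (hh : h ∈ Finsupp.supported ℂ ℂ D) : Phi f (refl h) = (starRingEnd ℂ) (Phi f h) := by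
  rw [refl, map_sum, Phi_apply, map_sum]
  simp only [Phi, Finsupp.linearCombination_single, smul_eq_mul, map_mul]
  refine Finset.sum_congr rfl fun x hx => ?_
  rw [hf x ((Finsupp.mem_supported ℂ h).1 hh hx)]

/-- A nonnegative functional is bounded by its value at one. -/
lemma norm_le_of_pos {D : Set ℝ} (hD0 : (0 : ℝ) ∈ D) (hDs : ∀ x ∈ D, -x ∈ D) {f : ℝ → ℂ}
    (hf : ∀ h ∈ Finsupp.supported ℂ ℂ D, (∀ t, (ap h t).im = 0 ∧ 0 ≤ (ap h t).re) →
      (Phi f h).im = 0 ∧ 0 ≤ (Phi f h).re) (h : ℝ →₀ ℂ)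
    (hh : h ∈ Finsupp.supported ℂ ℂ D) (M : ℝ) (hM : ∀ t, ‖ap h t‖ ≤ M) :
    ‖Phi f h‖ ≤ (f 0).re * M := by
  by_cases h0 : Phi f h = 0
  · rw [h0, norm_zero]
    have h1 := (hf (Finsupp.single 0 1) (Finsupp.single_mem_supported ℂ 1 hD0) (by
      intro t
      simp [ap])).2
    have h2 : 0 ≤ (f 0).re := by simpa [Phi] using h1
    have h3 : 0 ≤ M := (norm_nonneg _).trans (hM 0)
    positivity
  · set ω : ℂ := (starRingEnd ℂ) (Phi f h) / ‖Phi f h‖ with hω
    have hn0 : ‖Phi f h‖ ≠ 0 := by simpa using h0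
    have hωn : ‖ω‖ = 1 := by
      rw [hω, norm_div, RCLike.norm_conj, Complex.norm_real, norm_norm, div_self hn0]
    have h2 : Phi f (ω • h) = (‖Phi f h‖ : ℂ) := by
      rw [map_smul, smul_eq_mul, hω]
      have : (‖Phi f h‖ : ℂ) ≠ 0 := by exact_mod_cast hn0
      field_simp
      rw [mul_comm, Complex.mul_conj, Complex.normSq_eq_norm_sq]
      push_cast
      ring
    have hmem : ω • h ∈ Finsupp.supported ℂ ℂ D := Submodule.smul_mem _ _ hh
    have hap : ∀ t, ‖ap (ω • h) t‖ ≤ M := by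
      intro t
      rw [map_smul]
      simp only [BoundedContinuousFunction.coe_smul, norm_smul, hωn, one_mul]
      exact hM t
    have hherm : ∀ x ∈ D, f (-x) = (starRingEnd ℂ) (f x) := fun x hx =>
      conj_of_pos hD0 hDs hf hx
    have key := (hf (Finsupp.single 0 ((2 * M : ℝ) : ℂ) - (ω • h + refl (ω • h)))
      (Submodule.sub_mem _ (Finsupp.single_mem_supported ℂ _ hD0)
        (Submodule.add_mem _ hmem (refl_mem hDs hmem))) (by
        intro t
        have e : ap (Finsupp.single 0 ((2 * M : ℝ) : ℂ) - (ω • h + refl (ω • h))) t =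
            ((2 * M : ℝ) : ℂ) - (ap (ω • h) t + (starRingEnd ℂ) (ap (ω • h) t)) := by
          rw [map_sub, map_add]
          simp only [BoundedContinuousFunction.coe_sub, Pi.sub_apply,
            BoundedContinuousFunction.coe_add, Pi.add_apply, ap_refl]
          congr 1
          rw [ap, Finsupp.linearCombination_single]
          simp
        rw [e, Complex.add_conj]
        constructor
        · rw [← Complex.ofReal_sub, Complex.ofReal_im]
        · rw [← Complex.ofReal_sub, Complex.ofReal_re]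
          have h3 := Complex.abs_re_le_norm (ap (ω • h) t)
          have h4 := hap t
          have h5 := le_abs_self (ap (ω • h) t).re
          linarith)).2
    rw [map_sub, map_add, Phi_refl hherm hmem, h2] at key
    have e3 : Phi f (Finsupp.single 0 ((2 * M : ℝ) : ℂ)) = ((2 * M : ℝ) : ℂ) * f 0 := by
      rw [Phi, Finsupp.linearCombination_single, smul_eq_mul]
    rw [e3, Complex.conj_ofReal] at key
    simp only [Complex.sub_re, Complex.re_ofReal_mul, Complex.add_re, Complex.ofReal_re] at key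
    linarith

end Pool.Agent.Helper34.Krein
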