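import Pool.Agent.Helper34.KreinCore

set_option autoImplicit false

open MeasureTheory Filter Topology Set InnerProductSpace
open scoped BoundedContinuousFunction

namespace Pool.Agent.Helper34.Krein

/-- The exponential `e_x` as a bounded continuous function. -/
noncomputable def eB (x : ℝ) : ℝ →ᵇ ℂ :=
  BoundedContinuousFunction.ofNormedAddCommGroup
    (fun t : ℝ => Complex.exp (Complex.I * (x : ℂ) * (t : ℂ))) (by fun_prop) 1 (by
      intro t
      have : Complex.I * (x : ℂ) * (t : ℂ) = ((x * t : ℝ) : ℂ) * Complex.I := by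
        push_cast; ring
      rw [this, Complex.norm_exp_ofReal_mul_I])

@[simp] lemma eB_apply (x t : ℝ) : eB x t = Complex.exp (Complex.I * (x : ℂ) * (t : ℂ)) := rfl

lemma norm_eB_apply (x t : ℝ) : ‖eB x t‖ = 1 := by
  rw [eB_apply]
  have : Complex.I * (x : ℂ) * (t : ℂ) = ((x * t : ℝ) : ℂ) * Complex.I := by
    push_cast; ring
  rw [this, Complex.norm_exp_ofReal_mul_I]

lemma eB_zero : eB 0 = 1 := by
  ext t
  simp

lemma eB_add (x y : ℝ) : eB (x + y) = eB x * eB y := by
  ext t
  simp only [eB_apply, BoundedContinuousFunction.coe_mul, Pi.mul_apply]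
  rw [← Complex.exp_add]
  congr 1
  push_cast
  ring

/-- Almost periodic polynomial with coefficient function `h`. -/
noncomputable def ap : (ℝ →₀ ℂ) →ₗ[ℂ] (ℝ →ᵇ ℂ) := Finsupp.linearCombination ℂ eB

/-- The linear functional attached to `f`. -/
noncomputable def Phi (f : ℝ → ℂ) : (ℝ →₀ ℂ) →ₗ[ℂ] ℂ := Finsupp.linearCombination ℂ f

/-- postcomposition with the real part -/
noncomputable def reB : (ℝ →ᵇ ℂ) →ₗ[ℝ] (ℝ →ᵇ ℝ) :=
  (Complex.reCLM.compLeftContinuousBounded ℝ).toLinearMap

/-- postcomposition with the imaginary part -/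
noncomputable def imB : (ℝ →ᵇ ℂ) →ₗ[ℝ] (ℝ →ᵇ ℝ) :=
  (Complex.imCLM.compLeftContinuousBounded ℝ).toLinearMap

@[simp] lemma reB_apply (g : ℝ →ᵇ ℂ) (t : ℝ) : reB g t = (g t).re := rfl
@[simp] lemma imB_apply (g : ℝ →ᵇ ℂ) (t : ℝ) : imB g t = (g t).im := rfl

/-- A positive linear functional on real bounded continuous functions. -/
structure PosFun where
  toLin : (ℝ →ᵇ ℝ) →ₗ[ℝ] ℝ
  nonneg : ∀ g : ℝ →ᵇ ℝ, (∀ t, 0 ≤ g t) → 0 ≤ toLin g

namespace PosFun

variable (P : PosFun)

lemma mono {g h : ℝ →ᵇ ℝ} (hgh : ∀ t, g t ≤ h t) : P.toLin g ≤ P.toLin h := by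
  have := P.nonneg (h - g) (fun t => by simpa using hgh t)
  rw [map_sub] at this
  linarith

/-- complexification of a positive functional -/
noncomputable def cplx (g : ℝ →ᵇ ℂ) : ℂ := ⟨P.toLin (reB g), P.toLin (imB g)⟩

lemma cplx_add (g h : ℝ →ᵇ ℂ) : P.cplx (g + h) = P.cplx g + P.cplx h := by
  apply Complex.ext <;> simp [cplx, map_add]

lemma cplx_smul (c : ℂ) (g : ℝ →ᵇ ℂ) : P.cplx (c • g) = c * P.cplx g := by
  have h1 : reB (c • g) = c.re • reB g - c.im • imB g := by
    ext t
    simp [Complex.mul_re]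
  have h2 : imB (c • g) = c.re • imB g + c.im • reB g := by
    ext t
    simp [Complex.mul_im]
  apply Complex.ext
  · simp only [cplx, h1, map_sub, map_smul, smul_eq_mul, Complex.mul_re]
  · simp only [cplx, h2, map_add, map_smul, smul_eq_mul, Complex.mul_im]

lemma cplx_star (g : ℝ →ᵇ ℂ) : P.cplx (star g) = (starRingEnd ℂ) (P.cplx g) := by
  have h1 : reB (star g) = reB g := by
    ext t
    simp
  have h2 : imB (star g) = - imB g := by
    ext t
    simp
  apply Complex.ext
  · simp [cplx, h1]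
  · simp [cplx, h2]

lemma cplx_star_mul_self (g : ℝ →ᵇ ℂ) :
    P.cplx (star g * g) = (P.toLin (reB (star g * g)) : ℂ) := by
  have h2 : imB (star g * g) = 0 := by
    ext t
    simp
    ring
  apply Complex.ext
  · simp [cplx]
  · simp [cplx, h2]

/-- The pre-Hilbert space of a positive functional, a type synonym. -/
def Pre (_ : PosFun) : Type := ℝ →ᵇ ℂ

noncomputable instance : AddCommGroup P.Pre := inferInstanceAs (AddCommGroup (ℝ →ᵇ ℂ))
noncomputable instance : Module ℂ P.Pre := inferInstanceAs (Module ℂ (ℝ →ᵇ ℂ))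

/-- identity map into the synonym -/
noncomputable def toPre : (ℝ →ᵇ ℂ) ≃ₗ[ℂ] P.Pre := LinearEquiv.refl ℂ _

/-- identity map out of the synonym -/
noncomputable def ofPre : P.Pre ≃ₗ[ℂ] (ℝ →ᵇ ℂ) := P.toPre.symm

@[simp] lemma toPre_ofPre (a : P.Pre) : P.toPre (P.ofPre a) = a := rfl
@[simp] lemma ofPre_toPre (a : ℝ →ᵇ ℂ) : P.ofPre (P.toPre a) = a := rfl

noncomputable abbrev core : PreInnerProductSpace.Core ℂ P.Pre where
  inner a b := P.cplx (star (P.ofPre a) * P.ofPre b)
  conj_inner_symm a b := by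
    rw [← P.cplx_star, star_mul, star_star]
  re_inner_nonneg a := by
    rw [P.cplx_star_mul_self]
    simp only [RCLike.re_to_complex, Complex.ofReal_re]
    apply P.nonneg
    intro t
    simp only [reB_apply, BoundedContinuousFunction.coe_mul, BoundedContinuousFunction.coe_star,
      Pi.mul_apply, Pi.star_apply, RCLike.star_def, Complex.mul_re, Complex.conj_re,
      Complex.conj_im]
    nlinarith [mul_self_nonneg (P.ofPre a t).re, mul_self_nonneg (P.ofPre a t).im]
  add_left a b c := by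
    rw [map_add, star_add, add_mul, P.cplx_add]
  smul_left a b c := by
    rw [map_smul, star_smul, smul_mul_assoc, P.cplx_smul]
    rfl

noncomputable instance : SeminormedAddCommGroup P.Pre :=
  InnerProductSpace.Core.toSeminormedAddCommGroup (c := P.core)
noncomputable instance : InnerProductSpace ℂ P.Pre :=
  InnerProductSpace.ofCore P.core

lemma inner_def (a b : P.Pre) : ⟪a, b⟫_ℂ = P.cplx (star (P.ofPre a) * P.ofPre b) := rfl

lemma norm_sq_def (a : P.Pre) : ‖a‖ ^ 2 = P.toLin (reB (star (P.ofPre a) * P.ofPre a)) := by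
  rw [@norm_sq_eq_re_inner ℂ, inner_def, P.cplx_star_mul_self]
  simp

/-- multiplication by a bounded function of modulus at most `M` -/
lemma norm_mul_le (g : ℝ →ᵇ ℂ) (M : ℝ) (hM : ∀ t, ‖g t‖ ≤ M) (a : P.Pre) :
    ‖P.toPre (g * P.ofPre a)‖ ≤ M * ‖a‖ := by
  have hM0 : 0 ≤ M := (norm_nonneg _).trans (hM 0)
  rw [← sq_le_sq₀ (norm_nonneg _) (by positivity), mul_pow, norm_sq_def, norm_sq_def,
    ofPre_toPre]
  have e1 : M ^ 2 * P.toLin (reB (star (P.ofPre a) * P.ofPre a)) =
      P.toLin (M ^ 2 • reB (star (P.ofPre a) * P.ofPre a)) := by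
    rw [map_smul, smul_eq_mul]
  rw [e1]
  apply P.mono
  intro t
  simp only [reB_apply, BoundedContinuousFunction.coe_mul, BoundedContinuousFunction.coe_star,
    Pi.mul_apply, Pi.star_apply, RCLike.star_def, BoundedContinuousFunction.coe_smul, smul_eq_mul,
    ← Complex.normSq_eq_conj_mul_self, Complex.ofReal_re]
  rw [Complex.normSq_mul, Complex.normSq_eq_norm_sq (g t)]
  have h1 := hM t
  have h2 := norm_nonneg (g t)
  have h3 := Complex.normSq_nonneg (P.ofPre a t)
  have h4 : ‖g t‖ ^ 2 ≤ M ^ 2 := by gcongr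
  nlinarith

lemma norm_mul_eB (x : ℝ) (a : P.Pre) : ‖P.toPre (eB x * P.ofPre a)‖ = ‖a‖ := by
  rw [← sq_eq_sq₀ (norm_nonneg _) (norm_nonneg _), norm_sq_def, norm_sq_def,
    ofPre_toPre]
  congr 1
  ext t
  simp only [reB_apply, BoundedContinuousFunction.coe_mul, BoundedContinuousFunction.coe_star,
    Pi.mul_apply, Pi.star_apply, RCLike.star_def, 
    ← Complex.normSq_eq_conj_mul_self, Complex.ofReal_re]
  rw [Complex.normSq_mul, Complex.normSq_eq_norm_sq (eB x t), norm_eB_apply]
  ring

/-- multiplication operator on the pre-Hilbert space -/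
noncomputable def mulPre (g : ℝ →ᵇ ℂ) : P.Pre →L[ℂ] P.Pre :=
  LinearMap.mkContinuous
    { toFun := fun a => P.toPre (g * P.ofPre a)
      map_add' := by intro a b; rw [map_add, mul_add, map_add]
      map_smul' := by intro c a; rw [map_smul, mul_smul_comm, map_smul]; rfl } ‖g‖
    (fun a => P.norm_mul_le g ‖g‖ (fun t => g.norm_coe_le_norm t) a)

@[simp] lemma mulPre_apply (g : ℝ →ᵇ ℂ) (a : P.Pre) : P.mulPre g a = P.toPre (g * P.ofPre a) := rfl

/-- The Hilbert space of a positive functional. -/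
abbrev Hil := UniformSpace.Completion P.Pre

/-- multiplication operator on the Hilbert space -/
noncomputable def mulH (g : ℝ →ᵇ ℂ) : P.Hil →L[ℂ] P.Hil := (P.mulPre g).completion

@[simp] lemma mulH_coe (g : ℝ →ᵇ ℂ) (a : P.Pre) :
    P.mulH g (a : P.Hil) = ((P.toPre (g * P.ofPre a) : P.Pre) : P.Hil) := by
  simp [mulH]

lemma norm_mulH_le (g : ℝ →ᵇ ℂ) (M : ℝ) (hM : ∀ t, ‖g t‖ ≤ M) (w : P.Hil) :
    ‖P.mulH g w‖ ≤ M * ‖w‖ := by
  induction w using UniformSpace.Completion.induction_on with
  | hp => exact isClosed_le (by fun_prop) (by fun_prop)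
  | ih a =>
    rw [mulH_coe, UniformSpace.Completion.norm_coe, UniformSpace.Completion.norm_coe]
    exact P.norm_mul_le g M hM a

lemma norm_mulH_eB (x : ℝ) (w : P.Hil) : ‖P.mulH (eB x) w‖ = ‖w‖ := by
  induction w using UniformSpace.Completion.induction_on with
  | hp => exact isClosed_eq (by fun_prop) (by fun_prop)
  | ih a =>
    rw [mulH_coe, UniformSpace.Completion.norm_coe, UniformSpace.Completion.norm_coe]
    exact P.norm_mul_eB x a

/-- the representation -/
noncomputable def rep (x : ℝ) : P.Hil →ₗᵢ[ℂ] P.Hil where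
  toLinearMap := (P.mulH (eB x)).toLinearMap
  norm_map' := P.norm_mulH_eB x

lemma rep_apply (x : ℝ) (w : P.Hil) : P.rep x w = P.mulH (eB x) w := rfl

lemma mulH_add (g h : ℝ →ᵇ ℂ) (w : P.Hil) : P.mulH (g + h) w = P.mulH g w + P.mulH h w := by
  induction w using UniformSpace.Completion.induction_on with
  | hp => exact isClosed_eq (by fun_prop) (by fun_prop)
  | ih a =>
    rw [mulH_coe, mulH_coe, mulH_coe, add_mul, map_add, UniformSpace.Completion.coe_add]

lemma mulH_smul (c : ℂ) (g : ℝ →ᵇ ℂ) (w : P.Hil) : P.mulH (c • g) w = c • P.mulH g w := by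
  induction w using UniformSpace.Completion.induction_on with
  | hp => exact isClosed_eq (P.mulH (c • g)).continuous ((c • P.mulH g).continuous)
  | ih a =>
    rw [mulH_coe, mulH_coe, smul_mul_assoc, map_smul, UniformSpace.Completion.coe_smul]

lemma mulH_mul (g h : ℝ →ᵇ ℂ) (w : P.Hil) : P.mulH (g * h) w = P.mulH g (P.mulH h w) := by
  induction w using UniformSpace.Completion.induction_on with
  | hp => exact isClosed_eq (by fun_prop) (by fun_prop)
  | ih a =>
    rw [mulH_coe, mulH_coe, mulH_coe, ofPre_toPre, mul_assoc]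

lemma mulH_one (w : P.Hil) : P.mulH 1 w = w := by
  induction w using UniformSpace.Completion.induction_on with
  | hp => exact isClosed_eq (by fun_prop) (by fun_prop)
  | ih a =>
    rw [mulH_coe, one_mul, toPre_ofPre]

lemma isRep_rep : IsRep P.rep where
  zero w := by rw [rep_apply, eB_zero, mulH_one]
  add x y w := by rw [rep_apply, rep_apply, rep_apply, eB_add, mulH_mul]

lemma mulH_ap (h : ℝ →₀ ℂ) (w : P.Hil) :
    P.mulH (ap h) w = h.sum fun x a => a • P.rep x w := by
  induction h using Finsupp.induction_linear with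
  | zero =>
    have : P.mulH (0 : ℝ →ᵇ ℂ) w = 0 := by
      have := P.mulH_smul 0 0 w
      simpa using this
    simpa using this
  | add g h hg hh =>
    rw [map_add, mulH_add, hg, hh, Finsupp.sum_add_index']
    · intro x; simp
    · intro x a b; rw [add_smul]
  | single x a =>
    rw [Finsupp.sum_single_index (by simp)]
    rw [ap, Finsupp.linearCombination_single, mulH_smul, rep_apply]

end PosFun

end Pool.Agent.Helper34.Krein
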