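import Pool.Agent.Helper34.Bmoa2

set_option autoImplicit false

open MeasureTheory Filter Topology Set Complex
open scoped Interval ENNReal

namespace Pool.Agent.Helper34.Sing

open Pool.Agent.Helper34.Bmoa

/-- the Herglotz kernel -/
noncomputable def kr (z : ℂ) (t : ℝ) : ℂ :=
  (Complex.exp ((t : ℂ) * Complex.I) + z) / (Complex.exp ((t : ℂ) * Complex.I) - z)

/-- the Herglotz integral of a measure -/
noncomputable def KK (μ : Measure ℝ) (z : ℂ) : ℂ := ∫ t, kr z t ∂μ

/-- the singular inner function -/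
noncomputable def SS (μ : Measure ℝ) (z : ℂ) : ℂ := Complex.exp (-KK μ z)

lemma norm_exp_I (t : ℝ) : ‖Complex.exp ((t : ℂ) * Complex.I)‖ = 1 := Complex.norm_exp_ofReal_mul_I t

lemma denom_ge {z : ℂ} (t : ℝ) : 1 - ‖z‖ ≤ ‖Complex.exp ((t : ℂ) * Complex.I) - z‖ := by
  have := norm_sub_norm_le (Complex.exp ((t : ℂ) * Complex.I)) z
  rwa [norm_exp_I] at this

lemma denom_ne {z : ℂ} (hz : ‖z‖ < 1) (t : ℝ) : Complex.exp ((t : ℂ) * Complex.I) - z ≠ 0 := by
  intro h
  have := denom_ge (z := z) t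
  rw [h, norm_zero] at this
  linarith

lemma norm_kr_le {z : ℂ} (hz : ‖z‖ < 1) (t : ℝ) : ‖kr z t‖ ≤ 2 / (1 - ‖z‖) := by
  rw [kr, norm_div]
  have h1 : ‖Complex.exp ((t : ℂ) * Complex.I) + z‖ ≤ 2 := by
    refine (norm_add_le _ _).trans ?_
    rw [norm_exp_I]
    linarith
  have h2 := denom_ge (z := z) t
  have h3 : 0 < 1 - ‖z‖ := by linarith
  gcongr

lemma continuous_expI : Continuous fun t : ℝ => Complex.exp ((t : ℂ) * Complex.I) := by
  fun_prop

lemma continuous_kr {z : ℂ} (hz : ‖z‖ < 1) : Continuous (kr z) := by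
  unfold kr
  exact (continuous_expI.add continuous_const).div (continuous_expI.sub continuous_const)
    (fun t => denom_ne hz t)

lemma measurable_kr (z : ℂ) : Measurable (kr z) := by
  unfold kr
  exact (continuous_expI.measurable.add_const z).div (continuous_expI.measurable.sub_const z)

lemma integrable_kr (μ : Measure ℝ) [IsFiniteMeasure μ] {z : ℂ} (hz : ‖z‖ < 1) :
    Integrable (kr z) μ :=
  Integrable.of_bound (measurable_kr z).aestronglyMeasurable (2 / (1 - ‖z‖))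
    (Eventually.of_forall fun t => norm_kr_le hz t)

lemma re_kr_nonneg {z : ℂ} (hz : ‖z‖ < 1) (t : ℝ) : 0 ≤ (kr z t).re := by
  rw [kr, Complex.div_re]
  have h1 : (Complex.exp ((t : ℂ) * Complex.I) + z).re *
      (Complex.exp ((t : ℂ) * Complex.I) - z).re / Complex.normSq
        (Complex.exp ((t : ℂ) * Complex.I) - z) +
      (Complex.exp ((t : ℂ) * Complex.I) + z).im * (Complex.exp ((t : ℂ) * Complex.I) - z).im /
        Complex.normSq (Complex.exp ((t : ℂ) * Complex.I) - z) =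
      (1 - ‖z‖ ^ 2) / Complex.normSq (Complex.exp ((t : ℂ) * Complex.I) - z) := by
    rw [← add_div]
    congr 1
    have h2 := Complex.normSq_eq_norm_sq z
    rw [Complex.normSq_apply] at h2
    simp only [Complex.add_re, Complex.sub_re, Complex.add_im, Complex.sub_im,
      Complex.exp_ofReal_mul_I_re, Complex.exp_ofReal_mul_I_im]
    nlinarith [Real.sin_sq_add_cos_sq t]
  rw [h1]
  apply div_nonneg _ (Complex.normSq_nonneg _)
  nlinarith [norm_nonneg z]

lemma re_KK_nonneg (μ : Measure ℝ) [IsFiniteMeasure μ] {z : ℂ} (hz : ‖z‖ < 1) :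
    0 ≤ (KK μ z).re := by
  have h1 : (KK μ z).re = ∫ t, (kr z t).re ∂μ := by
    have := Complex.reCLM.integral_comp_comm (integrable_kr μ hz)
    simp only [Complex.reCLM_apply] at this
    rw [KK, this]
  rw [h1]
  exact integral_nonneg fun t => re_kr_nonneg hz t

lemma norm_SS_le_one (μ : Measure ℝ) [IsFiniteMeasure μ] {z : ℂ} (hz : ‖z‖ < 1) :
    ‖SS μ z‖ ≤ 1 := by
  rw [SS, Complex.norm_exp, Complex.neg_re, Real.exp_le_one_iff]
  have := re_KK_nonneg μ hz
  linarith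

lemma KK_add (μ ν : Measure ℝ) [IsFiniteMeasure μ] [IsFiniteMeasure ν] {z : ℂ} (hz : ‖z‖ < 1) :
    KK (μ + ν) z = KK μ z + KK ν z :=
  integral_add_measure (integrable_kr μ hz) (integrable_kr ν hz)

lemma SS_add (μ ν : Measure ℝ) [IsFiniteMeasure μ] [IsFiniteMeasure ν] {z : ℂ} (hz : ‖z‖ < 1) :
    SS (μ + ν) z = SS μ z * SS ν z := by
  rw [SS, KK_add μ ν hz, SS, SS, ← Complex.exp_add]
  congr 1
  ring

/-! ### analyticity -/

lemma hasDerivAt_kr {z : ℂ} {t : ℝ} (h : Complex.exp ((t : ℂ) * Complex.I) - z ≠ 0) :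
    HasDerivAt (fun z => kr z t)
      (2 * Complex.exp ((t : ℂ) * Complex.I) / (Complex.exp ((t : ℂ) * Complex.I) - z) ^ 2) z := by
  unfold kr
  have h1 : HasDerivAt (fun z : ℂ => Complex.exp ((t : ℂ) * Complex.I) + z) 1 z :=
    (hasDerivAt_id z).const_add _
  have h2 : HasDerivAt (fun z : ℂ => Complex.exp ((t : ℂ) * Complex.I) - z) (-1) z :=
    (hasDerivAt_id z).const_sub _
  refine (h1.div h2 h).congr_deriv ?_
  field_simp
  ring

lemma differentiableAt_KK (μ : Measure ℝ) [IsFiniteMeasure μ] {z₀ : ℂ} (hz₀ : ‖z₀‖ < 1) :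
    DifferentiableAt ℂ (KK μ) z₀ := by
  set r : ℝ := (1 - ‖z₀‖) / 2 with hr
  have hrpos : 0 < r := by rw [hr]; linarith
  have hball : ∀ z ∈ Metric.ball z₀ r, ‖z‖ < 1 ∧ r ≤ 1 - ‖z‖ := by
    intro z hz
    rw [Metric.mem_ball, dist_eq_norm] at hz
    have : ‖z‖ ≤ ‖z₀‖ + ‖z - z₀‖ := by
      have := norm_add_le z₀ (z - z₀)
      rwa [add_sub_cancel] at this
    constructor <;> linarith
  have h := hasDerivAt_integral_of_dominated_loc_of_deriv_le (μ := μ) (F := fun z t => kr z t)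
    (F' := fun z t => 2 * Complex.exp ((t : ℂ) * Complex.I) /
      (Complex.exp ((t : ℂ) * Complex.I) - z) ^ 2) (x₀ := z₀) (s := Metric.ball z₀ r)
    (bound := fun _ => 2 / r ^ 2) (Metric.ball_mem_nhds z₀ hrpos)
    (Eventually.of_forall fun z => (measurable_kr z).aestronglyMeasurable)
    (integrable_kr μ hz₀) ?_ ?_ (integrable_const _) ?_
  · exact h.2.differentiableAt
  · apply Measurable.aestronglyMeasurable
    exact (continuous_expI.measurable.const_mul 2).div
      ((continuous_expI.measurable.sub_const z₀).pow_const 2)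
  · refine Eventually.of_forall fun t z hz => ?_
    obtain ⟨h1, h2⟩ := hball z hz
    rw [norm_div, norm_mul, norm_exp_I, norm_pow]
    have h3 := denom_ge (z := z) t
    have h4 : r ≤ ‖Complex.exp ((t : ℂ) * Complex.I) - z‖ := h2.trans h3
    simp only [Complex.norm_ofNat, mul_one]
    gcongr
  · refine Eventually.of_forall fun t z hz => ?_
    exact hasDerivAt_kr (denom_ne (hball z hz).1 t)

lemma differentiableOn_SS (μ : Measure ℝ) [IsFiniteMeasure μ] :
    DifferentiableOn ℂ (SS μ) (Metric.ball 0 1) := by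
  intro z hz
  rw [Metric.mem_ball, dist_zero_right] at hz
  exact ((differentiableAt_KK μ hz).neg.cexp).differentiableWithinAt

/-! ### boundary values -/

/-- half-angle cotangent -/
noncomputable def cc (u : ℝ) : ℝ := Real.cos (u / 2) / Real.sin (u / 2)

lemma cb_eq (θ : ℝ) : cb θ = Complex.exp ((θ : ℂ) * Complex.I) := by
  rw [cb, circleMap_zero, Complex.ofReal_one, one_mul]

lemma kr_cb (θ t : ℝ) : kr (cb θ) t = Complex.I * (cc (θ - t) : ℂ) := by
  rw [kr, cb_eq, cc]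
  have e1 : Complex.exp ((t : ℂ) * Complex.I) = Complex.exp (((t + θ) / 2 : ℝ) * Complex.I) *
      Complex.exp (-(((θ - t) / 2 : ℝ) * Complex.I)) := by
    rw [← Complex.exp_add]
    congr 1
    push_cast
    ring
  have e2 : Complex.exp ((θ : ℂ) * Complex.I) = Complex.exp (((t + θ) / 2 : ℝ) * Complex.I) *
      Complex.exp (((θ - t) / 2 : ℝ) * Complex.I) := by
    rw [← Complex.exp_add]
    congr 1
    push_cast
    ring
  have e3 : Complex.exp (-(((θ - t) / 2 : ℝ) * Complex.I)) =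
      (Real.cos ((θ - t) / 2) : ℂ) - Real.sin ((θ - t) / 2) * Complex.I := by
    have : -(((θ - t) / 2 : ℝ) * Complex.I) = ((-((θ - t) / 2) : ℝ) : ℂ) * Complex.I := by
      push_cast
      ring
    rw [this, Complex.exp_mul_I, ← Complex.ofReal_cos, ← Complex.ofReal_sin, Real.cos_neg,
      Real.sin_neg]
    push_cast
    ring
  have e4 : Complex.exp (((θ - t) / 2 : ℝ) * Complex.I) =
      (Real.cos ((θ - t) / 2) : ℂ) + Real.sin ((θ - t) / 2) * Complex.I := by
    rw [Complex.exp_mul_I, ← Complex.ofReal_cos, ← Complex.ofReal_sin]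
  rw [e1, e2, e3, e4, ← mul_add, ← mul_sub]
  rw [mul_div_mul_left _ _ (Complex.exp_ne_zero _)]
  have e5 : (Real.cos ((θ - t) / 2) : ℂ) - Real.sin ((θ - t) / 2) * Complex.I +
      ((Real.cos ((θ - t) / 2) : ℂ) + Real.sin ((θ - t) / 2) * Complex.I) =
      2 * Real.cos ((θ - t) / 2) := by ring
  have e6 : (Real.cos ((θ - t) / 2) : ℂ) - Real.sin ((θ - t) / 2) * Complex.I -
      ((Real.cos ((θ - t) / 2) : ℂ) + Real.sin ((θ - t) / 2) * Complex.I) =
      -(2 * Complex.I) * Real.sin ((θ - t) / 2) := by ring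
  rw [e5, e6]
  rcases eq_or_ne (Real.sin ((θ - t) / 2)) 0 with h | h
  · rw [h]
    simp
  · have h' : (Real.sin ((θ - t) / 2) : ℂ) ≠ 0 := by exact_mod_cast h
    have hI := Complex.I_ne_zero
    rw [Complex.ofReal_div]
    field_simp
    rw [Complex.I_sq]
    ring

/-- boundary phase -/
noncomputable def YY (μ : Measure ℝ) (θ : ℝ) : ℝ := ∫ t, cc (θ - t) ∂μ

lemma KK_cb (μ : Measure ℝ) (θ : ℝ) : KK μ (cb θ) = Complex.I * (YY μ θ : ℂ) := by
  rw [KK, YY]
  simp_rw [kr_cb]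
  rw [integral_const_mul, integral_complex_ofReal]

lemma norm_SS_cb (μ : Measure ℝ) (θ : ℝ) : ‖SS μ (cb θ)‖ = 1 := by
  rw [SS, KK_cb]
  have : -(Complex.I * (YY μ θ : ℂ)) = ((-YY μ θ : ℝ) : ℂ) * Complex.I := by
    push_cast
    ring
  rw [this, Complex.norm_exp_ofReal_mul_I]

lemma exists_gap {Z : Set ℝ} (hZ : IsCompact Z) {θ : ℝ}
    (hne : ∀ t ∈ Z, Complex.exp ((t : ℂ) * Complex.I) ≠ cb θ) :
    ∃ d : ℝ, 0 < d ∧ ∀ t ∈ Z, d ≤ ‖Complex.exp ((t : ℂ) * Complex.I) - cb θ‖ := by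
  rcases Z.eq_empty_or_nonempty with h | h
  · exact ⟨1, one_pos, by simp [h]⟩
  · obtain ⟨t₀, ht₀, hmin⟩ := hZ.exists_isMinOn h
      ((continuous_expI.sub continuous_const).norm.continuousOn :
        ContinuousOn (fun t : ℝ => ‖Complex.exp ((t : ℂ) * Complex.I) - cb θ‖) Z)
    refine ⟨‖Complex.exp ((t₀ : ℂ) * Complex.I) - cb θ‖, ?_, fun t ht => hmin ht⟩
    exact norm_pos_iff.2 (sub_ne_zero.2 (hne t₀ ht₀))

lemma continuousAt_KK {μ : Measure ℝ} [IsFiniteMeasure μ] {Z : Set ℝ} (hZ : IsCompact Z)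
    (hμ : μ Zᶜ = 0) {θ : ℝ} (hne : ∀ t ∈ Z, Complex.exp ((t : ℂ) * Complex.I) ≠ cb θ) :
    ContinuousAt (KK μ) (cb θ) := by
  obtain ⟨d, hd, hdle⟩ := exists_gap hZ hne
  have hae : ∀ᵐ t ∂μ, t ∈ Z := by
    rw [ae_iff]
    exact hμ
  unfold KK
  refine continuousAt_of_dominated (bound := fun _ => (3 + d / 2) / (d / 2)) ?_ ?_
    (integrable_const _) ?_
  · exact Eventually.of_forall fun z => (measurable_kr z).aestronglyMeasurable
  · have hnb : Metric.ball (cb θ) (d / 2) ∈ 𝓝 (cb θ) := Metric.ball_mem_nhds _ (by linarith)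
    filter_upwards [hnb] with z hz
    filter_upwards [hae] with t ht
    rw [Metric.mem_ball, dist_eq_norm] at hz
    have h1 := hdle t ht
    have h2 : ‖Complex.exp ((t : ℂ) * Complex.I) - cb θ‖ ≤
        ‖Complex.exp ((t : ℂ) * Complex.I) - z‖ + ‖z - cb θ‖ := norm_sub_le_norm_sub_add_norm_sub _ _ _
    have h3 : d / 2 ≤ ‖Complex.exp ((t : ℂ) * Complex.I) - z‖ := by linarith
    have h4 : ‖z‖ ≤ 1 + d / 2 := by
      have := norm_add_le (cb θ) (z - cb θ)
      rw [add_sub_cancel, norm_cb] at this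
      linarith
    have h5 : ‖Complex.exp ((t : ℂ) * Complex.I) + z‖ ≤ 3 + d / 2 := by
      refine (norm_add_le _ _).trans ?_
      rw [norm_exp_I]
      linarith
    rw [kr, norm_div]
    gcongr
  · filter_upwards [hae] with t ht
    have h1 := hne t ht
    exact (hasDerivAt_kr (sub_ne_zero.2 h1)).continuousAt

lemma continuousAt_SS {μ : Measure ℝ} [IsFiniteMeasure μ] {Z : Set ℝ} (hZ : IsCompact Z)
    (hμ : μ Zᶜ = 0) {θ : ℝ} (hne : ∀ t ∈ Z, Complex.exp ((t : ℂ) * Complex.I) ≠ cb θ) :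
    ContinuousAt (SS μ) (cb θ) :=
  Complex.continuous_exp.continuousAt.comp (continuousAt_KK hZ hμ hne).neg

lemma exp_ne_cb {t θ : ℝ} (ht : t ∈ Ioo 0 (2 * Real.pi)) (hθ : θ ∈ Ico 0 (2 * Real.pi))
    (hne : t ≠ θ) : Complex.exp ((t : ℂ) * Complex.I) ≠ cb θ := by
  intro h
  rw [cb_eq, Complex.exp_eq_exp_iff_exists_int] at h
  obtain ⟨k, hk⟩ := h
  have h3 : (t : ℂ) = ((θ + k * (2 * Real.pi) : ℝ) : ℂ) := by
    have h4 : (t : ℂ) * Complex.I = (((θ + k * (2 * Real.pi) : ℝ) : ℂ)) * Complex.I := by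
      rw [hk]
      push_cast
      ring
    exact mul_right_cancel₀ Complex.I_ne_zero h4
  have h5 : t = θ + k * (2 * Real.pi) := by exact_mod_cast h3
  have hpi := Real.pi_pos
  have h6 : (k : ℝ) < 1 := by
    by_contra hneg
    push Not at hneg
    have : 2 * Real.pi ≤ t := by rw [h5]; nlinarith [hθ.1]
    linarith [ht.2]
  have h7 : (-1 : ℝ) < k := by
    by_contra hneg
    push Not at hneg
    have : t < 0 := by rw [h5]; nlinarith [hθ.2]
    linarith [ht.1]
  have a1 : k < (1 : ℤ) := by exact_mod_cast h6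
  have a2 : (-1 : ℤ) < k := by exact_mod_cast h7
  have h8 : k = 0 := by omega
  rw [h8] at h5
  apply hne
  simpa using h5

end Pool.Agent.Helper34.Sing
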