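import Pool.Agent.Helper34.Sing9

set_option autoImplicit false

open MeasureTheory Filter Topology Set Complex
open scoped Interval ENNReal Pointwise

namespace Pool.Agent.Helper34.Sing

open Pool.Agent.Helper34.Bmoa

section iter

variable {σ : Measure ℝ} [IsProbabilityMeasure σ] {C₀ : Set ℝ} (hC : IsCompact C₀)
  (hC1 : C₀ ⊆ Icc 0 1) (hC0 : volume C₀ = 0) (hσ : σ C₀ᶜ = 0)

include hC hC1 hC0 hσ in
/-- the initial state -/
lemma initial {x : ℝ} {c : ℝ≥0∞} (hc : c ≠ ⊤) {ρ e₀ : ℝ} (hρ : 0 < ρ)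
    (hA : 0 < x - ρ) (hB : x + ρ < 2 * Real.pi) (he₀ : 0 < e₀) :
    ∃ t : ℝ, 0 < t ∧ ∃ Z : Set ℝ, Inv (x - ρ) (x + ρ) e₀ (c • Measure.dirac x)
      (c • cellm σ x t) Z (Ioo (x - ρ) (x + ρ)) := by
  have hpi := Real.pi_pos
  have hpi2 := pi_sq_le
  set d : ℝ := min (ρ / 2) (min (x - ρ) (2 * Real.pi - (x + ρ))) with hd
  have hdpos : 0 < d := lt_min (by linarith) (lt_min hA (by linarith))
  have hcr : 0 ≤ c.toReal := ENNReal.toReal_nonneg
  set t : ℝ := min (ρ / 2) (e₀ * d ^ 2 / (5 * (c.toReal + 1))) with ht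
  have htpos : 0 < t := lt_min (by linarith) (by positivity)
  have ht1 : t ≤ ρ / 2 := min_le_left _ _
  have ht2 : t ≤ e₀ * d ^ 2 / (5 * (c.toReal + 1)) := min_le_right _ _
  refine ⟨t, htpos, {x} ∪ (fun s : ℝ => x + t / 2 + s * (t / 4)) '' C₀, ?_⟩
  set S : Set ℝ := (fun s : ℝ => x + t / 2 + s * (t / 4)) '' C₀ with hS
  have hSc : IsCompact S := hC.image (by fun_prop)
  have hSsub : S ⊆ Icc x (x + t) := by
    rintro _ ⟨s, hs, rfl⟩
    have a1 := (hC1 hs).1
    have a2 := (hC1 hs).2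
    simp only
    constructor <;> nlinarith
  have hS0 : volume S = 0 := by
    have h5 : S = (fun y : ℝ => (x + t / 2) + y) '' ((t / 4) • C₀) := by
      rw [hS, ← image_smul, image_image]
      congr 1
      funext s
      rw [smul_eq_mul]
      ring
    rw [h5, image_add_left, measure_preimage_add, Measure.addHaar_smul, hC0, mul_zero]
  have hx : x ∈ Ioo 0 (2 * Real.pi) := ⟨by linarith, by linarith⟩
  have hZc : IsCompact ({x} ∪ S) := isCompact_singleton.union hSc
  have hZs : {x} ∪ S ⊆ Ioo 0 (2 * Real.pi) := by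
    refine union_subset (singleton_subset_iff.2 hx) ?_
    intro y hy
    have := hSsub hy
    exact ⟨by linarith [this.1], by linarith [this.2]⟩
  have hfin1 : IsFiniteMeasure (c • Measure.dirac x) := by
    refine ⟨?_⟩
    simp [hc.lt_top]
  have hfin2 : IsFiniteMeasure (c • cellm σ x t) := by
    refine ⟨?_⟩
    simp [hc.lt_top]
  have hcell : cellm σ x t ({x} ∪ S)ᶜ = 0 :=
    measure_mono_null (compl_subset_compl.2 subset_union_right) (cellm_supp hC hσ x t)
  refine ⟨hfin1, hfin2, hZc, hZs, measure_union_null (measure_singleton _) hS0, ?_, ?_, isOpen_Ioo,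
    Ioo_subset_Icc_self, ?_⟩
  · rw [Measure.smul_apply, Measure.dirac_apply' _ hZc.isClosed.measurableSet.compl]
    simp
  · rw [Measure.smul_apply, hcell, smul_zero]
  · intro θ hθ hθZ hθU
    refine ⟨0, ?_⟩
    have h1 : YY (c • Measure.dirac x) θ = c.toReal * cc (θ - x) := by
      rw [YY, integral_smul_measure, integral_dirac, smul_eq_mul]
    have h2 : YY (c • cellm σ x t) θ = c.toReal * YY (cellm σ x t) θ := by
      rw [YY, integral_smul_measure, smul_eq_mul]
      rfl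
    have hfar : ρ ≤ |θ - x| := by
      by_contra hcon
      push Not at hcon
      rw [abs_lt] at hcon
      exact hθU ⟨by linarith [hcon.1], by linarith [hcon.2]⟩
    have hgen : ∀ y ∈ Icc x (x + t), d / Real.pi ≤ |Real.sin ((θ - y) / 2)| := by
      intro y hy
      have b4 : |θ - x| ≤ |θ - y| + |y - x| := abs_sub_le _ _ _
      have b5 : |y - x| ≤ t := by
        rw [abs_of_nonneg (by linarith [hy.1])]
        linarith [hy.2]
      have b6 : ρ / 2 ≤ |θ - y| := by linarith
      have b7 : |θ - y| ≤ 2 * Real.pi - min (x - ρ) (2 * Real.pi - (x + ρ)) := by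
        have c1 := min_le_left (x - ρ) (2 * Real.pi - (x + ρ))
        have c2 := min_le_right (x - ρ) (2 * Real.pi - (x + ρ))
        rw [abs_le]
        constructor <;> linarith [hy.1, hy.2, hθ.1, hθ.2]
      apply sin_lower _ _ hdpos.le
      · exact (min_le_left _ _).trans b6
      · have := min_le_right (ρ / 2) (min (x - ρ) (2 * Real.pi - (x + ρ)))
        linarith
    have h3 : |cc (θ - x) - YY (cellm σ x t) θ| ≤ t / 2 / (d / Real.pi * (d / Real.pi)) := by
      apply abs_dipole_le (S := Icc x (x + t)) _ (by positivity) (by positivity)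
        (hgen x ⟨le_rfl, by linarith⟩) hgen
      · intro y hy
        rw [abs_of_nonneg (by linarith [hy.1])]
        linarith [hy.2]
      · exact measure_mono_null (compl_subset_compl.2 hSsub) (cellm_supp hC hσ x t)
    have h4 : t / 2 / (d / Real.pi * (d / Real.pi)) = Real.pi ^ 2 / 2 * t / d ^ 2 := by
      field_simp
    have h5 : Real.pi ^ 2 / 2 * t / d ^ 2 ≤ 5 * t / d ^ 2 := by
      gcongr
      linarith
    have h6 : 5 * t / d ^ 2 ≤ e₀ / (c.toReal + 1) := by
      rw [div_le_div_iff₀ (by positivity) (by positivity)]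
      rw [le_div_iff₀ (by positivity)] at ht2
      linarith
    have h7 : |cc (θ - x) - YY (cellm σ x t) θ| ≤ e₀ / (c.toReal + 1) := by
      linarith [h3, h4, h5, h6]
    rw [h1, h2, Int.cast_zero, mul_zero, sub_zero, ← mul_sub, abs_mul, abs_of_nonneg hcr]
    calc c.toReal * |cc (θ - x) - YY (cellm σ x t) θ| ≤ c.toReal * (e₀ / (c.toReal + 1)) := by
          gcongr
      _ ≤ (c.toReal + 1) * (e₀ / (c.toReal + 1)) := by
          gcongr
          linarith
      _ = e₀ := by field_simp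

/-- the states with their invariant -/
def St (A B : ℝ) (e : ℝ) : Type :=
  {s : Measure ℝ × Measure ℝ × Set ℝ × Set ℝ // Inv A B e s.1 s.2.1 s.2.2.1 s.2.2.2}

/-- thresholds -/
noncomputable def ek (e₀ : ℝ) (k : ℕ) : ℝ := e₀ * (2 - (1 / 2) ^ k)

lemma ek_ge {e₀ : ℝ} (he₀ : 0 < e₀) (k : ℕ) : e₀ ≤ ek e₀ k := by
  have : (1 / 2 : ℝ) ^ k ≤ 1 := pow_le_one₀ (by norm_num) (by norm_num)
  unfold ek
  nlinarith

lemma ek_lt {e₀ : ℝ} (he₀ : 0 < e₀) (k : ℕ) : ek e₀ k < ek e₀ (k + 1) := by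
  have h : (0 : ℝ) < (1 / 2) ^ k := by positivity
  unfold ek
  rw [pow_succ]
  nlinarith

lemma ek_le {e₀ : ℝ} (he₀ : 0 < e₀) (k : ℕ) : ek e₀ k ≤ 2 * e₀ := by
  have h : (0 : ℝ) < (1 / 2) ^ k := by positivity
  unfold ek
  nlinarith

include hC hC1 hC0 hσ in
lemma step' (hσa : ∀ x, σ {x} = 0) {A B : ℝ} (hA : 0 < A) (hB : B < 2 * Real.pi)
    (hAB : B - A ≤ Real.pi) {e₀ : ℝ} (he₀ : 0 < e₀) (he₀1 : e₀ ≤ 1) (k : ℕ)
    (s : St A B (ek e₀ k)) :
    ∃ (α β : Measure ℝ) (s' : St A B (ek e₀ (k + 1))), s'.1.1 = s.1.1 + α ∧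
      s'.1.2.1 = s.1.2.1 + β ∧ Disc α ∧ (∀ x, β {x} = 0) ∧ β s'.1.2.2.1ᶜ = 0 ∧
      α univ = β univ ∧ α univ ≤ volume s.1.2.2.2 ∧
      volume s'.1.2.2.2 ≤ ENNReal.ofReal (1 - e₀ / 32000000) * volume s.1.2.2.2 := by
  obtain ⟨α, β, Z', U', h1, h2, h3, h4, h5, h6, h7⟩ :=
    step hC hC1 hC0 hσ hσa hA hB hAB he₀ he₀1 (ek_ge he₀ k) (ek_lt he₀ k) s.2
  exact ⟨α, β, ⟨(s.1.1 + α, s.1.2.1 + β, Z', U'), h1⟩, rfl, rfl, h2, h3, h4, h5, h6, h7⟩

end iter

/-- The local lemma. -/
theorem L1_holds : L1 := by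
  intro x hx c hc ε hε η hη
  obtain ⟨σ, C₀, hσp, hC0c, hC1, hC0, hσ, hσa⟩ := exists_sigma
  have hC : IsCompact C₀ := isCompact_Icc.of_isClosed_subset hC0c hC1
  have hpi := Real.pi_pos
  set e₀ : ℝ := min (ε / 2) 1 with he₀def
  have he₀ : 0 < e₀ := lt_min (by linarith) one_pos
  have he₀1 : e₀ ≤ 1 := min_le_right _ _
  have he₀ε : 2 * e₀ ≤ ε := by
    have := min_le_left (ε / 2) 1
    linarith
  set p : ℝ := e₀ / 32000000 with hp
  have hp0 : 0 < p := by positivity
  have hp1 : p ≤ 1 / 2 := by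
    rw [hp]
    linarith
  set ρ : ℝ := min (min (x / 2) ((2 * Real.pi - x) / 2)) (min (Real.pi / 2) (η * p / 2)) with hρ
  have hx2 : 0 < 2 * Real.pi - x := by linarith [hx.2]
  have hρ0 : 0 < ρ := lt_min (lt_min (by linarith [hx.1]) (by linarith))
    (lt_min (by linarith) (by positivity))
  have hρ1 : ρ ≤ x / 2 := (min_le_left _ _).trans (min_le_left _ _)
  have hρ2 : ρ ≤ (2 * Real.pi - x) / 2 := (min_le_left _ _).trans (min_le_right _ _)
  have hρ3 : ρ ≤ Real.pi / 2 := (min_le_right _ _).trans (min_le_left _ _)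
  have hρ4 : ρ ≤ η * p / 2 := (min_le_right _ _).trans (min_le_right _ _)
  have hA : 0 < x - ρ := by linarith [hx.1]
  have hB : x + ρ < 2 * Real.pi := by linarith
  have hAB : x + ρ - (x - ρ) ≤ Real.pi := by linarith
  obtain ⟨t, ht, Z₀, hInv⟩ := initial hC hC1 hC0 hσ hc hρ0 hA hB he₀
  have hek0 : ek e₀ 0 = e₀ := by
    simp [ek]
    ring
  rw [← hek0] at hInv
  -- the sequence of states
  choose al be nx h1 h2 h3 h4 h5 h6 h7 h8 using
    fun (k : ℕ) (s : St (x - ρ) (x + ρ) (ek e₀ k)) =>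
      step' hC hC1 hC0 hσ hσa hA hB hAB he₀ he₀1 k s
  let f : (k : ℕ) → St (x - ρ) (x + ρ) (ek e₀ k) := fun k =>
    Nat.rec ⟨(c • Measure.dirac x, c • cellm σ x t, Z₀, Ioo (x - ρ) (x + ρ)), hInv⟩
      (fun k s => nx k s) k
  have hf0 : f 0 = ⟨(c • Measure.dirac x, c • cellm σ x t, Z₀, Ioo (x - ρ) (x + ρ)), hInv⟩ := rfl
  have hfs : ∀ k, f (k + 1) = nx k (f k) := fun k => rfl
  set α : ℕ → Measure ℝ := fun k => al k (f k) with hα
  set β : ℕ → Measure ℝ := fun k => be k (f k) with hβ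
  -- volumes
  have hU0 : volume (f 0).1.2.2.2 = ENNReal.ofReal (2 * ρ) := by
    rw [hf0]
    simp only
    rw [Real.volume_Ioo]
    congr 1
    ring
  have hvol : ∀ k, volume (f k).1.2.2.2 ≤ ENNReal.ofReal ((1 - p) ^ k * (2 * ρ)) := by
    intro k
    induction k with
    | zero => rw [hU0, pow_zero, one_mul]
    | succ k ih =>
      rw [hfs]
      refine (h8 k (f k)).trans ?_
      rw [pow_succ, mul_comm ((1 - p) ^ k) (1 - p), mul_assoc,
        ENNReal.ofReal_mul (by linarith : (0 : ℝ) ≤ 1 - p)]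
      gcongr
  have hsumgeo : HasSum (fun k : ℕ => (1 - p) ^ k * (2 * ρ)) (p⁻¹ * (2 * ρ)) := by
    have := (hasSum_geometric_of_lt_one (r := 1 - p) (by linarith) (by linarith)).mul_right (2 * ρ)
    rwa [sub_sub_cancel] at this
  have hαuniv : Measure.sum α univ ≤ ENNReal.ofReal η := by
    rw [Measure.sum_apply _ MeasurableSet.univ]
    have g1 : ∀ k, α k univ ≤ ENNReal.ofReal ((1 - p) ^ k * (2 * ρ)) := fun k =>
      (h7 k (f k)).trans (hvol k)
    refine (ENNReal.tsum_le_tsum g1).trans ?_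
    have g2 : ∀ k : ℕ, 0 ≤ (1 - p) ^ k * (2 * ρ) := fun k => by
      have : 0 ≤ 1 - p := by linarith
      positivity
    rw [← ENNReal.ofReal_tsum_of_nonneg g2 hsumgeo.summable, hsumgeo.tsum_eq]
    apply ENNReal.ofReal_le_ofReal
    calc p⁻¹ * (2 * ρ) ≤ p⁻¹ * (2 * (η * p / 2)) := by gcongr
      _ = η := by field_simp
  have hαβ : ∀ k, α k univ = β k univ := fun k => h6 k (f k)
  have hβuniv : Measure.sum β univ = Measure.sum α univ := by
    rw [Measure.sum_apply _ MeasurableSet.univ, Measure.sum_apply _ MeasurableSet.univ]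
    simp_rw [hαβ]
  have hαfin : IsFiniteMeasure (Measure.sum α) :=
    ⟨lt_of_le_of_lt hαuniv ENNReal.ofReal_lt_top⟩
  have hβfin : IsFiniteMeasure (Measure.sum β) :=
    ⟨by rw [hβuniv]; exact measure_lt_top _ _⟩
  have hInvk : ∀ k, Inv (x - ρ) (x + ρ) (ek e₀ k) (f k).1.1 (f k).1.2.1 (f k).1.2.2.1
      (f k).1.2.2.2 := fun k => (f k).2
  have hμ0fin : IsFiniteMeasure (c • Measure.dirac x) := (hInvk 0).fμ
  have hν0fin : IsFiniteMeasure (c • cellm σ x t) := (hInvk 0).fν
  refine ⟨Measure.sum α, Disc.sum fun k => h3 k (f k), hαuniv, c • cellm σ x t + Measure.sum β,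
    ?_, ?_, ?_, ?_, ?_⟩
  · rw [Measure.add_apply, Measure.sum_apply _ measurableSet_Ioo.compl]
    have g1 : (c • cellm σ x t) (Ioo 0 (2 * Real.pi))ᶜ = 0 :=
      measure_mono_null (compl_subset_compl.2 (hInvk 0).hZs) (hInvk 0).hν
    have g2 : ∀ k, β k (Ioo 0 (2 * Real.pi))ᶜ = 0 := fun k =>
      measure_mono_null (compl_subset_compl.2 (hInvk (k + 1)).hZs) (h5 k (f k))
    rw [g1]
    simp [g2]
  · have g0 : ∀ (m : Measure ℝ) (Z : Set ℝ), IsCompact Z → volume Z = 0 → m Zᶜ = 0 →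
        m ⟂ₘ volume := by
      intro m Z hZ hZ0 hm
      refine ⟨Zᶜ, hZ.isClosed.measurableSet.compl, hm, ?_⟩
      rwa [compl_compl]
    apply Measure.MutuallySingular.add_left
    · exact g0 _ _ (hInvk 0).hZ (hInvk 0).hZ0 (hInvk 0).hν
    · apply Measure.MutuallySingular.sum_left.2
      intro k
      exact g0 _ _ (hInvk (k + 1)).hZ (hInvk (k + 1)).hZ0 (h5 k (f k))
  · intro y
    rw [Measure.add_apply, Measure.smul_apply, cellm_noatom hσa ht, smul_zero, zero_add,
      Measure.sum_apply _ (measurableSet_singleton y)]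
    have g2 : ∀ k, β k {y} = 0 := fun k => h4 k (f k) y
    simp [g2]
  · rw [Measure.add_apply, Measure.add_apply, hβuniv]
    simp
  · intro z hz
    -- convergence of the partial sums
    have hlimμ : Tendsto (fun k => SS (f k).1.1 z) atTop
        (𝓝 (SS (c • Measure.dirac x + Measure.sum α) z)) := by
      have g1 : ∀ k, KK (f k).1.1 z = KK (c • Measure.dirac x) z +
          ∑ i ∈ Finset.range k, KK (α i) z := by
        intro k
        induction k with
        | zero => rw [hf0]; simp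
        | succ k ih =>
          have := (hInvk k).fμ
          have := isFinite_of_sum α k
          rw [hfs, h1 k (f k), KK_add _ _ hz, ih, Finset.sum_range_succ]
          ring
      have g2 := (hasSum_KK α hz).tendsto_sum_nat
      have g3 : Tendsto (fun k => KK (f k).1.1 z) atTop
          (𝓝 (KK (c • Measure.dirac x + Measure.sum α) z)) := by
        rw [KK_add _ _ hz]
        simp_rw [g1]
        exact g2.const_add _
      exact (Complex.continuous_exp.tendsto _).comp g3.neg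
    have hlimν : Tendsto (fun k => SS (f k).1.2.1 z) atTop
        (𝓝 (SS (c • cellm σ x t + Measure.sum β) z)) := by
      have g1 : ∀ k, KK (f k).1.2.1 z = KK (c • cellm σ x t) z +
          ∑ i ∈ Finset.range k, KK (β i) z := by
        intro k
        induction k with
        | zero => rw [hf0]; simp
        | succ k ih =>
          have := (hInvk k).fν
          have := isFinite_of_sum β k
          rw [hfs, h2 k (f k), KK_add _ _ hz, ih, Finset.sum_range_succ]
          ring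
      have g2 := (hasSum_KK β hz).tendsto_sum_nat
      have g3 : Tendsto (fun k => KK (f k).1.2.1 z) atTop
          (𝓝 (KK (c • cellm σ x t + Measure.sum β) z)) := by
        rw [KK_add _ _ hz]
        simp_rw [g1]
        exact g2.const_add _
      exact (Complex.continuous_exp.tendsto _).comp g3.neg
    set C : ℝ := 2 * ((1 + ‖z‖) / (1 - ‖z‖)) with hCdef
    have hCpos : 0 ≤ C := by
      have : 0 ≤ (1 + ‖z‖) / (1 - ‖z‖) := div_nonneg (by linarith [norm_nonneg z]) (by linarith)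
      positivity
    have hbound : ∀ k, ‖SS (f k).1.1 z - SS (f k).1.2.1 z‖ ≤
        2 * e₀ + C * ((1 - p) ^ k * (2 * ρ)) := by
      intro k
      obtain ⟨fμ, fν, hZ, hZs, hZ0, hμ, hν, hU, hUs, hdone⟩ := hInvk k
      have hfin : volume (f k).1.2.2.2 ≠ ⊤ :=
        ne_top_of_le_ne_top ENNReal.ofReal_ne_top (hvol k)
      have g1 := close_of_done hZ hZ0 hZs hμ hν hU.measurableSet hfin
        (he₀.le.trans (ek_ge he₀ k)) hdone hz
      have g2 : (volume (f k).1.2.2.2).toReal ≤ (1 - p) ^ k * (2 * ρ) := by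
        apply ENNReal.toReal_le_of_le_ofReal _ (hvol k)
        have : 0 ≤ 1 - p := by linarith
        positivity
      refine g1.trans ?_
      have g3 := ek_le he₀ k
      have g4 : C * (volume (f k).1.2.2.2).toReal ≤ C * ((1 - p) ^ k * (2 * ρ)) := by gcongr
      linarith
    have hlimb : Tendsto (fun k : ℕ => 2 * e₀ + C * ((1 - p) ^ k * (2 * ρ))) atTop
        (𝓝 (2 * e₀ + C * (0 * (2 * ρ)))) := by
      have g1 : Tendsto (fun k : ℕ => (1 - p) ^ k) atTop (𝓝 0) :=
        tendsto_pow_atTop_nhds_zero_of_lt_one (by linarith) (by linarith)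
      exact ((g1.mul_const _).const_mul _).const_add _
    rw [zero_mul, mul_zero, add_zero] at hlimb
    have hfinal := le_of_tendsto_of_tendsto' ((hlimμ.sub hlimν).norm) hlimb hbound
    exact hfinal.trans he₀ε

end Pool.Agent.Helper34.Sing
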