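import Pool.Agent.Helper34.Sing1

set_option autoImplicit false

open MeasureTheory Filter Topology Set Complex
open scoped Interval ENNReal

namespace Pool.Agent.Helper34.Sing

open Pool.Agent.Helper34.Bmoa

/-- Poisson kernel factor on the circle of radius `rr n` -/
noncomputable def PK (z w : ℂ) : ℝ := ((w + z) / (w - z)).re

lemma PK_eq (z w : ℂ) : (Complex.re ∘ herglotzRieszKernel 0 z) w = PK z w := by
  simp [herglotzRieszKernel_def, PK]

lemma PK_formula (z w : ℂ) : PK z w = (‖w‖ ^ 2 - ‖z‖ ^ 2) / ‖w - z‖ ^ 2 := by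
  have h := congrFun (poissonKernel_eq_re_herglotzRieszKernel (c := 0) (w := z)) w
  rw [PK_eq, poissonKernel_def] at h
  rw [← h]
  simp

lemma PK_nonneg {z w : ℂ} (h : ‖z‖ ≤ ‖w‖) : 0 ≤ PK z w := by
  rw [PK_formula]
  apply div_nonneg _ (by positivity)
  nlinarith [norm_nonneg z, norm_nonneg w]

lemma PK_le {z w : ℂ} (h : ‖z‖ < ‖w‖) : PK z w ≤ (‖w‖ + ‖z‖) / (‖w‖ - ‖z‖) := by
  rw [PK_formula]
  have h1 : ‖w‖ - ‖z‖ ≤ ‖w - z‖ := norm_sub_norm_le _ _
  have h2 : 0 < ‖w‖ - ‖z‖ := by linarith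
  have h0 : 0 < ‖w - z‖ := by linarith
  rw [div_le_div_iff₀ (by positivity) h2]
  have h3 : (‖w‖ - ‖z‖) ^ 2 ≤ ‖w - z‖ ^ 2 := by gcongr
  have h4 := norm_nonneg z
  have h5 := norm_nonneg w
  nlinarith

lemma continuousAt_PK {z w : ℂ} (h : w ≠ z) : ContinuousAt (PK z) w := by
  unfold PK
  refine Complex.continuous_re.continuousAt.comp ?_
  refine ContinuousAt.div (by fun_prop) (by fun_prop) ?_
  exact sub_ne_zero.2 h

lemma poisson_formula {g : ℂ → ℂ} (hg : DifferentiableOn ℂ g (Metric.ball 0 1)) {z : ℂ} {n : ℕ}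
    (hz : ‖z‖ < rr n) :
    g z = (2 * Real.pi)⁻¹ • ∫ θ in (0 : ℝ)..(2 * Real.pi), PK z (cm n θ) • g (cm n θ) := by
  have h1 : DiffContOnCl ℂ g (Metric.ball 0 (rr n)) := by
    apply DifferentiableOn.diffContOnCl
    refine hg.mono ?_
    exact Metric.closure_ball_subset_closedBall.trans (Metric.closedBall_subset_ball (rr_lt_one n))
  have h2 := DiffContOnCl.circleAverage_re_herglotzRieszKernel_smul h1
    (w := z) (by rwa [Metric.mem_ball, dist_zero_right])
  rw [Real.circleAverage_def] at h2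
  rw [← h2]
  congr 1
  congr 1
  funext θ
  rw [Pi.smul_apply', PK_eq]
  rfl

lemma integral_PK {z : ℂ} (hz : ‖z‖ < 1) :
    ∫ θ in (0 : ℝ)..(2 * Real.pi), PK z (cb θ) = 2 * Real.pi := by
  have h1 : DiffContOnCl ℂ (fun _ : ℂ => (1 : ℝ) • (1 : ℂ)) (Metric.ball 0 1) :=
    diffContOnCl_const
  have h2 := DiffContOnCl.circleAverage_re_herglotzRieszKernel_smul h1
    (w := z) (by rwa [Metric.mem_ball, dist_zero_right])
  rw [Real.circleAverage_def] at h2
  have h3 : (∫ θ in (0 : ℝ)..(2 * Real.pi), ((Complex.re ∘ herglotzRieszKernel 0 z) •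
      fun _ : ℂ => (1 : ℝ) • (1 : ℂ)) (circleMap 0 1 θ)) =
      ∫ θ in (0 : ℝ)..(2 * Real.pi), ((PK z (cb θ) : ℝ) : ℂ) := by
    congr 1
    funext θ
    have := PK_eq z (circleMap 0 1 θ)
    simp only [Pi.smul_apply', this, one_smul]
    rw [Complex.real_smul, mul_one]
    rfl
  rw [h3, intervalIntegral.integral_ofReal, one_smul, Complex.real_smul] at h2
  have h4 : (2 * Real.pi)⁻¹ * ∫ θ in (0 : ℝ)..(2 * Real.pi), PK z (cb θ) = 1 := by
    exact_mod_cast h2
  field_simp at h4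
  linarith

lemma norm_exp_diff_le (a b : ℝ) (n : ℤ) :
    ‖Complex.exp (-(Complex.I * (a : ℂ))) - Complex.exp (-(Complex.I * (b : ℂ)))‖ ≤
      |a - b - 2 * Real.pi * n| := by
  have h1 : Complex.exp (-(Complex.I * (a : ℂ))) - Complex.exp (-(Complex.I * (b : ℂ))) =
      Complex.exp (-(Complex.I * (a : ℂ))) *
      -(Complex.exp (Complex.I * ((a - b - 2 * Real.pi * n : ℝ) : ℂ)) - 1) := by
    have h2 : Complex.exp (Complex.I * ((a - b - 2 * Real.pi * n : ℝ) : ℂ)) =
        Complex.exp (Complex.I * (a : ℂ)) * Complex.exp (-(Complex.I * (b : ℂ))) := by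
      rw [← Complex.exp_add, Complex.exp_eq_exp_iff_exists_int]
      refine ⟨-n, ?_⟩
      push_cast
      ring
    rw [h2, neg_sub, mul_sub, mul_one, ← mul_assoc, ← Complex.exp_add]
    simp
  rw [h1, norm_mul, norm_neg]
  have h3 : ‖Complex.exp (-(Complex.I * (a : ℂ)))‖ = 1 := by
    have : -(Complex.I * (a : ℂ)) = ((-a : ℝ) : ℂ) * Complex.I := by
      push_cast
      ring
    rw [this, Complex.norm_exp_ofReal_mul_I]
  rw [h3, one_mul]
  have := Real.norm_exp_I_mul_ofReal_sub_one_le (x := a - b - 2 * Real.pi * n)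
  rwa [Real.norm_eq_abs] at this

/-- Closeness in the disc from closeness of the boundary phases off a small set. -/
lemma close_of_done {μ ν : Measure ℝ} [IsFiniteMeasure μ] [IsFiniteMeasure ν] {Z U : Set ℝ}
    {e : ℝ} (hZ : IsCompact Z) (hZ0 : volume Z = 0) (hZsub : Z ⊆ Ioo 0 (2 * Real.pi))
    (hμ : μ Zᶜ = 0) (hν : ν Zᶜ = 0) (hU : MeasurableSet U) (hUfin : volume U ≠ ⊤) (he : 0 ≤ e)
    (hdone : ∀ θ ∈ Ioo 0 (2 * Real.pi), θ ∉ Z → θ ∉ U →
      ∃ n : ℤ, |YY μ θ - YY ν θ - 2 * Real.pi * n| ≤ e)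
    {z : ℂ} (hz : ‖z‖ < 1) :
    ‖SS μ z - SS ν z‖ ≤ e + 2 * ((1 + ‖z‖) / (1 - ‖z‖)) * (volume U).toReal := by
  set g : ℂ → ℂ := fun w => SS μ w - SS ν w with hg
  have hgd : DifferentiableOn ℂ g (Metric.ball 0 1) :=
    (differentiableOn_SS μ).sub (differentiableOn_SS ν)
  have hg2 : ∀ w : ℂ, ‖w‖ < 1 → ‖g w‖ ≤ 2 := by
    intro w hw
    refine (norm_sub_le _ _).trans ?_
    have := norm_SS_le_one μ hw
    have := norm_SS_le_one ν hw
    linarith
  have hpi := Real.pi_pos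
  -- boundary behaviour
  have hbd : ∀ θ ∈ Ioo 0 (2 * Real.pi), θ ∉ Z → Tendsto (fun n => ‖g (cm n θ)‖) atTop
      (𝓝 ‖g (cb θ)‖) := by
    intro θ hθ hθZ
    have hne : ∀ t ∈ Z, Complex.exp ((t : ℂ) * Complex.I) ≠ cb θ := by
      intro t ht
      apply exp_ne_cb (hZsub ht) ⟨hθ.1.le, hθ.2⟩
      rintro rfl
      exact hθZ ht
    have h1 : ContinuousAt g (cb θ) := (continuousAt_SS hZ hμ hne).sub (continuousAt_SS hZ hν hne)
    exact (h1.tendsto.comp (tendsto_cm θ)).norm
  have hgb2 : ∀ θ, ‖g (cb θ)‖ ≤ 2 := by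
    intro θ
    refine (norm_sub_le _ _).trans ?_
    rw [norm_SS_cb, norm_SS_cb]
    norm_num
  have hgbe : ∀ θ ∈ Ioo 0 (2 * Real.pi), θ ∉ Z → θ ∉ U → ‖g (cb θ)‖ ≤ e := by
    intro θ hθ hθZ hθU
    obtain ⟨n, hn⟩ := hdone θ hθ hθZ hθU
    refine le_trans ?_ hn
    simp only [hg, SS, KK_cb]
    exact norm_exp_diff_le _ _ n
  -- a.e. points of the interval are good
  have hae : ∀ᵐ θ : ℝ, θ ∈ Ι 0 (2 * Real.pi) → θ ∈ Ioo 0 (2 * Real.pi) ∧ θ ∉ Z := by
    have h1 : ∀ᵐ θ : ℝ, θ ≠ 2 * Real.pi := by simp [ae_iff, measure_singleton]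
    have h2 : ∀ᵐ θ : ℝ, θ ∉ Z := by
      rw [ae_iff]
      simpa using hZ0
    filter_upwards [h1, h2] with θ h1 h2 hmem
    rw [uIoc_of_le Real.two_pi_pos.le] at hmem
    exact ⟨⟨hmem.1, lt_of_le_of_ne hmem.2 h1⟩, h2⟩
  -- eventual bounds
  obtain ⟨n₀, hn₀⟩ : ∃ n₀, ∀ n ≥ n₀, (1 + ‖z‖) / 2 < rr n := by
    have := tendsto_rr.eventually_const_lt (u := (1 + ‖z‖) / 2) (by linarith)
    exact eventually_atTop.1 this
  have hnorm : ∀ n ≥ n₀, ‖g z‖ ≤ (2 * Real.pi)⁻¹ *
      ∫ θ in (0 : ℝ)..(2 * Real.pi), PK z (cm n θ) * ‖g (cm n θ)‖ := by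
    intro n hn
    have h1 := hn₀ n hn
    have h2 : ‖z‖ < rr n := by linarith
    rw [poisson_formula hgd h2, norm_smul, Real.norm_eq_abs, abs_of_pos (by positivity)]
    gcongr
    have h3 := intervalIntegral.norm_integral_le_integral_norm (μ := volume)
      (f := fun θ => PK z (cm n θ) • g (cm n θ)) (Real.two_pi_pos.le)
    refine h3.trans (le_of_eq ?_)
    congr 1
    funext θ
    rw [norm_smul, Real.norm_eq_abs, abs_of_nonneg (PK_nonneg (by rw [norm_cm]; linarith))]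
  have hcontP : ∀ n ≥ n₀, Continuous fun θ => PK z (cm n θ) := by
    intro n hn
    have h1 := hn₀ n hn
    rw [continuous_iff_continuousAt]
    intro θ
    have h2 : cm n θ ≠ z := by
      intro h
      have h3 := norm_cm n θ
      rw [h] at h3
      linarith
    exact (continuousAt_PK h2).comp (continuous_cm n).continuousAt
  have hcontg : ∀ n, Continuous fun θ => ‖g (cm n θ)‖ := fun n =>
    ((hgd.continuousOn).comp_continuous (continuous_cm n) (cm_mem n)).norm
  have hlim : Tendsto (fun n => ∫ θ in (0 : ℝ)..(2 * Real.pi), PK z (cm (n + n₀) θ) *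
      ‖g (cm (n + n₀) θ)‖) atTop
      (𝓝 (∫ θ in (0 : ℝ)..(2 * Real.pi), PK z (cb θ) * ‖g (cb θ)‖)) := by
    apply intervalIntegral.tendsto_integral_filter_of_dominated_convergence
      (fun _ => 4 / (1 - ‖z‖) * 2)
    · refine Eventually.of_forall fun n => ?_
      exact ((hcontP _ (by omega)).mul (hcontg _)).aestronglyMeasurable
    · refine Eventually.of_forall fun n => Eventually.of_forall fun θ _ => ?_
      have h1 := hn₀ (n + n₀) (by omega)
      have h2 := norm_cm (n + n₀) θ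
      have h3 := rr_lt_one (n + n₀)
      have h4 := PK_nonneg (z := z) (w := cm (n + n₀) θ) (by rw [h2]; linarith)
      have h5 := PK_le (z := z) (w := cm (n + n₀) θ) (by rw [h2]; linarith)
      have h6 : (‖cm (n + n₀) θ‖ + ‖z‖) / (‖cm (n + n₀) θ‖ - ‖z‖) ≤ 4 / (1 - ‖z‖) := by
        rw [h2, div_le_div_iff₀ (by linarith) (by linarith)]
        nlinarith [norm_nonneg z]
      have h7 := hg2 (cm (n + n₀) θ) (norm_cm_lt _ _)
      rw [Real.norm_eq_abs, abs_mul, abs_of_nonneg h4, abs_of_nonneg (norm_nonneg _)]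
      have h8 : 0 ≤ 4 / (1 - ‖z‖) := h4.trans (h5.trans h6)
      gcongr
      exact h5.trans h6
    · exact intervalIntegrable_const
    · filter_upwards [hae] with θ hθ hmem
      obtain ⟨h1, h2⟩ := hθ hmem
      have h3 := (hbd θ h1 h2).comp (tendsto_add_atTop_nat n₀)
      have hne : cb θ ≠ z := by
        intro h
        have := norm_cb θ
        rw [h] at this
        linarith
      have h4 : Tendsto (fun n => PK z (cm (n + n₀) θ)) atTop (𝓝 (PK z (cb θ))) :=
        ((continuousAt_PK hne).tendsto.comp (tendsto_cm θ)).comp (tendsto_add_atTop_nat n₀)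
      exact h4.mul h3
  have hle : ‖g z‖ ≤ (2 * Real.pi)⁻¹ *
      ∫ θ in (0 : ℝ)..(2 * Real.pi), PK z (cb θ) * ‖g (cb θ)‖ := by
    refine ge_of_tendsto (hlim.const_mul _) (Eventually.of_forall fun n => ?_)
    exact hnorm _ (by omega)
  -- estimate of the limit
  set C : ℝ := (1 + ‖z‖) / (1 - ‖z‖) with hC
  have hCpos : 0 ≤ C := by
    rw [hC]
    apply div_nonneg <;> linarith [norm_nonneg z]
  have hPb : ∀ θ, 0 ≤ PK z (cb θ) ∧ PK z (cb θ) ≤ C := by
    intro θ
    have h1 := norm_cb θ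
    refine ⟨PK_nonneg (by rw [h1]; linarith), ?_⟩
    have := PK_le (z := z) (w := cb θ) (by rw [h1]; linarith)
    rwa [h1] at this
  have hcontPb : Continuous fun θ => PK z (cb θ) := by
    rw [continuous_iff_continuousAt]
    intro θ
    have hne : cb θ ≠ z := by
      intro h
      have := norm_cb θ
      rw [h] at this
      linarith
    exact (continuousAt_PK hne).comp continuous_cb.continuousAt
  have hfinI : volume (Ι 0 (2 * Real.pi)) ≠ ⊤ := by
    rw [uIoc_of_le Real.two_pi_pos.le, Real.volume_Ioc]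
    exact ENNReal.ofReal_ne_top
  have hI1 : IntervalIntegrable (fun θ => PK z (cb θ) * e) volume 0 (2 * Real.pi) :=
    (hcontPb.mul continuous_const).intervalIntegrable _ _
  have hI2 : IntervalIntegrable (U.indicator fun _ => 2 * C) volume 0 (2 * Real.pi) := by
    rw [intervalIntegrable_iff]
    exact (integrableOn_const hfinI).indicator hU
  have hmeas : AEStronglyMeasurable (fun θ => PK z (cb θ) * ‖g (cb θ)‖)
      (volume.restrict (Ι 0 (2 * Real.pi))) := by
    have h1 : AEStronglyMeasurable (fun θ => ‖g (cb θ)‖) (volume.restrict (Ι 0 (2 * Real.pi))) := by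
      apply aestronglyMeasurable_of_tendsto_ae atTop (f := fun n θ => ‖g (cm n θ)‖)
        (fun n => (hcontg n).aestronglyMeasurable)
      rw [ae_restrict_iff' measurableSet_uIoc]
      filter_upwards [hae] with θ hθ hmem
      exact hbd θ (hθ hmem).1 (hθ hmem).2
    exact hcontPb.aestronglyMeasurable.mul h1
  have hI3 : IntervalIntegrable (fun θ => PK z (cb θ) * ‖g (cb θ)‖) volume 0 (2 * Real.pi) := by
    rw [intervalIntegrable_iff]
    haveI : IsFiniteMeasure (volume.restrict (Ι 0 (2 * Real.pi))) :=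
      ⟨by rw [Measure.restrict_apply_univ]; exact hfinI.lt_top⟩
    refine Integrable.of_bound hmeas (C * 2) ?_
    refine Eventually.of_forall fun θ => ?_
    obtain ⟨h1, h2⟩ := hPb θ
    rw [Real.norm_eq_abs, abs_mul, abs_of_nonneg h1, abs_of_nonneg (norm_nonneg _)]
    gcongr
    exact hgb2 θ
  have hfin : ∫ θ in (0 : ℝ)..(2 * Real.pi), PK z (cb θ) * ‖g (cb θ)‖ ≤
      ∫ θ in (0 : ℝ)..(2 * Real.pi), (PK z (cb θ) * e + U.indicator (fun _ => 2 * C) θ) := by
    apply intervalIntegral.integral_mono_ae_restrict Real.two_pi_pos.le hI3 (hI1.add hI2)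
    have h0 : ∀ᵐ θ ∂(volume.restrict (Icc 0 (2 * Real.pi))), θ ∈ Ioo 0 (2 * Real.pi) ∧ θ ∉ Z := by
      rw [Measure.restrict_congr_set Ioc_ae_eq_Icc.symm, ae_restrict_iff' measurableSet_Ioc]
      filter_upwards [hae] with θ hθ hmem
      apply hθ
      rwa [uIoc_of_le Real.two_pi_pos.le]
    filter_upwards [h0] with θ hθ
    obtain ⟨h1, h2⟩ := hPb θ
    by_cases hθU : θ ∈ U
    · rw [indicator_of_mem hθU]
      have h3 := hgb2 θ
      have h4 := norm_nonneg (g (cb θ))
      have h5 : PK z (cb θ) * ‖g (cb θ)‖ ≤ C * 2 := by gcongr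
      have h6 : 0 ≤ PK z (cb θ) * e := mul_nonneg h1 he
      linarith
    · rw [indicator_of_notMem hθU, add_zero]
      have := hgbe θ hθ.1 hθ.2 hθU
      gcongr
  rw [intervalIntegral.integral_add hI1 hI2, intervalIntegral.integral_mul_const,
    integral_PK hz] at hfin
  have hUint : ∫ θ in (0 : ℝ)..(2 * Real.pi), U.indicator (fun _ => 2 * C) θ ≤
      2 * C * (volume U).toReal := by
    rw [intervalIntegral.integral_of_le Real.two_pi_pos.le, integral_indicator_const _ hU,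
      smul_eq_mul, mul_comm]
    gcongr
    rw [measureReal_def]
    apply ENNReal.toReal_mono hUfin
    exact Measure.restrict_apply_le _ _
  have hUnn : 0 ≤ (volume U).toReal := ENNReal.toReal_nonneg
  calc ‖SS μ z - SS ν z‖ = ‖g z‖ := rfl
    _ ≤ (2 * Real.pi)⁻¹ * ∫ θ in (0 : ℝ)..(2 * Real.pi), PK z (cb θ) * ‖g (cb θ)‖ := hle
    _ ≤ (2 * Real.pi)⁻¹ * (2 * Real.pi * e + 2 * C * (volume U).toReal) := by
        gcongr
        linarith
    _ = e + (2 * Real.pi)⁻¹ * (2 * C * (volume U).toReal) := by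
        field_simp
    _ ≤ e + 1 * (2 * C * (volume U).toReal) := by
        gcongr
        apply inv_le_one_of_one_le₀
        have := Real.pi_gt_three
        linarith
    _ = e + 2 * C * (volume U).toReal := by ring

end Pool.Agent.Helper34.Sing
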