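import Pool.Agent.Helper34.Sing2

set_option autoImplicit false

open MeasureTheory Filter Topology Set Complex
open scoped Interval ENNReal Pointwise

namespace Pool.Agent.Helper34.Sing

open Pool.Agent.Helper34.Bmoa

/-! ### a continuous singular probability measure -/

lemma volume_cantorSet : volume cantorSet = 0 := by
  have h1 : (fun x : ℝ => x / 3) '' cantorSet = (3⁻¹ : ℝ) • cantorSet := by
    rw [← image_smul]
    congr 1
    funext x
    rw [smul_eq_mul]
    ring
  have h2 : (fun x : ℝ => (2 + x) / 3) '' cantorSet =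
      (fun y : ℝ => 2 / 3 + y) '' ((3⁻¹ : ℝ) • cantorSet) := by
    rw [← image_smul, image_image]
    congr 1
    funext x
    rw [smul_eq_mul]
    ring
  have h3 : volume ((3⁻¹ : ℝ) • cantorSet) = ENNReal.ofReal (3⁻¹) * volume cantorSet := by
    rw [Measure.addHaar_smul]
    simp
  have h4 : volume ((fun y : ℝ => 2 / 3 + y) '' ((3⁻¹ : ℝ) • cantorSet)) =
      ENNReal.ofReal (3⁻¹) * volume cantorSet := by
    rw [image_add_left, measure_preimage_add, h3]
  have h5 : volume cantorSet ≤ ENNReal.ofReal (3⁻¹) * volume cantorSet +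
      ENNReal.ofReal (3⁻¹) * volume cantorSet := by
    conv_lhs => rw [cantorSet_eq_union_halves]
    refine (measure_union_le _ _).trans ?_
    rw [h1, h2, h3, h4]
  have h6 : volume cantorSet ≠ ⊤ := by
    apply ne_top_of_le_ne_top _ (measure_mono cantorSet_subset_unitInterval)
    simp
  rw [← add_mul, ← ENNReal.ofReal_add (by norm_num) (by norm_num)] at h5
  by_contra h0
  have h7 : ENNReal.ofReal (3⁻¹ + 3⁻¹) * volume cantorSet < 1 * volume cantorSet := by
    apply ENNReal.mul_lt_mul_left h0 h6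
    rw [← ENNReal.ofReal_one]
    exact (ENNReal.ofReal_lt_ofReal_iff (by norm_num)).2 (by norm_num)
  rw [one_mul] at h7
  exact absurd h5 (not_le.2 h7)

lemma exists_sigma : ∃ (σ : Measure ℝ) (C : Set ℝ), IsProbabilityMeasure σ ∧ IsClosed C ∧
    C ⊆ Icc 0 1 ∧ volume C = 0 ∧ σ Cᶜ = 0 ∧ ∀ x, σ {x} = 0 := by
  have hnc : ¬ Countable ℝ := by
    rw [← Cardinal.mk_le_aleph0_iff, not_le, Cardinal.mk_real]
    exact Cardinal.aleph0_lt_continuum
  let e1 : ℝ ≃ᵐ (ℕ → Bool) := PolishSpace.measurableEquivNatBoolOfNotCountable hnc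
  let e2 : (ℕ → Bool) ≃ᵐ cantorSet := cantorSetHomeomorphNatToBool.symm.toMeasurableEquiv
  let f : ℝ → ℝ := fun x => (e2 (e1 x) : ℝ)
  have hf : Measurable f := measurable_subtype_coe.comp (e2.measurable.comp e1.measurable)
  have hinj : Function.Injective f := by
    intro x y h
    exact e1.injective (e2.injective (Subtype.ext h))
  have hmem : ∀ x, f x ∈ cantorSet := fun x => (e2 (e1 x)).2
  refine ⟨Measure.map f (volume.restrict (Icc 0 1)), cantorSet, ?_, isClosed_cantorSet,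
    cantorSet_subset_unitInterval, volume_cantorSet, ?_, ?_⟩
  · have : IsProbabilityMeasure (volume.restrict (Icc (0 : ℝ) 1)) := ⟨by simp⟩
    exact Measure.isProbabilityMeasure_map hf.aemeasurable
  · rw [Measure.map_apply hf isClosed_cantorSet.measurableSet.compl]
    have : f ⁻¹' cantorSetᶜ = ∅ := by
      ext x
      simp [hmem x]
    rw [this, measure_empty]
  · intro x
    rw [Measure.map_apply hf (measurableSet_singleton x)]
    have h1 : (f ⁻¹' {x}).Subsingleton := subsingleton_singleton.preimage hinj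
    have h2 : volume (f ⁻¹' {x}) = 0 := h1.measure_zero _
    exact le_antisymm ((Measure.restrict_apply_le _ _).trans h2.le) bot_le

/-! ### countable sums -/

lemma hasSum_KK {ι : Type*} [Countable ι] (m : ι → Measure ℝ) [IsFiniteMeasure (Measure.sum m)]
    {z : ℂ} (hz : ‖z‖ < 1) : HasSum (fun i => KK (m i) z) (KK (Measure.sum m) z) :=
  hasSum_integral_measure (integrable_kr _ hz)

lemma isFinite_of_sum {ι : Type*} (m : ι → Measure ℝ) [IsFiniteMeasure (Measure.sum m)]
    (i : ι) : IsFiniteMeasure (m i) :=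
  ⟨lt_of_le_of_lt (Measure.le_sum m i univ) (measure_lt_top _ _)⟩

lemma norm_prod_sub_prod_le {ι : Type*} (s : Finset ι) (a b : ι → ℂ) (ha : ∀ i, ‖a i‖ ≤ 1)
    (hb : ∀ i, ‖b i‖ ≤ 1) : ‖∏ i ∈ s, a i - ∏ i ∈ s, b i‖ ≤ ∑ i ∈ s, ‖a i - b i‖ := by
  classical
  induction s using Finset.induction_on with
  | empty => simp
  | insert j s hj ih =>
    rw [Finset.prod_insert hj, Finset.prod_insert hj, Finset.sum_insert hj]
    have h1 : a j * ∏ i ∈ s, a i - b j * ∏ i ∈ s, b i =
        (a j - b j) * ∏ i ∈ s, a i + b j * (∏ i ∈ s, a i - ∏ i ∈ s, b i) := by ring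
    rw [h1]
    refine (norm_add_le _ _).trans ?_
    rw [norm_mul, norm_mul]
    have h2 : ‖∏ i ∈ s, a i‖ ≤ 1 := by
      rw [norm_prod]
      exact Finset.prod_le_one (fun i _ => norm_nonneg _) (fun i _ => ha i)
    have h3 := hb j
    have h4 := norm_nonneg (a j - b j)
    have h5 := norm_nonneg (∏ i ∈ s, a i - ∏ i ∈ s, b i)
    have h6 := norm_nonneg (b j)
    nlinarith

lemma SS_sum_close {ι : Type*} [Countable ι] (μ ν : ι → Measure ℝ)
    [IsFiniteMeasure (Measure.sum μ)] [IsFiniteMeasure (Measure.sum ν)] {z : ℂ} (hz : ‖z‖ < 1)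
    {ε : ι → ℝ} (hε : Summable ε) (h : ∀ i, ‖SS (μ i) z - SS (ν i) z‖ ≤ ε i) :
    ‖SS (Measure.sum μ) z - SS (Measure.sum ν) z‖ ≤ ∑' i, ε i := by
  have h1 : ∀ (m : ι → Measure ℝ) [IsFiniteMeasure (Measure.sum m)],
      Tendsto (fun s : Finset ι => ∏ i ∈ s, SS (m i) z) atTop (𝓝 (SS (Measure.sum m) z)) := by
    intro m _
    have h2 : Tendsto (fun s : Finset ι => ∑ i ∈ s, KK (m i) z) atTop
        (𝓝 (KK (Measure.sum m) z)) := hasSum_KK m hz
    have h3 : Tendsto (fun s : Finset ι => Complex.exp (-∑ i ∈ s, KK (m i) z)) atTop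
        (𝓝 (Complex.exp (-KK (Measure.sum m) z))) :=
      (Complex.continuous_exp.tendsto _).comp h2.neg
    refine h3.congr fun s => ?_
    rw [← Finset.sum_neg_distrib, Complex.exp_sum]
    rfl
  have h2 := ((h1 μ).sub (h1 ν)).norm
  refine le_of_tendsto h2 (Eventually.of_forall fun s => ?_)
  have hμ : ∀ i, ‖SS (μ i) z‖ ≤ 1 := fun i => by
    have := isFinite_of_sum μ i
    exact norm_SS_le_one _ hz
  have hν : ∀ i, ‖SS (ν i) z‖ ≤ 1 := fun i => by
    have := isFinite_of_sum ν i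
    exact norm_SS_le_one _ hz
  refine (norm_prod_sub_prod_le s _ _ hμ hν).trans ?_
  refine (Finset.sum_le_sum fun i _ => h i).trans ?_
  exact hε.sum_le_tsum s (fun i _ => (norm_nonneg _).trans (h i))

/-- `μ` is within `ε` of a continuous singular measure of the same mass -/
def Good (μ : Measure ℝ) (ε : ℝ) : Prop :=
  ∃ ν : Measure ℝ, ν (Ioo 0 (2 * Real.pi))ᶜ = 0 ∧ ν ⟂ₘ volume ∧ (∀ x, ν {x} = 0) ∧
    ν univ = μ univ ∧ ∀ z : ℂ, ‖z‖ < 1 → ‖SS μ z - SS ν z‖ ≤ ε

lemma Good_sum {ι : Type*} [Countable ι] (μ : ι → Measure ℝ) [IsFiniteMeasure (Measure.sum μ)]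
    {ε : ι → ℝ} (hε : Summable ε) (h : ∀ i, Good (μ i) (ε i)) :
    Good (Measure.sum μ) (∑' i, ε i) := by
  choose ν h1 h2 h3 h4 h5 using h
  have huniv : Measure.sum ν univ = Measure.sum μ univ := by
    rw [Measure.sum_apply _ MeasurableSet.univ, Measure.sum_apply _ MeasurableSet.univ]
    simp_rw [h4]
  have hfin : IsFiniteMeasure (Measure.sum ν) := ⟨by rw [huniv]; exact measure_lt_top _ _⟩
  refine ⟨Measure.sum ν, ?_, ?_, ?_, huniv, fun z hz => SS_sum_close μ ν hz hε
    (fun i => h5 i z hz)⟩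
  · rw [Measure.sum_apply _ measurableSet_Ioo.compl]
    simp [h1]
  · exact Measure.MutuallySingular.sum_left.2 h2
  · intro x
    rw [Measure.sum_apply _ (measurableSet_singleton x)]
    simp [h3]

lemma Good.mono {μ : Measure ℝ} {ε ε' : ℝ} (h : Good μ ε) (hle : ε ≤ ε') : Good μ ε' := by
  obtain ⟨ν, h1, h2, h3, h4, h5⟩ := h
  exact ⟨ν, h1, h2, h3, h4, fun z hz => (h5 z hz).trans hle⟩

lemma Good_zero : Good 0 0 := by
  refine ⟨0, ?_, Measure.MutuallySingular.zero_left, ?_, rfl, ?_⟩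
  · simp
  · simp
  · intro z _
    simp

end Pool.Agent.Helper34.Sing
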