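import Pool.Agent.Helper34.Sing3

set_option autoImplicit false

open MeasureTheory Filter Topology Set Complex
open scoped Interval ENNReal

namespace Pool.Agent.Helper34.Sing

open Pool.Agent.Helper34.Bmoa

/-- discrete measures living on the open interval `(0, 2π)` -/
def Disc (μ : Measure ℝ) : Prop :=
  ∃ C : Set ℝ, C.Countable ∧ C ⊆ Ioo 0 (2 * Real.pi) ∧ μ Cᶜ = 0

lemma Disc.add {μ ν : Measure ℝ} (h1 : Disc μ) (h2 : Disc ν) : Disc (μ + ν) := by
  obtain ⟨C, hC, hCs, hμ⟩ := h1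
  obtain ⟨D, hD, hDs, hν⟩ := h2
  refine ⟨C ∪ D, hC.union hD, union_subset hCs hDs, ?_⟩
  rw [Measure.add_apply]
  have a1 : μ (C ∪ D)ᶜ = 0 := measure_mono_null (compl_subset_compl.2 subset_union_left) hμ
  have a2 : ν (C ∪ D)ᶜ = 0 := measure_mono_null (compl_subset_compl.2 subset_union_right) hν
  rw [a1, a2, add_zero]

lemma Disc.sum {ι : Type*} [Countable ι] {μ : ι → Measure ℝ} (h : ∀ i, Disc (μ i)) :
    Disc (Measure.sum μ) := by
  choose C h1 h2 h3 using h
  have hC : (⋃ i, C i).Countable := countable_iUnion h1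
  refine ⟨⋃ i, C i, hC, iUnion_subset h2, ?_⟩
  rw [Measure.sum_apply _ hC.measurableSet.compl]
  simp only [ENNReal.tsum_eq_zero]
  intro i
  exact measure_mono_null (compl_subset_compl.2 (subset_iUnion C i)) (h3 i)

lemma Disc.dirac {x : ℝ} (hx : x ∈ Ioo 0 (2 * Real.pi)) (c : ℝ≥0∞) :
    Disc (c • Measure.dirac x) := by
  refine ⟨{x}, countable_singleton x, singleton_subset_iff.2 hx, ?_⟩
  rw [Measure.smul_apply, Measure.dirac_apply' _ (measurableSet_singleton x).compl]
  simp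

lemma Disc.eq_sum {μ : Measure ℝ} {C : Set ℝ} (hC : C.Countable) (h : μ Cᶜ = 0) :
    μ = Measure.sum (fun x : C => μ {(x : ℝ)} • Measure.dirac (x : ℝ)) := by
  have hCc : Countable C := hC.to_subtype
  ext s hs
  rw [Measure.sum_apply _ hs]
  have h1 : μ s = μ (s ∩ C) := by
    rw [← measure_inter_add_sdiff s hC.measurableSet]
    have : μ (s \ C) = 0 := measure_mono_null (fun x hx => hx.2) h
    rw [this, add_zero]
  have h2 : μ (s ∩ C) = ∫⁻ a in C, s.indicator 1 a ∂μ := by
    rw [lintegral_indicator_one hs, Measure.restrict_apply hs]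
  rw [h1, h2, lintegral_countable _ hC]
  congr 1
  funext x
  rw [Measure.smul_apply, Measure.dirac_apply' _ hs, smul_eq_mul, mul_comm]

/-- The statement of the local lemma. -/
def L1 : Prop := ∀ x ∈ Ioo 0 (2 * Real.pi), ∀ c : ℝ≥0∞, c ≠ ⊤ → ∀ ε : ℝ, 0 < ε → ∀ η : ℝ, 0 < η →
  ∃ μ' : Measure ℝ, Disc μ' ∧ μ' univ ≤ ENNReal.ofReal η ∧ Good (c • Measure.dirac x + μ') ε

lemma tsum_ofReal_le {ι : Type*} {f : ι → ℝ} (hf : ∀ i, 0 < f i) {c η : ℝ} (h : HasSum f c)
    (hc : c ≤ η) : ∑' i, ENNReal.ofReal (f i) ≤ ENNReal.ofReal η := by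
  rw [← ENNReal.ofReal_tsum_of_nonneg (fun i => (hf i).le) h.summable, h.tsum_eq]
  exact ENNReal.ofReal_le_ofReal hc

lemma L2 (hL : L1) (μ : Measure ℝ) [IsFiniteMeasure μ] (hμ : Disc μ) {ε η : ℝ} (hε : 0 < ε)
    (hη : 0 < η) : ∃ μ' : Measure ℝ, Disc μ' ∧ μ' univ ≤ ENNReal.ofReal η ∧ Good (μ + μ') ε := by
  obtain ⟨C, hC, hCs, hμC⟩ := hμ
  have hCc : Countable C := hC.to_subtype
  have hEnc : Encodable C := Encodable.ofCountable C
  obtain ⟨e, he, c1, hc1, hc1'⟩ := posSumOfEncodable hε C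
  obtain ⟨w, hw, c2, hc2, hc2'⟩ := posSumOfEncodable hη C
  have h1 : ∀ x : C, ∃ μ' : Measure ℝ, Disc μ' ∧ μ' univ ≤ ENNReal.ofReal (w x) ∧
      Good (μ {(x : ℝ)} • Measure.dirac (x : ℝ) + μ') (e x) := fun x =>
    hL x (hCs x.2) _ (measure_ne_top _ _) (e x) (he x) (w x) (hw x)
  choose m hm1 hm2 hm3 using h1
  have huniv : Measure.sum m univ ≤ ENNReal.ofReal η := by
    rw [Measure.sum_apply _ MeasurableSet.univ]
    exact (ENNReal.tsum_le_tsum hm2).trans (tsum_ofReal_le hw hc2 hc2')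
  refine ⟨Measure.sum m, Disc.sum hm1, huniv, ?_⟩
  have hfin : IsFiniteMeasure (Measure.sum m) :=
    ⟨lt_of_le_of_lt huniv ENNReal.ofReal_lt_top⟩
  have heq : μ + Measure.sum m =
      Measure.sum (fun x : C => μ {(x : ℝ)} • Measure.dirac (x : ℝ) + m x) := by
    rw [← Measure.sum_add_sum, ← Disc.eq_sum hC hμC]
  have hfin2 : IsFiniteMeasure
      (Measure.sum (fun x : C => μ {(x : ℝ)} • Measure.dirac (x : ℝ) + m x)) := by
    rw [← heq]
    infer_instance
  rw [heq]
  have := Good_sum (fun x : C => μ {(x : ℝ)} • Measure.dirac (x : ℝ) + m x) hc1.summable hm3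
  rw [hc1.tsum_eq] at this
  exact this.mono hc1'

/-- finite discrete measures -/
def NN : Type := {μ : Measure ℝ // IsFiniteMeasure μ ∧ Disc μ}

lemma partner (hL : L1) (μ : NN) (n : ℕ) (η : ℝ) (hη : 0 < η) :
    ∃ μ' : NN, μ'.1 univ ≤ ENNReal.ofReal η ∧ Good (μ.1 + μ'.1) (1 / ((n : ℝ) + 1)) := by
  obtain ⟨μ, hfin, hd⟩ := μ
  obtain ⟨μ', h1, h2, h3⟩ := L2 hL μ hd (ε := 1 / ((n : ℝ) + 1)) (by positivity) hη
  exact ⟨⟨μ', ⟨lt_of_le_of_lt h2 ENNReal.ofReal_lt_top⟩, h1⟩, h2, h3⟩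

/-- the tree of measures -/
noncomputable def tree (root : NN) (P : NN → ℕ → List ℕ → NN) : List ℕ → NN
  | [] => root
  | (n :: l) => P (tree root P l) n l

/-- centres -/
def isC (nn : List ℕ → ℕ) : List ℕ → Prop
  | [] => True
  | (n :: l) => ¬ (isC nn l ∧ n = nn l)

theorem exists_limit (hL : L1) : ∃ T : Measure ℝ, IsFiniteMeasure T ∧ Disc T ∧ T ≠ 0 ∧
    ∀ ε : ℝ, 0 < ε → Good T ε := by
  classical
  obtain ⟨w, hw, c, hc, hc'⟩ := posSumOfEncodable (one_pos) (List ℕ)
  choose P hP1 hP2 using fun (μ : NN) (n : ℕ) (l : List ℕ) => partner hL μ n (w (n :: l)) (hw _)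
  have hpi : Real.pi ∈ Ioo 0 (2 * Real.pi) := ⟨Real.pi_pos, by linarith [Real.pi_pos]⟩
  let root : NN := ⟨(1 : ℝ≥0∞) • Measure.dirac Real.pi, by
    rw [one_smul]
    infer_instance, Disc.dirac hpi 1⟩
  let m : List ℕ → NN := tree root P
  have hm0 : m [] = root := rfl
  have hmc : ∀ n l, m (n :: l) = P (m l) n l := fun n l => rfl
  set M : List ℕ → Measure ℝ := fun l => (m l).1 with hM
  have hMfin : ∀ l, M l univ ≤ ENNReal.ofReal (w l) + (if l = [] then 1 else 0) := by
    intro l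
    rcases l with _ | ⟨n, l⟩
    · simp only [hM, hm0, root, if_true]
      simp
    · simp only [hM, hmc]
      refine (hP1 _ _ _).trans le_self_add
  have hT : Measure.sum M univ < ⊤ := by
    rw [Measure.sum_apply _ MeasurableSet.univ]
    refine lt_of_le_of_lt (ENNReal.tsum_le_tsum hMfin) ?_
    rw [ENNReal.tsum_add]
    have h1 := tsum_ofReal_le hw hc hc'
    have h2 : ∑' l : List ℕ, (if l = [] then (1 : ℝ≥0∞) else 0) = 1 := by
      rw [tsum_ite_eq]
    rw [h2]
    exact ENNReal.add_lt_top.2 ⟨lt_of_le_of_lt h1 ENNReal.ofReal_lt_top, ENNReal.one_lt_top⟩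
  have hTfin : IsFiniteMeasure (Measure.sum M) := ⟨hT⟩
  refine ⟨Measure.sum M, hTfin, Disc.sum (fun l => (m l).2.2), ?_, ?_⟩
  · intro h0
    have h1 : M [] ≤ Measure.sum M := Measure.le_sum M []
    rw [h0] at h1
    have h2 := h1 univ
    simp only [hM, hm0, root] at h2
    simp at h2
  · intro ε hε
    obtain ⟨v, hv, c', hc1, hc2⟩ := posSumOfEncodable hε (List ℕ)
    have hn : ∀ l, ∃ n : ℕ, 1 / ((n : ℝ) + 1) < v l := fun l => exists_nat_one_div_lt (hv l)
    choose nn hnn using hn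
    have hC0 : isC nn [] := trivial
    have hCc : ∀ n l, isC nn (n :: l) ↔ ¬ (isC nn l ∧ n = nn l) := fun n l => Iff.rfl
    let C : Set (List ℕ) := {l | isC nn l}
    -- the bijection from centres to partners
    let e : C ≃ (Cᶜ : Set (List ℕ)) :=
      { toFun := fun l => ⟨nn l.1 :: l.1, by
          intro h
          exact (hCc _ _).1 h ⟨l.2, rfl⟩⟩
        invFun := fun l => ⟨l.1.tail, by
          obtain ⟨l, hl⟩ := l
          rcases l with _ | ⟨n, l⟩
          · exact absurd hC0 hl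
          · have : isC nn l ∧ n = nn l := by
              by_contra h
              exact hl ((hCc _ _).2 h)
            exact this.1⟩
        left_inv := by
          intro l
          rfl
        right_inv := by
          rintro ⟨l, hl⟩
          rcases l with _ | ⟨n, l⟩
          · exact absurd hC0 hl
          · have : isC nn l ∧ n = nn l := by
              by_contra h
              exact hl ((hCc _ _).2 h)
            apply Subtype.ext
            simp [this.2] }
    have hsum : Measure.sum M = Measure.sum (fun l : C => M l.1 + M (nn l.1 :: l.1)) := by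
      rw [← Measure.sum_add_sum_compl C M, ← Measure.sum_add_sum]
      congr 1
      ext s hs
      rw [Measure.sum_apply _ hs, Measure.sum_apply _ hs, ← e.tsum_eq]
      rfl
    have hfin2 : IsFiniteMeasure (Measure.sum (fun l : C => M l.1 + M (nn l.1 :: l.1))) := by
      rw [← hsum]
      exact hTfin
    rw [hsum]
    have hsummable : Summable (fun l : C => v l.1) := hc1.summable.subtype _
    have hgood : ∀ l : C, Good (M l.1 + M (nn l.1 :: l.1)) (v l.1) := by
      intro l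
      have h1 := hP2 (m l.1) (nn l.1) l.1
      exact h1.mono (hnn l.1).le
    have hcountC : Countable C := inferInstance
    have h2 := Good_sum (ι := C) (fun l : C => M l.1 + M (nn l.1 :: l.1)) hsummable hgood
    refine h2.mono ?_
    have h3 : ∑' l : C, v l.1 ≤ ∑' l, v l :=
      Summable.tsum_subtype_le v C (fun l => (hv l).le) hc1.summable
    rw [hc1.tsum_eq] at h3
    linarith

end Pool.Agent.Helper34.Sing
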