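import Pool.Agent.Helper34.Sing4

set_option autoImplicit false

open MeasureTheory Filter Topology Set Complex
open scoped Interval ENNReal

namespace Pool.Agent.Helper34.Sing

open Pool.Agent.Helper34.Bmoa

/-! ### elementary estimates for the half-angle cotangent -/

lemma pi_sq_le : Real.pi ^ 2 ≤ 10 := by
  have h1 := Real.pi_lt_d2
  have h2 := Real.pi_pos
  nlinarith

lemma abs_div_pi_le {u : ℝ} (hu : |u| ≤ Real.pi) : |u| / Real.pi ≤ |Real.sin (u / 2)| := by
  have hpi := Real.pi_pos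
  have h1 : 2 / Real.pi * (|u| / 2) ≤ Real.sin (|u| / 2) := by
    apply Real.mul_le_sin
    · positivity
    · linarith
  have h2 : Real.sin (|u| / 2) ≤ |Real.sin (u / 2)| := by
    rcases abs_cases u with ⟨h, _⟩ | ⟨h, _⟩
    · rw [h]
      exact le_abs_self _
    · rw [h, neg_div, Real.sin_neg]
      exact neg_le_abs _
  calc |u| / Real.pi = 2 / Real.pi * (|u| / 2) := by ring
    _ ≤ _ := h1.trans h2

lemma sin_lower {v d : ℝ} (h1 : d ≤ |v|) (h2 : |v| ≤ 2 * Real.pi - d) (hd : 0 ≤ d) :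
    d / Real.pi ≤ |Real.sin (v / 2)| := by
  have hpi := Real.pi_pos
  have h3 : |Real.sin (v / 2)| = |Real.sin (|v| / 2)| := by
    rcases abs_cases v with ⟨h, _⟩ | ⟨h, _⟩
    · rw [h]
    · rw [h, neg_div, Real.sin_neg, abs_neg]
  rw [h3]
  rcases le_total (|v|) Real.pi with h | h
  · have := abs_div_pi_le (u := |v|) (by rwa [abs_abs])
    rw [abs_abs] at this
    refine le_trans ?_ this
    gcongr
  · have h4 : Real.sin (|v| / 2) = Real.sin ((2 * Real.pi - |v|) / 2) := by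
      rw [show (2 * Real.pi - |v|) / 2 = Real.pi - |v| / 2 by ring, Real.sin_pi_sub]
    rw [h4]
    have h5 : abs (2 * Real.pi - |v|) = 2 * Real.pi - |v| := abs_of_nonneg (by linarith)
    have := abs_div_pi_le (u := 2 * Real.pi - |v|) (by rw [h5]; linarith)
    rw [h5] at this
    refine le_trans ?_ this
    gcongr
    linarith

lemma abs_cc_le {u s : ℝ} (hs : 0 < s) (h : s ≤ |Real.sin (u / 2)|) : |cc u| ≤ 1 / s := by
  rw [cc, abs_div]
  have := Real.abs_cos_le_one (u / 2)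
  gcongr

lemma cc_sub_cc {u v : ℝ} (hu : Real.sin (u / 2) ≠ 0) (hv : Real.sin (v / 2) ≠ 0) :
    cc u - cc v = Real.sin ((v - u) / 2) / (Real.sin (u / 2) * Real.sin (v / 2)) := by
  rw [cc, cc, div_sub_div _ _ hu hv]
  congr 1
  rw [show (v - u) / 2 = v / 2 - u / 2 by ring, Real.sin_sub]
  ring

lemma abs_cc_sub_le {u v s t : ℝ} (hs : 0 < s) (ht : 0 < t) (hu : s ≤ |Real.sin (u / 2)|)
    (hv : t ≤ |Real.sin (v / 2)|) : |cc u - cc v| ≤ |u - v| / 2 / (s * t) := by
  have hu0 : Real.sin (u / 2) ≠ 0 := by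
    intro h
    rw [h, abs_zero] at hu
    linarith
  have hv0 : Real.sin (v / 2) ≠ 0 := by
    intro h
    rw [h, abs_zero] at hv
    linarith
  rw [cc_sub_cc hu0 hv0, abs_div, abs_mul]
  have h1 : |Real.sin ((v - u) / 2)| ≤ |u - v| / 2 := by
    refine Real.abs_sin_le_abs.trans (le_of_eq ?_)
    rw [abs_div, abs_sub_comm v u]
    norm_num
  gcongr

lemma cc_ge {u : ℝ} (h0 : 0 < u) (h1 : u ≤ 1) : 1 / u ≤ cc u := by
  rw [cc]
  have hsin : Real.sin (u / 2) ≤ u / 2 := Real.sin_le (by positivity)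
  have hsin0 : 0 < Real.sin (u / 2) := by
    apply Real.sin_pos_of_pos_of_lt_pi (by positivity)
    have := Real.pi_gt_three
    linarith
  have hcos : 1 - (u / 2) ^ 2 / 2 ≤ Real.cos (u / 2) := Real.one_sub_sq_div_two_le_cos
  have hcos' : 1 / 2 ≤ Real.cos (u / 2) := by nlinarith
  rw [div_le_div_iff₀ h0 hsin0]
  nlinarith

lemma measurable_cc : Measurable cc := by
  unfold cc
  fun_prop

lemma measurable_cc_sub (θ : ℝ) : Measurable fun t => cc (θ - t) :=
  measurable_cc.comp (measurable_const.sub measurable_id)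

/-! ### the sum of inverse squares -/

lemma sum_inv_sq_aux (m : ℕ) (hm : 1 ≤ m) :
    ∑ n ∈ Finset.range m, 1 / ((n : ℝ) + 1) ^ 2 ≤ 2 - 1 / (m : ℝ) := by
  induction m, hm using Nat.le_induction with
  | base => simp; norm_num
  | succ m hm ih =>
    rw [Finset.sum_range_succ]
    have h1 : (1 : ℝ) ≤ m := by exact_mod_cast hm
    have h2 : 1 / ((m : ℝ) + 1) ^ 2 ≤ 1 / (m : ℝ) - 1 / ((m : ℝ) + 1) := by
      rw [div_sub_div _ _ (by positivity) (by positivity), div_le_div_iff₀ (by positivity)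
        (by positivity)]
      nlinarith
    push_cast
    linarith

lemma sum_inv_sq (m : ℕ) : ∑ n ∈ Finset.range m, 1 / ((n : ℝ) + 1) ^ 2 ≤ 2 := by
  rcases Nat.eq_zero_or_pos m with rfl | h
  · simp
  · have h1 := sum_inv_sq_aux m h
    have h2 : (0 : ℝ) ≤ 1 / (m : ℝ) := by positivity
    linarith

lemma sum_inv_sq_ne (J : Finset ℕ) (N j : ℕ) (hJ : J ⊆ Finset.range N) :
    ∑ i ∈ J.erase j, 1 / ((i : ℝ) - j) ^ 2 ≤ 4 := by
  have h1 : J.erase j ⊆ Finset.range j ∪ Finset.Ico (j + 1) N := by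
    intro i hi
    rw [Finset.mem_erase] at hi
    have := Finset.mem_range.1 (hJ hi.2)
    rw [Finset.mem_union, Finset.mem_range, Finset.mem_Ico]
    omega
  have h2 : ∑ i ∈ J.erase j, 1 / ((i : ℝ) - j) ^ 2 ≤
      ∑ i ∈ Finset.range j ∪ Finset.Ico (j + 1) N, 1 / ((i : ℝ) - j) ^ 2 :=
    Finset.sum_le_sum_of_subset_of_nonneg h1 (fun i _ _ => by positivity)
  have h3 : Disjoint (Finset.range j) (Finset.Ico (j + 1) N) := by
    rw [Finset.disjoint_left]
    intro i hi hi'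
    rw [Finset.mem_range] at hi
    rw [Finset.mem_Ico] at hi'
    omega
  rw [Finset.sum_union h3] at h2
  have h4 : ∑ i ∈ Finset.range j, 1 / ((i : ℝ) - j) ^ 2 ≤ 2 := by
    rw [← Finset.sum_range_reflect]
    refine le_trans (le_of_eq ?_) (sum_inv_sq j)
    apply Finset.sum_congr rfl
    intro i hi
    rw [Finset.mem_range] at hi
    have : ((j - 1 - i : ℕ) : ℝ) = (j : ℝ) - 1 - i := by
      rw [Nat.cast_sub (by omega), Nat.cast_sub (by omega)]
      simp
    rw [this]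
    congr 1
    ring
  have h5 : ∑ i ∈ Finset.Ico (j + 1) N, 1 / ((i : ℝ) - j) ^ 2 ≤ 2 := by
    rw [Finset.sum_Ico_eq_sum_range]
    refine le_trans (le_of_eq ?_) (sum_inv_sq (N - (j + 1)))
    apply Finset.sum_congr rfl
    intro i _
    push_cast
    congr 1
    ring
  linarith

end Pool.Agent.Helper34.Sing
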