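import Pool.Agent.Helper34.Sing5

set_option autoImplicit false

open MeasureTheory Filter Topology Set Complex
open scoped Interval ENNReal

namespace Pool.Agent.Helper34.Sing

open Pool.Agent.Helper34.Bmoa

/-! ### integrals of the cotangent kernel -/

lemma integrable_cc {ν : Measure ℝ} [IsFiniteMeasure ν] {S : Set ℝ} (hν : ν Sᶜ = 0) {θ s : ℝ}
    (hs : 0 < s) (h : ∀ t ∈ S, s ≤ |Real.sin ((θ - t) / 2)|) :
    Integrable (fun t => cc (θ - t)) ν := by
  refine Integrable.of_bound (measurable_cc_sub θ).aestronglyMeasurable (1 / s) ?_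
  have hae : ∀ᵐ t ∂ν, t ∈ S := by
    rw [ae_iff]
    exact hν
  filter_upwards [hae] with t ht
  rw [Real.norm_eq_abs]
  exact abs_cc_le hs (h t ht)

lemma abs_integral_le_of_ae {ν : Measure ℝ} [IsFiniteMeasure ν] {f : ℝ → ℝ} {S : Set ℝ}
    (hν : ν Sᶜ = 0) {B : ℝ} (h : ∀ t ∈ S, |f t| ≤ B) :
    |∫ t, f t ∂ν| ≤ B * (ν univ).toReal := by
  have hae : ∀ᵐ t ∂ν, t ∈ S := by
    rw [ae_iff]
    exact hν
  have := norm_integral_le_of_norm_le_const (μ := ν) (f := f) (C := B) (by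
    filter_upwards [hae] with t ht
    exact h t ht)
  rwa [Real.norm_eq_abs, measureReal_def] at this

lemma abs_YY_le {ν : Measure ℝ} [IsFiniteMeasure ν] {S : Set ℝ} (hν : ν Sᶜ = 0) {θ s : ℝ}
    (hs : 0 < s) (h : ∀ t ∈ S, s ≤ |Real.sin ((θ - t) / 2)|) :
    |YY ν θ| ≤ 1 / s * (ν univ).toReal :=
  abs_integral_le_of_ae hν fun t ht => abs_cc_le hs (h t ht)

lemma abs_YY_sub_le {ν : Measure ℝ} [IsFiniteMeasure ν] {S : Set ℝ} (hν : ν Sᶜ = 0)
    {θ θ' s s' : ℝ} (hs : 0 < s) (hs' : 0 < s') (h : ∀ t ∈ S, s ≤ |Real.sin ((θ - t) / 2)|)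
    (h' : ∀ t ∈ S, s' ≤ |Real.sin ((θ' - t) / 2)|) :
    |YY ν θ - YY ν θ'| ≤ |θ - θ'| / 2 / (s * s') * (ν univ).toReal := by
  rw [YY, YY, ← integral_sub (integrable_cc hν hs h) (integrable_cc hν hs' h')]
  refine abs_integral_le_of_ae hν fun t ht => ?_
  have := abs_cc_sub_le hs hs' (h t ht) (h' t ht)
  rwa [show θ - t - (θ' - t) = θ - θ' by ring] at this

lemma abs_dipole_le {ν : Measure ℝ} [IsProbabilityMeasure ν] {S : Set ℝ} (hν : ν Sᶜ = 0)
    {θ p r s s' : ℝ} (hs : 0 < s) (hs' : 0 < s') (h : s ≤ |Real.sin ((θ - p) / 2)|)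
    (h' : ∀ t ∈ S, s' ≤ |Real.sin ((θ - t) / 2)|) (hr : ∀ t ∈ S, |t - p| ≤ r) :
    |cc (θ - p) - YY ν θ| ≤ r / 2 / (s * s') := by
  have h1 : cc (θ - p) - YY ν θ = ∫ t, (cc (θ - p) - cc (θ - t)) ∂ν := by
    rw [integral_sub (integrable_const _) (integrable_cc hν hs' h'), integral_const]
    simp [YY]
  rw [h1]
  have h2 := abs_integral_le_of_ae (ν := ν) (f := fun t => cc (θ - p) - cc (θ - t)) hν
    (B := r / 2 / (s * s')) (fun t ht => by
      have h3 := abs_cc_sub_le hs hs' h (h' t ht)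
      rw [show θ - p - (θ - t) = t - p by ring] at h3
      refine h3.trans ?_
      have := hr t ht
      gcongr)
  rwa [measure_univ, ENNReal.toReal_one, mul_one] at h2

/-! ### the cell measures -/

/-- a copy of `σ` in the third quarter of the cell `[p, p+ℓ]` -/
noncomputable def cellm (σ : Measure ℝ) (p l : ℝ) : Measure ℝ :=
  Measure.map (fun s => p + l / 2 + s * (l / 4)) σ

lemma measurable_cellmap (p l : ℝ) : Measurable (fun s : ℝ => p + l / 2 + s * (l / 4)) := by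
  fun_prop

instance (σ : Measure ℝ) [IsProbabilityMeasure σ] (p l : ℝ) :
    IsProbabilityMeasure (cellm σ p l) :=
  Measure.isProbabilityMeasure_map (measurable_cellmap p l).aemeasurable

lemma cellm_supp {σ : Measure ℝ} {C₀ : Set ℝ} (hC : IsCompact C₀) (hσ : σ C₀ᶜ = 0) (p l : ℝ) :
    cellm σ p l ((fun s => p + l / 2 + s * (l / 4)) '' C₀)ᶜ = 0 := by
  have hc : IsCompact ((fun s => p + l / 2 + s * (l / 4)) '' C₀) :=
    hC.image (by fun_prop)
  rw [cellm, Measure.map_apply (measurable_cellmap p l) hc.isClosed.measurableSet.compl]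
  refine measure_mono_null ?_ hσ
  intro s hs hs'
  exact hs (mem_image_of_mem _ hs')

lemma cellm_supp' {σ : Measure ℝ} {C₀ : Set ℝ} (hC : IsCompact C₀) (hC1 : C₀ ⊆ Icc 0 1)
    (hσ : σ C₀ᶜ = 0) {p l : ℝ} (hl : 0 < l) :
    cellm σ p l (Icc (p + l / 2) (p + 3 * l / 4))ᶜ = 0 := by
  refine measure_mono_null (compl_subset_compl.2 ?_) (cellm_supp hC hσ p l)
  rintro _ ⟨s, hs, rfl⟩
  have h1 := (hC1 hs).1
  have h2 := (hC1 hs).2
  simp only
  constructor <;> nlinarith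

lemma cellm_noatom {σ : Measure ℝ} (hσ : ∀ x, σ {x} = 0) {p l : ℝ} (hl : 0 < l) (x : ℝ) :
    cellm σ p l {x} = 0 := by
  rw [cellm, Measure.map_apply (measurable_cellmap p l) (measurableSet_singleton x)]
  have h1 : (fun s : ℝ => p + l / 2 + s * (l / 4)) ⁻¹' {x} ⊆ {(x - p - l / 2) / (l / 4)} := by
    intro s hs
    rw [mem_preimage, mem_singleton_iff] at hs
    rw [mem_singleton_iff, ← hs]
    field_simp
    ring
  exact measure_mono_null h1 (hσ _)

section near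

variable {σ : Measure ℝ} [IsProbabilityMeasure σ] {C₀ : Set ℝ} (hC : IsCompact C₀)
  (hC1 : C₀ ⊆ Icc 0 1) (hσ : σ C₀ᶜ = 0)

/-- the phase increment -/
noncomputable def DY (σ : Measure ℝ) (J : Finset ℕ) (l θ : ℝ) : ℝ :=
  l * ∑ i ∈ J, (cc (θ - i * l) - YY (cellm σ (i * l) l) θ)

/-- geometry of two different cells -/
lemma cell_geom {i j : ℕ} (hij : i ≠ j) {l θ : ℝ} (hl : 0 < l) (h1 : j * l ≤ θ)
    (h2 : θ ≤ j * l + l / 4) :
    3 / 4 * (|(i : ℝ) - j| * l) ≤ |θ - i * l| ∧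
    (∀ t ∈ Icc (i * l + l / 2) (i * l + 3 * l / 4), |(i : ℝ) - j| * l / 4 ≤ |θ - t|) ∧
    1 ≤ |(i : ℝ) - j| := by
  rcases lt_or_gt_of_ne hij with h | h
  · have h3 : (i : ℝ) + 1 ≤ j := by exact_mod_cast h
    have h4 : |(i : ℝ) - j| = j - i := by
      rw [abs_sub_comm]
      exact abs_of_nonneg (by linarith)
    rw [h4]
    refine ⟨?_, ?_, by linarith⟩
    · refine le_trans ?_ (le_abs_self _)
      nlinarith
    · intro t ht
      refine le_trans ?_ (le_abs_self _)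
      have := ht.2
      nlinarith
  · have h3 : (j : ℝ) + 1 ≤ i := by exact_mod_cast h
    have h4 : |(i : ℝ) - j| = i - j := abs_of_nonneg (by linarith)
    rw [h4]
    refine ⟨?_, ?_, by linarith⟩
    · rw [abs_sub_comm]
      refine le_trans ?_ (le_abs_self _)
      nlinarith
    · intro t ht
      rw [abs_sub_comm]
      refine le_trans ?_ (le_abs_self _)
      have := ht.1
      nlinarith

include hC hC1 hσ in
lemma other_cell {i j : ℕ} (hij : i ≠ j) {l θ : ℝ} (hl : 0 < l) (h1 : j * l ≤ θ)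
    (h2 : θ ≤ j * l + l / 4) (hp : |θ - i * l| ≤ Real.pi)
    (hq : ∀ t ∈ Icc (i * l + l / 2) (i * l + 3 * l / 4), |θ - t| ≤ Real.pi) :
    |cc (θ - i * l) - YY (cellm σ (i * l) l) θ| ≤ 20 / l * (1 / ((i : ℝ) - j) ^ 2) := by
  obtain ⟨g1, g2, g3⟩ := cell_geom hij hl h1 h2
  have hpi := Real.pi_pos
  set n : ℝ := |(i : ℝ) - j| with hn
  have hn0 : 0 < n := by linarith
  have hs1 : 3 / 4 * (n * l) / Real.pi ≤ |Real.sin ((θ - i * l) / 2)| := by
    refine le_trans ?_ (abs_div_pi_le hp)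
    gcongr
  have hs2 : ∀ t ∈ Icc (i * l + l / 2) (i * l + 3 * l / 4),
      n * l / 4 / Real.pi ≤ |Real.sin ((θ - t) / 2)| := by
    intro t ht
    refine le_trans ?_ (abs_div_pi_le (hq t ht))
    have := g2 t ht
    gcongr
  have h := abs_dipole_le (cellm_supp' hC hC1 hσ hl) (by positivity) (by positivity) hs1 hs2
    (r := 3 * l / 4) (fun t ht => by
      rw [abs_of_nonneg (by linarith [ht.1])]
      linarith [ht.2])
  refine h.trans ?_
  have hsq : ((i : ℝ) - j) ^ 2 = n ^ 2 := by rw [hn, sq_abs]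
  rw [hsq]
  have e : 3 * l / 4 / 2 / (3 / 4 * (n * l) / Real.pi * (n * l / 4 / Real.pi)) =
      2 * Real.pi ^ 2 / l * (1 / n ^ 2) := by
    field_simp
    ring
  rw [e]
  have := pi_sq_le
  gcongr
  linarith

include hC hC1 hσ in
lemma other_cell_lip {i j : ℕ} (hij : i ≠ j) {l θ θ' : ℝ} (hl : 0 < l) (h1 : j * l ≤ θ)
    (h2 : θ ≤ j * l + l / 4) (h1' : j * l ≤ θ') (h2' : θ' ≤ j * l + l / 4)
    (hp : |θ - i * l| ≤ Real.pi) (hp' : |θ' - i * l| ≤ Real.pi)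
    (hq : ∀ t ∈ Icc (i * l + l / 2) (i * l + 3 * l / 4), |θ - t| ≤ Real.pi)
    (hq' : ∀ t ∈ Icc (i * l + l / 2) (i * l + 3 * l / 4), |θ' - t| ≤ Real.pi) :
    |(cc (θ - i * l) - YY (cellm σ (i * l) l) θ) - (cc (θ' - i * l) - YY (cellm σ (i * l) l) θ')|
      ≤ 89 / l ^ 2 * |θ - θ'| * (1 / ((i : ℝ) - j) ^ 2) := by
  obtain ⟨g1, g2, g3⟩ := cell_geom hij hl h1 h2
  obtain ⟨g1', g2', _⟩ := cell_geom hij hl h1' h2'
  have hpi := Real.pi_pos
  set n : ℝ := |(i : ℝ) - j| with hn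
  have hn0 : 0 < n := by linarith
  have hs1 : 3 / 4 * (n * l) / Real.pi ≤ |Real.sin ((θ - i * l) / 2)| := by
    refine le_trans ?_ (abs_div_pi_le hp)
    gcongr
  have hs1' : 3 / 4 * (n * l) / Real.pi ≤ |Real.sin ((θ' - i * l) / 2)| := by
    refine le_trans ?_ (abs_div_pi_le hp')
    gcongr
  have hs2 : ∀ t ∈ Icc (i * l + l / 2) (i * l + 3 * l / 4),
      n * l / 4 / Real.pi ≤ |Real.sin ((θ - t) / 2)| := by
    intro t ht
    refine le_trans ?_ (abs_div_pi_le (hq t ht))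
    have := g2 t ht
    gcongr
  have hs2' : ∀ t ∈ Icc (i * l + l / 2) (i * l + 3 * l / 4),
      n * l / 4 / Real.pi ≤ |Real.sin ((θ' - t) / 2)| := by
    intro t ht
    refine le_trans ?_ (abs_div_pi_le (hq' t ht))
    have := g2' t ht
    gcongr
  have e1 := abs_cc_sub_le (by positivity) (by positivity) hs1 hs1'
  have e2 := abs_YY_sub_le (cellm_supp' hC hC1 hσ hl) (by positivity) (by positivity) hs2 hs2'
  rw [measure_univ, ENNReal.toReal_one, mul_one] at e2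
  rw [show θ - i * l - (θ' - i * l) = θ - θ' by ring] at e1
  have hsq : ((i : ℝ) - j) ^ 2 = n ^ 2 := by rw [hn, sq_abs]
  rw [hsq]
  have f1 : |θ - θ'| / 2 / (3 / 4 * (n * l) / Real.pi * (3 / 4 * (n * l) / Real.pi)) =
      8 / 9 * Real.pi ^ 2 / l ^ 2 * |θ - θ'| * (1 / n ^ 2) := by
    field_simp
    ring
  have f2 : |θ - θ'| / 2 / (n * l / 4 / Real.pi * (n * l / 4 / Real.pi)) =
      8 * Real.pi ^ 2 / l ^ 2 * |θ - θ'| * (1 / n ^ 2) := by
    field_simp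
    ring
  rw [f1] at e1
  rw [f2] at e2
  have hpi2 := pi_sq_le
  have hX : 0 ≤ 1 / l ^ 2 * |θ - θ'| * (1 / n ^ 2) := by positivity
  have k1 : 8 / 9 * Real.pi ^ 2 / l ^ 2 * |θ - θ'| * (1 / n ^ 2) =
      8 / 9 * Real.pi ^ 2 * (1 / l ^ 2 * |θ - θ'| * (1 / n ^ 2)) := by ring
  have k2 : 8 * Real.pi ^ 2 / l ^ 2 * |θ - θ'| * (1 / n ^ 2) =
      8 * Real.pi ^ 2 * (1 / l ^ 2 * |θ - θ'| * (1 / n ^ 2)) := by ring
  have k3 : 89 / l ^ 2 * |θ - θ'| * (1 / n ^ 2) =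
      89 * (1 / l ^ 2 * |θ - θ'| * (1 / n ^ 2)) := by ring
  rw [k1] at e1
  rw [k2] at e2
  rw [k3]
  have h3 : (cc (θ - i * l) - YY (cellm σ (i * l) l) θ) -
      (cc (θ' - i * l) - YY (cellm σ (i * l) l) θ') =
      (cc (θ - i * l) - cc (θ' - i * l)) -
      (YY (cellm σ (i * l) l) θ - YY (cellm σ (i * l) l) θ') := by ring
  rw [h3]
  refine (abs_sub _ _).trans ?_
  nlinarith

end near

end Pool.Agent.Helper34.Sing
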