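import Pool.Agent.Helper34.Sing6

set_option autoImplicit false

open MeasureTheory Filter Topology Set Complex
open scoped Interval ENNReal

namespace Pool.Agent.Helper34.Sing

open Pool.Agent.Helper34.Bmoa

section near

variable {σ : Measure ℝ} [IsProbabilityMeasure σ] {C₀ : Set ℝ} (hC : IsCompact C₀)
  (hC1 : C₀ ⊆ Icc 0 1) (hσ : σ C₀ᶜ = 0) {J : Finset ℕ} {N j : ℕ} (hJN : J ⊆ Finset.range N)
  (hj : j ∈ J) {l A B : ℝ} (hl : 0 < l) (hAB : B - A ≤ Real.pi)
  (hJ : ∀ i ∈ J, A ≤ i * l ∧ i * l + l ≤ B)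

include hj hl hAB hJ in
lemma dist_bounds {θ : ℝ} (h1 : j * l ≤ θ) (h2 : θ ≤ j * l + l / 4) {i : ℕ} (hi : i ∈ J) :
    |θ - i * l| ≤ Real.pi ∧
      ∀ t ∈ Icc (i * l + l / 2) (i * l + 3 * l / 4), |θ - t| ≤ Real.pi := by
  obtain ⟨a1, a2⟩ := hJ j hj
  obtain ⟨b1, b2⟩ := hJ i hi
  constructor
  · rw [abs_le]
    constructor <;> linarith
  · intro t ht
    have := ht.1
    have := ht.2
    rw [abs_le]
    constructor <;> linarith

lemma DY_split (σ : Measure ℝ) {J : Finset ℕ} {j : ℕ} (hj : j ∈ J) (l θ : ℝ) :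
    DY σ J l θ = l * cc (θ - j * l) + (-(l * YY (cellm σ (j * l) l) θ) +
      l * ∑ i ∈ J.erase j, (cc (θ - i * l) - YY (cellm σ (i * l) l) θ)) := by
  rw [DY, ← Finset.add_sum_erase J _ hj]
  ring

include hC hC1 hσ hJN hj hl hAB hJ in
lemma rest_le {θ : ℝ} (h1 : j * l ≤ θ) (h2 : θ ≤ j * l + l / 4) :
    |DY σ J l θ - l * cc (θ - j * l)| ≤ 93 := by
  rw [DY_split σ hj, add_sub_cancel_left]
  have hpi := Real.pi_pos
  have hpi2 : Real.pi < 3.15 := Real.pi_lt_d2
  have e1 : |YY (cellm σ (j * l) l) θ| ≤ 4 * Real.pi / l := by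
    have h := abs_YY_le (cellm_supp' hC hC1 hσ (p := j * l) hl) (θ := θ)
      (s := l / 4 / Real.pi) (by positivity) (fun t ht => by
        refine le_trans ?_ (abs_div_pi_le
          ((dist_bounds hj hl hAB hJ h1 h2 hj).2 t ht))
        gcongr
        rw [abs_sub_comm]
        refine le_trans ?_ (le_abs_self _)
        have := ht.1
        linarith)
    rw [measure_univ, ENNReal.toReal_one, mul_one] at h
    refine h.trans (le_of_eq ?_)
    field_simp
  have e2 : |∑ i ∈ J.erase j, (cc (θ - i * l) - YY (cellm σ (i * l) l) θ)| ≤ 20 / l * 4 := by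
    refine (Finset.abs_sum_le_sum_abs _ _).trans ?_
    have h3 : ∑ i ∈ J.erase j, |cc (θ - i * l) - YY (cellm σ (i * l) l) θ| ≤
        ∑ i ∈ J.erase j, 20 / l * (1 / ((i : ℝ) - j) ^ 2) := by
      apply Finset.sum_le_sum
      intro i hi
      rw [Finset.mem_erase] at hi
      obtain ⟨k1, k2⟩ := dist_bounds hj hl hAB hJ h1 h2 hi.2
      exact other_cell hC hC1 hσ hi.1 hl h1 h2 k1 k2
    rw [← Finset.mul_sum] at h3
    refine h3.trans ?_
    have := sum_inv_sq_ne J N j hJN
    gcongr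
  refine (abs_add_le _ _).trans ?_
  rw [abs_neg, abs_mul, abs_mul, abs_of_pos hl]
  have f1 : l * |YY (cellm σ (j * l) l) θ| ≤ 4 * Real.pi := by
    calc l * |YY (cellm σ (j * l) l) θ| ≤ l * (4 * Real.pi / l) := by gcongr
      _ = 4 * Real.pi := by field_simp
  have f2 : l * |∑ i ∈ J.erase j, (cc (θ - i * l) - YY (cellm σ (i * l) l) θ)| ≤ 80 := by
    calc _ ≤ l * (20 / l * 4) := by gcongr
      _ = 80 := by field_simp; norm_num
  linarith

include hC hC1 hσ hJN hj hl hAB hJ in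
lemma DY_lip {θ θ' : ℝ} (h1 : j * l + l / 800 ≤ θ) (h2 : θ ≤ j * l + l / 4)
    (h1' : j * l + l / 800 ≤ θ') (h2' : θ' ≤ j * l + l / 4) :
    |DY σ J l θ - DY σ J l θ'| ≤ 4000000 / l * |θ - θ'| := by
  have hpi := Real.pi_pos
  have hpi2 := pi_sq_le
  have hpi3 : Real.pi < 3.15 := Real.pi_lt_d2
  have a1 : j * l ≤ θ := by linarith
  have a1' : j * l ≤ θ' := by linarith
  set X : ℝ := 1 / l ^ 2 * |θ - θ'| with hX
  have hX0 : 0 ≤ X := by positivity
  -- own atom
  have e0 : |cc (θ - j * l) - cc (θ' - j * l)| ≤ 3200000 * X := by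
    have g1 : l / 800 / Real.pi ≤ |Real.sin ((θ - j * l) / 2)| := by
      refine le_trans ?_ (abs_div_pi_le ((dist_bounds hj hl hAB hJ a1 h2 hj).1))
      gcongr
      refine le_trans ?_ (le_abs_self _)
      linarith
    have g2 : l / 800 / Real.pi ≤ |Real.sin ((θ' - j * l) / 2)| := by
      refine le_trans ?_ (abs_div_pi_le ((dist_bounds hj hl hAB hJ a1' h2' hj).1))
      gcongr
      refine le_trans ?_ (le_abs_self _)
      linarith
    have h := abs_cc_sub_le (by positivity) (by positivity) g1 g2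
    rw [show θ - j * l - (θ' - j * l) = θ - θ' by ring] at h
    refine h.trans ?_
    have : |θ - θ'| / 2 / (l / 800 / Real.pi * (l / 800 / Real.pi)) =
        320000 * Real.pi ^ 2 * X := by
      rw [hX]
      field_simp
      ring
    rw [this]
    nlinarith
  -- own continuous part
  have e1 : |YY (cellm σ (j * l) l) θ - YY (cellm σ (j * l) l) θ'| ≤ 80 * X := by
    have g : ∀ φ : ℝ, j * l ≤ φ → φ ≤ j * l + l / 4 →
        ∀ t ∈ Icc (j * l + l / 2) (j * l + 3 * l / 4),
        l / 4 / Real.pi ≤ |Real.sin ((φ - t) / 2)| := by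
      intro φ k1 k2 t ht
      refine le_trans ?_ (abs_div_pi_le ((dist_bounds hj hl hAB hJ k1 k2 hj).2 t ht))
      gcongr
      rw [abs_sub_comm]
      refine le_trans ?_ (le_abs_self _)
      have := ht.1
      linarith
    have h := abs_YY_sub_le (cellm_supp' hC hC1 hσ (p := j * l) hl) (by positivity)
      (by positivity) (g θ a1 h2) (g θ' a1' h2')
    rw [measure_univ, ENNReal.toReal_one, mul_one] at h
    refine h.trans ?_
    have : |θ - θ'| / 2 / (l / 4 / Real.pi * (l / 4 / Real.pi)) = 8 * Real.pi ^ 2 * X := by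
      rw [hX]
      field_simp
      ring
    rw [this]
    nlinarith
  -- other cells
  have e2 : |∑ i ∈ J.erase j, ((cc (θ - i * l) - YY (cellm σ (i * l) l) θ) -
      (cc (θ' - i * l) - YY (cellm σ (i * l) l) θ'))| ≤ 356 * X := by
    refine (Finset.abs_sum_le_sum_abs _ _).trans ?_
    have h3 : ∑ i ∈ J.erase j, |(cc (θ - i * l) - YY (cellm σ (i * l) l) θ) -
        (cc (θ' - i * l) - YY (cellm σ (i * l) l) θ')| ≤
        ∑ i ∈ J.erase j, 89 / l ^ 2 * |θ - θ'| * (1 / ((i : ℝ) - j) ^ 2) := by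
      apply Finset.sum_le_sum
      intro i hi
      rw [Finset.mem_erase] at hi
      obtain ⟨k1, k2⟩ := dist_bounds hj hl hAB hJ a1 h2 hi.2
      obtain ⟨k1', k2'⟩ := dist_bounds hj hl hAB hJ a1' h2' hi.2
      exact other_cell_lip hC hC1 hσ hi.1 hl a1 h2 a1' h2' k1 k1' k2 k2'
    rw [← Finset.mul_sum] at h3
    refine h3.trans ?_
    have h4 := sum_inv_sq_ne J N j hJN
    calc 89 / l ^ 2 * |θ - θ'| * ∑ i ∈ J.erase j, 1 / ((i : ℝ) - j) ^ 2
        ≤ 89 / l ^ 2 * |θ - θ'| * 4 := by gcongr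
      _ = 356 * X := by rw [hX]; ring
  have hsplit : DY σ J l θ - DY σ J l θ' = l * ((cc (θ - j * l) - cc (θ' - j * l)) -
      (YY (cellm σ (j * l) l) θ - YY (cellm σ (j * l) l) θ') +
      ∑ i ∈ J.erase j, ((cc (θ - i * l) - YY (cellm σ (i * l) l) θ) -
      (cc (θ' - i * l) - YY (cellm σ (i * l) l) θ'))) := by
    rw [DY_split σ hj, DY_split σ hj, Finset.sum_sub_distrib
      (fun i : ℕ => cc (θ - i * l) - YY (cellm σ (i * l) l) θ)
      (fun i : ℕ => cc (θ' - i * l) - YY (cellm σ (i * l) l) θ')]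
    ring
  rw [hsplit, abs_mul, abs_of_pos hl]
  have h5 : |(cc (θ - j * l) - cc (θ' - j * l)) -
      (YY (cellm σ (j * l) l) θ - YY (cellm σ (j * l) l) θ') +
      ∑ i ∈ J.erase j, ((cc (θ - i * l) - YY (cellm σ (i * l) l) θ) -
      (cc (θ' - i * l) - YY (cellm σ (i * l) l) θ'))| ≤ 4000000 * X := by
    refine (abs_add_le _ _).trans ?_
    have h6 := abs_sub (cc (θ - j * l) - cc (θ' - j * l))
      (YY (cellm σ (j * l) l) θ - YY (cellm σ (j * l) l) θ')
    linarith
  calc l * _ ≤ l * (4000000 * X) := by gcongr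
    _ = 4000000 / l * |θ - θ'| := by
        rw [hX]
        field_simp

include hC hC1 hσ hJN hj hl hAB hJ in
lemma window (hl1 : l ≤ 1) (Y : ℝ) {e : ℝ} (he : 0 < e) (he1 : e ≤ 1) :
    ∃ θ₀, j * l + l / 400 ≤ θ₀ ∧ θ₀ ≤ j * l + l / 4 ∧ ∃ n : ℤ,
      ∀ θ ∈ Icc (θ₀ - e * l / 16000000) θ₀, |Y + DY σ J l θ - 2 * Real.pi * n| ≤ e / 4 := by
  have hpi := Real.pi_pos
  have hpi3 : Real.pi < 3.15 := Real.pi_lt_d2
  have hpi4 : 3.14 < Real.pi := Real.pi_gt_d2
  -- the target value
  set n : ℤ := ⌈(Y + 106) / (2 * Real.pi)⌉ with hn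
  have h1 : Y + 106 ≤ 2 * Real.pi * n := by
    have := Int.le_ceil ((Y + 106) / (2 * Real.pi))
    rw [div_le_iff₀ (by positivity)] at this
    linarith
  have h2 : 2 * Real.pi * n ≤ Y + 113 := by
    have h3 := Int.ceil_lt_add_one ((Y + 106) / (2 * Real.pi))
    rw [← hn] at h3
    have h4 : (Y + 106) / (2 * Real.pi) * (2 * Real.pi) = Y + 106 := by field_simp
    nlinarith
  have hle : j * l + l / 400 ≤ j * l + l / 4 := by linarith
  -- continuity
  have hcont : ContinuousOn (DY σ J l) (Icc (j * l + l / 400) (j * l + l / 4)) := by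
    have hlip : LipschitzOnWith (Real.toNNReal (4000000 / l)) (DY σ J l)
        (Icc (j * l + l / 400) (j * l + l / 4)) := by
      apply LipschitzOnWith.of_dist_le_mul
      intro x hx y hy
      rw [Real.dist_eq, Real.dist_eq, Real.coe_toNNReal _ (by positivity)]
      exact DY_lip hC hC1 hσ hJN hj hl hAB hJ (by linarith [hx.1]) hx.2 (by linarith [hy.1]) hy.2
    exact hlip.continuousOn
  -- values at the ends
  have hv1 : DY σ J l (j * l + l / 4) ≤ 2 * Real.pi * n - Y := by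
    have h3 := rest_le hC hC1 hσ hJN hj hl hAB hJ (θ := j * l + l / 4) (by linarith) le_rfl
    have h4 := (abs_le.1 h3).2
    have h5 : cc (j * l + l / 4 - j * l) ≤ 4 * Real.pi / l := by
      refine (le_abs_self _).trans ?_
      have h6 := abs_cc_le (u := j * l + l / 4 - j * l) (s := l / 4 / Real.pi) (by positivity)
        (by
          refine le_trans ?_ (abs_div_pi_le ((dist_bounds hj hl hAB hJ (θ := j * l + l / 4)
            (by linarith) le_rfl hj).1))
          gcongr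
          refine le_trans ?_ (le_abs_self _)
          linarith)
      refine h6.trans (le_of_eq ?_)
      field_simp
    have h7 : l * cc (j * l + l / 4 - j * l) ≤ 4 * Real.pi := by
      calc l * cc (j * l + l / 4 - j * l) ≤ l * (4 * Real.pi / l) := by gcongr
        _ = 4 * Real.pi := by field_simp
    linarith
  have hv2 : 2 * Real.pi * n - Y ≤ DY σ J l (j * l + l / 400) := by
    have h3 := rest_le hC hC1 hσ hJN hj hl hAB hJ (θ := j * l + l / 400) (by linarith)
      (by linarith)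
    have h4 := (abs_le.1 h3).1
    have h5 : 1 / (l / 400) ≤ cc (j * l + l / 400 - j * l) := by
      rw [add_sub_cancel_left]
      exact cc_ge (by positivity) (by linarith)
    have h7 : 400 ≤ l * cc (j * l + l / 400 - j * l) := by
      calc (400 : ℝ) = l * (1 / (l / 400)) := by field_simp
        _ ≤ _ := by gcongr
    linarith
  obtain ⟨θ₀, hθ₀, hval⟩ := intermediate_value_Icc' hle hcont ⟨hv1, hv2⟩
  refine ⟨θ₀, hθ₀.1, hθ₀.2, n, fun θ hθ => ?_⟩
  have hw : e * l / 16000000 ≤ l / 800 := by nlinarith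
  have h3 := DY_lip hC hC1 hσ hJN hj hl hAB hJ (θ := θ) (θ' := θ₀)
    (by linarith [hθ.1, hθ₀.1]) (hθ.2.trans hθ₀.2) (by linarith [hθ₀.1]) hθ₀.2
  rw [hval] at h3
  have h4 : Y + DY σ J l θ - 2 * Real.pi * n = DY σ J l θ - (2 * Real.pi * n - Y) := by ring
  rw [h4]
  refine h3.trans ?_
  have h5 : |θ - θ₀| ≤ e * l / 16000000 := by
    rw [abs_sub_comm, abs_of_nonneg (by linarith [hθ.2])]
    linarith [hθ.1]
  calc 4000000 / l * |θ - θ₀| ≤ 4000000 / l * (e * l / 16000000) := by gcongr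
    _ = e / 4 := by field_simp; norm_num

end near

end Pool.Agent.Helper34.Sing
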