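import Pool.Agent.Helper34.Sing7

set_option autoImplicit false

open MeasureTheory Filter Topology Set Complex
open scoped Interval ENNReal

namespace Pool.Agent.Helper34.Sing

open Pool.Agent.Helper34.Bmoa

lemma gap_sin {Z : Set ℝ} (hZ : IsCompact Z) (hZs : Z ⊆ Ioo 0 (2 * Real.pi)) {θ : ℝ}
    (hθ : θ ∈ Ioo 0 (2 * Real.pi)) (hne : θ ∉ Z) :
    ∃ s : ℝ, 0 < s ∧ ∀ t ∈ Z, s ≤ |Real.sin ((θ - t) / 2)| := by
  rcases Z.eq_empty_or_nonempty with h | h
  · exact ⟨1, one_pos, by simp [h]⟩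
  · have hcont : ContinuousOn (fun t : ℝ => |Real.sin ((θ - t) / 2)|) Z := by
      fun_prop
    obtain ⟨t₀, ht₀, hmin⟩ := hZ.exists_isMinOn h hcont
    refine ⟨|Real.sin ((θ - t₀) / 2)|, ?_, fun t ht => hmin ht⟩
    have h1 := hZs ht₀
    have h2 : θ - t₀ ≠ 0 := by
      intro h3
      have : θ = t₀ := by linarith
      rw [this] at hne
      exact hne ht₀
    have h3 : 0 < |θ - t₀| := abs_pos.2 h2
    have h4 : |θ - t₀| < 2 * Real.pi := by
      rw [abs_lt]
      constructor <;> linarith [h1.1, h1.2, hθ.1, hθ.2]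
    have hpi := Real.pi_pos
    set d := min (|θ - t₀|) (2 * Real.pi - |θ - t₀|) with hd
    have hdpos : 0 < d := lt_min h3 (by linarith)
    have h5 := sin_lower (v := θ - t₀) (d := d) (min_le_left _ _)
      (by
        have := min_le_right (|θ - t₀|) (2 * Real.pi - |θ - t₀|)
        linarith) hdpos.le
    exact lt_of_lt_of_le (by positivity) h5

lemma integrable_cc' {ν : Measure ℝ} [IsFiniteMeasure ν] {Z : Set ℝ} (hZ : IsCompact Z)
    (hZs : Z ⊆ Ioo 0 (2 * Real.pi)) (hν : ν Zᶜ = 0) {θ : ℝ} (hθ : θ ∈ Ioo 0 (2 * Real.pi))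
    (hne : θ ∉ Z) : Integrable (fun t => cc (θ - t)) ν := by
  obtain ⟨s, hs, h⟩ := gap_sin hZ hZs hθ hne
  exact integrable_cc hν hs h

lemma YY_eq_im (μ : Measure ℝ) (θ : ℝ) : YY μ θ = (KK μ (cb θ)).im := by
  rw [KK_cb]
  simp

lemma continuousAt_YY {μ : Measure ℝ} [IsFiniteMeasure μ] {Z : Set ℝ} (hZ : IsCompact Z)
    (hZs : Z ⊆ Ioo 0 (2 * Real.pi)) (hμ : μ Zᶜ = 0) {θ : ℝ} (hθ : θ ∈ Ioo 0 (2 * Real.pi))
    (hne : θ ∉ Z) : ContinuousAt (YY μ) θ := by
  have h1 : YY μ = fun θ => (KK μ (cb θ)).im := by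
    funext θ
    exact YY_eq_im μ θ
  rw [h1]
  have h2 : ContinuousAt (KK μ) (cb θ) := by
    apply continuousAt_KK hZ hμ
    intro t ht
    apply exp_ne_cb (hZs ht) ⟨hθ.1.le, hθ.2⟩
    rintro rfl
    exact hne ht
  have h3 : ContinuousAt (fun θ => KK μ (cb θ)) θ :=
    ContinuousAt.comp (g := KK μ) (f := cb) h2 continuous_cb.continuousAt
  exact Complex.continuous_im.continuousAt.comp h3

lemma YY_add {μ ν : Measure ℝ} {θ : ℝ} (h1 : Integrable (fun t => cc (θ - t)) μ)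
    (h2 : Integrable (fun t => cc (θ - t)) ν) : YY (μ + ν) θ = YY μ θ + YY ν θ :=
  integral_add_measure h1 h2

/-- atoms at the left endpoints of the cells -/
noncomputable def atomsM (J : Finset ℕ) (l : ℝ) : Measure ℝ :=
  ∑ j ∈ J, ENNReal.ofReal l • Measure.dirac (j * l : ℝ)

/-- continuous parts in the cells -/
noncomputable def cellsM (σ : Measure ℝ) (J : Finset ℕ) (l : ℝ) : Measure ℝ :=
  ∑ j ∈ J, ENNReal.ofReal l • cellm σ (j * l) l

lemma integrable_dirac_smul {f : ℝ → ℝ} (hf : Measurable f) (l a : ℝ) :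
    Integrable f (ENNReal.ofReal l • Measure.dirac a) := by
  apply Integrable.smul_measure _ ENNReal.ofReal_ne_top
  exact integrable_dirac (by simp)

lemma YY_atomsM (J : Finset ℕ) {l : ℝ} (hl : 0 < l) (θ : ℝ) :
    Integrable (fun t => cc (θ - t)) (atomsM J l) ∧
    YY (atomsM J l) θ = l * ∑ j ∈ J, cc (θ - j * l) := by
  have h1 : ∀ j ∈ J, Integrable (fun t => cc (θ - t))
      (ENNReal.ofReal l • Measure.dirac (j * l : ℝ)) := fun j _ =>
    integrable_dirac_smul (measurable_cc_sub θ) _ _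
  constructor
  · exact integrable_finsetSum_measure.2 h1
  · rw [YY, atomsM, integral_finsetSum_measure h1, Finset.mul_sum]
    apply Finset.sum_congr rfl
    intro j _
    rw [integral_smul_measure, integral_dirac, ENNReal.toReal_ofReal hl.le, smul_eq_mul]

lemma YY_cellsM {σ : Measure ℝ} [IsProbabilityMeasure σ] {J : Finset ℕ} {l : ℝ} (hl : 0 < l)
    {θ : ℝ} (h : ∀ j ∈ J, Integrable (fun t => cc (θ - t)) (cellm σ (j * l) l)) :
    Integrable (fun t => cc (θ - t)) (cellsM σ J l) ∧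
    YY (cellsM σ J l) θ = l * ∑ j ∈ J, YY (cellm σ (j * l) l) θ := by
  have h1 : ∀ j ∈ J, Integrable (fun t => cc (θ - t))
      (ENNReal.ofReal l • cellm σ (j * l) l) := fun j hj =>
    (h j hj).smul_measure ENNReal.ofReal_ne_top
  constructor
  · exact integrable_finsetSum_measure.2 h1
  · rw [YY, cellsM, integral_finsetSum_measure h1, Finset.mul_sum]
    apply Finset.sum_congr rfl
    intro j _
    rw [integral_smul_measure, ENNReal.toReal_ofReal hl.le, smul_eq_mul]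
    rfl

lemma atomsM_univ (J : Finset ℕ) (l : ℝ) :
    atomsM J l univ = (J.card : ℝ≥0∞) * ENNReal.ofReal l := by
  simp [atomsM, Finset.sum_const, nsmul_eq_mul]

lemma cellsM_univ (σ : Measure ℝ) [IsProbabilityMeasure σ] (J : Finset ℕ) (l : ℝ) :
    cellsM σ J l univ = (J.card : ℝ≥0∞) * ENNReal.ofReal l := by
  simp [cellsM, Finset.sum_const, nsmul_eq_mul]

lemma atomsM_disc {J : Finset ℕ} {l : ℝ} (hJ : ∀ j ∈ J, (j * l : ℝ) ∈ Ioo 0 (2 * Real.pi)) :
    Disc (atomsM J l) := by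
  refine ⟨(fun j : ℕ => (j * l : ℝ)) '' J, (Finset.countable_toSet J).image _, ?_, ?_⟩
  · rintro _ ⟨j, hj, rfl⟩
    exact hJ j hj
  · rw [atomsM, Measure.finsetSum_apply]
    apply Finset.sum_eq_zero
    intro j hj
    rw [Measure.smul_apply, Measure.dirac_apply' _
      ((Finset.countable_toSet J).image _).measurableSet.compl]
    have : (j * l : ℝ) ∉ ((fun j : ℕ => (j * l : ℝ)) '' (J : Set ℕ))ᶜ := by
      intro h
      exact h ⟨j, hj, rfl⟩
    rw [indicator_of_notMem this, smul_zero]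

lemma cellsM_null {σ : Measure ℝ} {J : Finset ℕ} {l : ℝ} {S : Set ℝ}
    (h : ∀ j ∈ J, cellm σ (j * l) l S = 0) : cellsM σ J l S = 0 := by
  rw [cellsM, Measure.finsetSum_apply]
  apply Finset.sum_eq_zero
  intro j hj
  rw [Measure.smul_apply, h j hj, smul_zero]

end Pool.Agent.Helper34.Sing
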