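import Pool.Agent.Helper34.Sing8

set_option autoImplicit false

open MeasureTheory Filter Topology Set Complex
open scoped Interval ENNReal Pointwise

namespace Pool.Agent.Helper34.Sing

open Pool.Agent.Helper34.Bmoa

lemma cell_disjoint {i j : ℕ} (hij : i ≠ j) {l : ℝ} (hl : 0 < l) :
    Disjoint (Ico ((i : ℝ) * l) (i * l + l)) (Ico ((j : ℝ) * l) (j * l + l)) := by
  rw [Set.disjoint_left]
  rintro x ⟨h1, h2⟩ ⟨h3, h4⟩
  rcases lt_or_gt_of_ne hij with h | h
  · have : (i : ℝ) + 1 ≤ j := by exact_mod_cast h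
    nlinarith
  · have : (j : ℝ) + 1 ≤ i := by exact_mod_cast h
    nlinarith

lemma card_le_volume {J : Finset ℕ} {l : ℝ} (hl : 0 < l) {U : Set ℝ}
    (h : ∀ j ∈ J, Ico ((j : ℝ) * l) (j * l + l) ⊆ U) :
    (J.card : ℝ≥0∞) * ENNReal.ofReal l ≤ volume U := by
  have h1 : volume (⋃ j ∈ J, Ico ((j : ℝ) * l) (j * l + l)) =
      ∑ j ∈ J, volume (Ico ((j : ℝ) * l) (j * l + l)) :=
    measure_biUnion_finset (fun i _ j _ hij => cell_disjoint hij hl)
      (fun j _ => measurableSet_Ico)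
  have h2 : ∑ j ∈ J, volume (Ico ((j : ℝ) * l) (j * l + l)) =
      (J.card : ℝ≥0∞) * ENNReal.ofReal l := by
    simp [Real.volume_Ico, Finset.sum_const, nsmul_eq_mul]
  rw [← h2, ← h1]
  exact measure_mono (iUnion₂_subset h)

lemma volume_le_card {J : Finset ℕ} {l : ℝ} {K : Set ℝ}
    (h : K ⊆ ⋃ j ∈ J, Ico ((j : ℝ) * l) (j * l + l)) :
    volume K ≤ (J.card : ℝ≥0∞) * ENNReal.ofReal l := by
  refine (measure_mono h).trans ((measure_biUnion_finset_le _ _).trans (le_of_eq ?_))
  simp [Real.volume_Ico, Finset.sum_const, nsmul_eq_mul]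

lemma windows_volume {J : Finset ℕ} {l w : ℝ} (hl : 0 < l) {c : ℕ → ℝ}
    (h : ∀ j ∈ J, Icc (c j - w) (c j) ⊆ Ico ((j : ℝ) * l) (j * l + l)) :
    volume (⋃ j ∈ J, Icc (c j - w) (c j)) = (J.card : ℝ≥0∞) * ENNReal.ofReal w := by
  rw [measure_biUnion_finset (fun i hi j hj hij =>
    (cell_disjoint hij hl).mono (h i hi) (h j hj)) (fun j _ => measurableSet_Icc)]
  simp [Real.volume_Icc, Finset.sum_const, nsmul_eq_mul]

/-- The invariant of the construction. -/
structure Inv (A B e : ℝ) (μ ν : Measure ℝ) (Z U : Set ℝ) : Prop where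
  fμ : IsFiniteMeasure μ
  fν : IsFiniteMeasure ν
  hZ : IsCompact Z
  hZs : Z ⊆ Ioo 0 (2 * Real.pi)
  hZ0 : volume Z = 0
  hμ : μ Zᶜ = 0
  hν : ν Zᶜ = 0
  hU : IsOpen U
  hUs : U ⊆ Icc A B
  done : ∀ θ ∈ Ioo 0 (2 * Real.pi), θ ∉ Z → θ ∉ U →
    ∃ n : ℤ, |YY μ θ - YY ν θ - 2 * Real.pi * n| ≤ e

/-- half of the measure of an open set is in a compact subset -/
lemma exists_half_compact {U : Set ℝ} (hU : IsOpen U) (hfin : volume U ≠ ⊤) :
    ∃ K ⊆ U, IsCompact K ∧ volume U ≤ 2 * volume K := by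
  rcases eq_or_ne (volume U) 0 with h | h
  · exact ⟨∅, empty_subset _, isCompact_empty, by simp [h]⟩
  · have h1 : volume U / 2 < volume U := ENNReal.half_lt_self h hfin
    obtain ⟨K, hK, hKc, hlt⟩ := hU.exists_lt_isCompact h1
    refine ⟨K, hK, hKc, ?_⟩
    rw [ENNReal.div_lt_iff (Or.inl two_ne_zero) (Or.inl ENNReal.ofNat_ne_top)] at hlt
    rw [mul_comm]
    exact hlt.le

section step

variable {σ : Measure ℝ} [IsProbabilityMeasure σ] {C₀ : Set ℝ} (hC : IsCompact C₀)
  (hC1 : C₀ ⊆ Icc 0 1) (hC0 : volume C₀ = 0) (hσ : σ C₀ᶜ = 0)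

include hC hC1 hσ in
/-- the far effect of the new masses -/
lemma far_bound {J : Finset ℕ} {N : ℕ} {l θ d : ℝ} (hl : 0 < l) (hd : 0 < d)
    (hJN : J ⊆ Finset.range N) (hNl : N * l = 2 * Real.pi)
    (h : ∀ j ∈ J, ∀ t ∈ Icc ((j : ℝ) * l) (j * l + l), d / Real.pi ≤ |Real.sin ((θ - t) / 2)|) :
    |DY σ J l θ| ≤ 30 * l / d ^ 2 := by
  have hpi := Real.pi_pos
  have hpi3 : Real.pi < 3.15 := Real.pi_lt_d2
  have hpi2 := pi_sq_le
  have hs : 0 < d / Real.pi := by positivity
  have h1 : ∀ j ∈ J, |cc (θ - j * l) - YY (cellm σ (j * l) l) θ| ≤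
      3 * l / 4 / 2 / (d / Real.pi * (d / Real.pi)) := by
    intro j hj
    apply abs_dipole_le (cellm_supp' hC hC1 hσ hl) hs hs
    · exact h j hj _ ⟨le_rfl, by linarith⟩
    · intro t ht
      exact h j hj t ⟨by linarith [ht.1], by linarith [ht.2]⟩
    · intro t ht
      rw [abs_of_nonneg (by linarith [ht.1])]
      linarith [ht.2]
  have h2 : 3 * l / 4 / 2 / (d / Real.pi * (d / Real.pi)) = 3 / 8 * Real.pi ^ 2 * l / d ^ 2 := by
    field_simp
    norm_num
  have h3 : 3 / 8 * Real.pi ^ 2 * l / d ^ 2 ≤ 15 / 4 * l / d ^ 2 := by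
    gcongr
    linarith
  rw [DY, abs_mul, abs_of_pos hl]
  have h4 : |∑ i ∈ J, (cc (θ - i * l) - YY (cellm σ (i * l) l) θ)| ≤
      J.card * (15 / 4 * l / d ^ 2) := by
    refine (Finset.abs_sum_le_sum_abs _ _).trans ?_
    refine (Finset.sum_le_card_nsmul _ _ (15 / 4 * l / d ^ 2) (fun j hj => ?_)).trans
      (le_of_eq (nsmul_eq_mul _ _))
    exact (h1 j hj).trans (h2.le.trans h3)
  have h5 : (J.card : ℝ) ≤ N := by
    have := Finset.card_le_card hJN
    rw [Finset.card_range] at this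
    exact_mod_cast this
  calc l * |∑ i ∈ J, (cc (θ - i * l) - YY (cellm σ (i * l) l) θ)|
      ≤ l * (N * (15 / 4 * l / d ^ 2)) := by
        gcongr
        refine h4.trans ?_
        gcongr
    _ = (N * l) * (15 / 4 * l / d ^ 2) := by ring
    _ = 2 * Real.pi * (15 / 4 * l / d ^ 2) := by rw [hNl]
    _ ≤ 8 * (15 / 4 * l / d ^ 2) := by
        gcongr
        linarith
    _ = 30 * l / d ^ 2 := by ring

include hC hC1 hC0 hσ in
lemma step (hσa : ∀ x, σ {x} = 0) {A B : ℝ} (hA : 0 < A) (hB : B < 2 * Real.pi)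
    (hAB : B - A ≤ Real.pi) {e₀ e e' : ℝ} (he₀ : 0 < e₀) (he₀1 : e₀ ≤ 1) (h1 : e₀ ≤ e)
    (h2 : e < e') {μ ν : Measure ℝ} {Z U : Set ℝ} (h : Inv A B e μ ν Z U) :
    ∃ (α β : Measure ℝ) (Z' U' : Set ℝ), Inv A B e' (μ + α) (ν + β) Z' U' ∧ Disc α ∧
      (∀ x, β {x} = 0) ∧ β Z'ᶜ = 0 ∧ α univ = β univ ∧ α univ ≤ volume U ∧
      volume U' ≤ ENNReal.ofReal (1 - e₀ / 32000000) * volume U := by
  classical
  obtain ⟨fμ, fν, hZ, hZs, hZ0, hμ, hν, hU, hUs, hdone⟩ := h
  have hpi := Real.pi_pos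
  have hAB0 : Icc A B ⊆ Ioo 0 (2 * Real.pi) := fun t ht => ⟨by linarith [ht.1], by linarith [ht.2]⟩
  have hUfin : volume U ≠ ⊤ := by
    apply ne_top_of_le_ne_top _ (measure_mono hUs)
    rw [Real.volume_Icc]
    exact ENNReal.ofReal_ne_top
  -- the part of `U` off `Z`
  set U₁ : Set ℝ := U \ Z with hU₁
  have hU₁o : IsOpen U₁ := hU.sdiff hZ.isClosed
  have hU₁v : volume U₁ = volume U := measure_sdiff_null hZ0
  have hU₁fin : volume U₁ ≠ ⊤ := by rw [hU₁v]; exact hUfin
  obtain ⟨K, hKU, hK, hKv⟩ := exists_half_compact hU₁o hU₁fin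
  obtain ⟨δ, hδ, hδK⟩ := hK.exists_cthickening_subset_open hU₁o hKU
  have hclosedBall : ∀ k ∈ K, ∀ r ≤ δ, Metric.closedBall k r ⊆ Metric.cthickening r K :=
    fun k hk r _ => Metric.closedBall_subset_cthickening hk r
  -- uniform continuity
  set Kc : Set ℝ := Metric.cthickening (δ / 2) K with hKc
  have hKcU : Kc ⊆ U₁ := (Metric.cthickening_mono (by linarith) K).trans hδK
  have hKcc : IsCompact Kc := hK.cthickening
  have hYcont : ContinuousOn (fun θ => YY μ θ - YY ν θ) Kc := by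
    intro θ hθ
    have hθ1 := hKcU hθ
    have hθ2 : θ ∈ Ioo 0 (2 * Real.pi) := hAB0 (hUs hθ1.1)
    exact ((continuousAt_YY hZ hZs hμ hθ2 hθ1.2).sub
      (continuousAt_YY hZ hZs hν hθ2 hθ1.2)).continuousWithinAt
  have hunif := hKcc.uniformContinuousOn_of_continuous hYcont
  rw [Metric.uniformContinuousOn_iff] at hunif
  obtain ⟨η, hη, hηK⟩ := hunif (e₀ / 4) (by positivity)
  -- the constants
  set d : ℝ := min (δ / 2) (min A (2 * Real.pi - B)) with hd
  have hdpos : 0 < d := lt_min (by linarith) (lt_min hA (by linarith))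
  set m : ℝ := min (min 1 (δ / 2)) (min (η / 2) ((e' - e) * d ^ 2 / 30)) with hm
  have hmpos : 0 < m := by
    apply lt_min
    · apply lt_min one_pos
      linarith
    · apply lt_min (by linarith)
      have : 0 < e' - e := by linarith
      positivity
  obtain ⟨N, hN⟩ := exists_nat_gt (2 * Real.pi / m)
  have hN0 : (0 : ℝ) < N := lt_trans (by positivity) hN
  set l : ℝ := 2 * Real.pi / N with hldef
  have hl : 0 < l := by positivity
  have hNl : N * l = 2 * Real.pi := by rw [hldef]; field_simp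
  have hlm : l ≤ m := by
    rw [hldef, div_le_iff₀ hN0]
    rw [div_lt_iff₀ hmpos] at hN
    linarith
  have hl1 : l ≤ 1 := hlm.trans ((min_le_left _ _).trans (min_le_left _ _))
  have hlδ : l ≤ δ / 2 := hlm.trans ((min_le_left _ _).trans (min_le_right _ _))
  have hlη : l < η := by
    have : l ≤ η / 2 := hlm.trans ((min_le_right _ _).trans (min_le_left _ _))
    linarith
  have hle : 30 * l / d ^ 2 ≤ e' - e := by
    have : l ≤ (e' - e) * d ^ 2 / 30 := hlm.trans ((min_le_right _ _).trans (min_le_right _ _))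
    rw [div_le_iff₀ (by positivity)]
    linarith
  -- the cells
  set J : Finset ℕ := (Finset.range N).filter
    (fun j => (Icc ((j : ℝ) * l) (j * l + l) ∩ K).Nonempty) with hJdef
  have hJN : J ⊆ Finset.range N := Finset.filter_subset _ _
  have hJcell : ∀ j ∈ J, ∃ k ∈ K, Icc ((j : ℝ) * l) (j * l + l) ⊆ Metric.closedBall k l := by
    intro j hj
    rw [hJdef, Finset.mem_filter] at hj
    obtain ⟨k, hk1, hk2⟩ := hj.2
    refine ⟨k, hk2, fun t ht => ?_⟩
    rw [Metric.mem_closedBall, Real.dist_eq, abs_le]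
    constructor <;> linarith [ht.1, ht.2, hk1.1, hk1.2]
  have hJKc : ∀ j ∈ J, Icc ((j : ℝ) * l) (j * l + l) ⊆ Kc := by
    intro j hj
    obtain ⟨k, hk, hsub⟩ := hJcell j hj
    refine hsub.trans ((Metric.closedBall_subset_closedBall hlδ).trans ?_)
    exact Metric.closedBall_subset_cthickening hk _
  have hJU : ∀ j ∈ J, Icc ((j : ℝ) * l) (j * l + l) ⊆ U₁ := fun j hj => (hJKc j hj).trans hKcU
  have hJAB : ∀ i ∈ J, A ≤ i * l ∧ i * l + l ≤ B := by
    intro i hi
    have a1 := hUs (hJU i hi (left_mem_Icc.2 (by linarith))).1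
    have a2 := hUs (hJU i hi (right_mem_Icc.2 (by linarith))).1
    exact ⟨a1.1, a2.2⟩
  have hKcover : K ⊆ ⋃ j ∈ J, Ico ((j : ℝ) * l) (j * l + l) := by
    intro k hk
    have hk0 := hAB0 (hUs (hKU hk).1)
    have hfl := Nat.floor_le (a := k / l) (by
      apply div_nonneg hk0.1.le hl.le)
    have hfl2 := Nat.lt_floor_add_one (k / l)
    rw [le_div_iff₀ hl] at hfl
    rw [div_lt_iff₀ hl] at hfl2
    have hmem : k ∈ Ico ((⌊k / l⌋₊ : ℝ) * l) (⌊k / l⌋₊ * l + l) := ⟨hfl, by linarith⟩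
    have hlt : ⌊k / l⌋₊ < N := by
      have h3 : (⌊k / l⌋₊ : ℝ) * l < N * l := by
        rw [hNl]
        linarith [hk0.2]
      have h4 : (⌊k / l⌋₊ : ℝ) < N := lt_of_mul_lt_mul_right h3 hl.le
      exact_mod_cast h4
    rw [mem_iUnion₂]
    refine ⟨⌊k / l⌋₊, ?_, hmem⟩
    rw [hJdef, Finset.mem_filter, Finset.mem_range]
    exact ⟨hlt, k, Ico_subset_Icc_self hmem, hk⟩
  -- windows
  have hwin : ∀ j ∈ J, ∃ θ₀, j * l + l / 400 ≤ θ₀ ∧ θ₀ ≤ j * l + l / 4 ∧ ∃ n : ℤ,
      ∀ θ ∈ Icc (θ₀ - e₀ * l / 16000000) θ₀,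
      |(YY μ (j * l) - YY ν (j * l)) + DY σ J l θ - 2 * Real.pi * n| ≤ e₀ / 4 := fun j hj =>
    window hC hC1 hσ hJN hj hl hAB hJAB hl1 _ he₀ he₀1
  choose! c hc1 hc2 hc3 using hwin
  set w : ℝ := e₀ * l / 16000000 with hw
  have hwl : w ≤ l / 800 := by rw [hw]; nlinarith
  have hw0 : 0 < w := by positivity
  have hwcell : ∀ j ∈ J, Icc (c j - w) (c j) ⊆ Ico ((j : ℝ) * l) (j * l + l) := by
    intro j hj t ht
    have a1 := hc1 j hj
    have a2 := hc2 j hj
    exact ⟨by linarith [ht.1], by linarith [ht.2]⟩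
  set W : Set ℝ := ⋃ j ∈ J, Icc (c j - w) (c j) with hW
  have hWclosed : IsClosed W := by
    rw [hW]
    exact J.finite_toSet.isClosed_biUnion (fun j _ => isClosed_Icc)
  have hWU : W ⊆ U := by
    rw [hW]
    refine iUnion₂_subset fun j hj => ?_
    exact (hwcell j hj).trans (Ico_subset_Icc_self.trans ((hJU j hj).trans sdiff_subset))
  -- supports
  set supp : ℕ → Set ℝ := fun j => {(j * l : ℝ)} ∪
    (fun s : ℝ => j * l + l / 2 + s * (l / 4)) '' C₀ with hsupp
  have hsuppc : ∀ j, IsCompact (supp j) := fun j =>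
    isCompact_singleton.union (hC.image (by fun_prop))
  have hsuppsub : ∀ j, supp j ⊆ Icc ((j : ℝ) * l) (j * l + l) := by
    intro j
    rw [hsupp]
    refine union_subset (singleton_subset_iff.2 ⟨le_rfl, by linarith⟩) ?_
    rintro _ ⟨s, hs, rfl⟩
    have a1 := (hC1 hs).1
    have a2 := (hC1 hs).2
    simp only
    constructor <;> nlinarith
  have hsupp0 : ∀ j, volume (supp j) = 0 := by
    intro j
    rw [hsupp]
    refine measure_union_null (measure_singleton _) ?_
    have h5 : (fun s : ℝ => j * l + l / 2 + s * (l / 4)) '' C₀ =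
        (fun y : ℝ => (j * l + l / 2) + y) '' ((l / 4) • C₀) := by
      rw [← image_smul, image_image]
      congr 1
      funext s
      rw [smul_eq_mul]
      ring
    rw [h5, image_add_left, measure_preimage_add, Measure.addHaar_smul, hC0, mul_zero]
  set Z' : Set ℝ := Z ∪ ⋃ j ∈ J, supp j with hZ'
  have hZ'c : IsCompact Z' := hZ.union (J.finite_toSet.isCompact_biUnion fun j _ => hsuppc j)
  have hZ's : Z' ⊆ Ioo 0 (2 * Real.pi) := by
    refine union_subset hZs (iUnion₂_subset fun j hj => ?_)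
    exact (hsuppsub j).trans ((hJU j hj).trans (sdiff_subset.trans (hUs.trans hAB0)))
  have hZ'0 : volume Z' = 0 := by
    refine measure_union_null hZ0 ?_
    exact (measure_biUnion_null_iff (I := (J : Set ℕ)) J.countable_toSet).2
      (fun j _ => hsupp0 j)
  have hsubZ' : ∀ j ∈ J, supp j ⊆ Z' := fun j hj =>
    (subset_biUnion_of_mem (u := supp) hj).trans subset_union_right
  have hpZ' : ∀ j ∈ J, (j * l : ℝ) ∈ Z' := fun j hj => hsubZ' j hj (Or.inl rfl)
  -- masses of the complement of `Z'`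
  have hμ' : μ Z'ᶜ = 0 := measure_mono_null (compl_subset_compl.2 subset_union_left) hμ
  have hν' : ν Z'ᶜ = 0 := measure_mono_null (compl_subset_compl.2 subset_union_left) hν
  have hα' : atomsM J l Z'ᶜ = 0 := by
    rw [atomsM, Measure.finsetSum_apply]
    apply Finset.sum_eq_zero
    intro j hj
    rw [Measure.smul_apply, Measure.dirac_apply' _ hZ'c.isClosed.measurableSet.compl]
    have : (j * l : ℝ) ∉ Z'ᶜ := fun h => h (hpZ' j hj)
    rw [indicator_of_notMem this, smul_zero]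
  have hcell' : ∀ j ∈ J, cellm σ (j * l) l Z'ᶜ = 0 := by
    intro j hj
    refine measure_mono_null (compl_subset_compl.2 ?_) (cellm_supp hC hσ (j * l) l)
    exact subset_union_right.trans (hsubZ' j hj)
  have hβ' : cellsM σ J l Z'ᶜ = 0 := cellsM_null hcell'
  have hαfin : IsFiniteMeasure (atomsM J l) := ⟨by
    rw [atomsM_univ]
    exact ENNReal.mul_lt_top (by simp) ENNReal.ofReal_lt_top⟩
  have hβfin : IsFiniteMeasure (cellsM σ J l) := ⟨by
    rw [cellsM_univ]
    exact ENNReal.mul_lt_top (by simp) ENNReal.ofReal_lt_top⟩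
  -- the new phase
  have hphase : ∀ θ ∈ Ioo 0 (2 * Real.pi), θ ∉ Z' →
      YY (μ + atomsM J l) θ - YY (ν + cellsM σ J l) θ = (YY μ θ - YY ν θ) + DY σ J l θ := by
    intro θ hθ hθZ
    obtain ⟨a1, a2⟩ := YY_atomsM J hl θ
    have b0 : ∀ j ∈ J, Integrable (fun t => cc (θ - t)) (cellm σ (j * l) l) := fun j hj =>
      integrable_cc' hZ'c hZ's (hcell' j hj) hθ hθZ
    obtain ⟨b1, b2⟩ := YY_cellsM hl b0
    rw [YY_add (integrable_cc' hZ'c hZ's hμ' hθ hθZ) a1,
      YY_add (integrable_cc' hZ'c hZ's hν' hθ hθZ) b1, a2, b2, DY, Finset.sum_sub_distrib]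
    ring
  refine ⟨atomsM J l, cellsM σ J l, Z', U \ W, ⟨inferInstance, inferInstance, hZ'c, hZ's, hZ'0,
    ?_, ?_, hU.sdiff hWclosed, sdiff_subset.trans hUs, ?_⟩, ?_, ?_, hβ', ?_, ?_, ?_⟩
  · rw [Measure.add_apply, hμ', hα', add_zero]
  · rw [Measure.add_apply, hν', hβ', add_zero]
  · intro θ hθ hθZ hθU
    rw [hphase θ hθ hθZ]
    by_cases hU' : θ ∈ U
    · -- inside a window
      have hθW : θ ∈ W := by
        by_contra hcon
        exact hθU ⟨hU', hcon⟩
      rw [hW, mem_iUnion₂] at hθW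
      obtain ⟨j, hj, hθj⟩ := hθW
      obtain ⟨n, hn⟩ := hc3 j hj
      refine ⟨n, ?_⟩
      have a1 := hn θ hθj
      have a2 : θ ∈ Icc ((j : ℝ) * l) (j * l + l) := Ico_subset_Icc_self (hwcell j hj hθj)
      have a3 : ((j : ℝ) * l) ∈ Icc ((j : ℝ) * l) (j * l + l) := left_mem_Icc.2 (by linarith)
      have a4 : dist θ ((j : ℝ) * l) < η := by
        rw [Real.dist_eq, abs_lt]
        constructor <;> linarith [a2.1, a2.2]
      have a5 := hηK θ (hJKc j hj a2) _ (hJKc j hj a3) a4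
      rw [Real.dist_eq] at a5
      have a6 : YY μ θ - YY ν θ + DY σ J l θ - 2 * Real.pi * n =
          ((YY μ θ - YY ν θ) - (YY μ (j * l) - YY ν (j * l))) +
          ((YY μ (j * l) - YY ν (j * l)) + DY σ J l θ - 2 * Real.pi * n) := by ring
      rw [a6]
      refine (abs_add_le _ _).trans ?_
      linarith
    · -- far away
      have hθZ0 : θ ∉ Z := fun h => hθZ (Or.inl h)
      obtain ⟨n, hn⟩ := hdone θ hθ hθZ0 hU'
      refine ⟨n, ?_⟩
      have b1 : |DY σ J l θ| ≤ 30 * l / d ^ 2 := by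
        apply far_bound hC hC1 hσ hl hdpos hJN hNl
        intro j hj t ht
        obtain ⟨k, hk, hsub⟩ := hJcell j hj
        have b2 := hsub ht
        rw [Metric.mem_closedBall, Real.dist_eq] at b2
        have b3 : δ < |θ - k| := by
          by_contra hcon
          push Not at hcon
          have b4 : θ ∈ Metric.closedBall k δ := by
            rw [Metric.mem_closedBall, Real.dist_eq]
            exact hcon
          have b5 := hδK (Metric.closedBall_subset_cthickening hk δ b4)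
          exact hU' b5.1
        have b4 : |θ - k| ≤ |θ - t| + |t - k| := abs_sub_le _ _ _
        have b5 : δ / 2 ≤ |θ - t| := by linarith
        have b6 := hUs (hJU j hj ht).1
        have b7 : |θ - t| ≤ 2 * Real.pi - min A (2 * Real.pi - B) := by
          have c1 := min_le_left A (2 * Real.pi - B)
          have c2 := min_le_right A (2 * Real.pi - B)
          rw [abs_le]
          constructor <;> linarith [b6.1, b6.2, hθ.1, hθ.2]
        apply sin_lower _ _ hdpos.le
        · exact (min_le_left _ _).trans b5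
        · have := min_le_right (δ / 2) (min A (2 * Real.pi - B))
          linarith
      have b8 : YY μ θ - YY ν θ + DY σ J l θ - 2 * Real.pi * n =
          (YY μ θ - YY ν θ - 2 * Real.pi * n) + DY σ J l θ := by ring
      rw [b8]
      refine (abs_add_le _ _).trans ?_
      linarith
  · apply atomsM_disc
    intro j hj
    exact hZ's (hpZ' j hj)
  · intro x
    exact cellsM_null fun j _ => cellm_noatom hσa hl x
  · rw [atomsM_univ, cellsM_univ]
  · rw [atomsM_univ]
    apply card_le_volume hl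
    intro j hj
    exact Ico_subset_Icc_self.trans ((hJU j hj).trans sdiff_subset)
  · -- volume of the new undone set
    have v1 : volume W = (J.card : ℝ≥0∞) * ENNReal.ofReal w := windows_volume hl hwcell
    have v2 : volume K ≤ (J.card : ℝ≥0∞) * ENNReal.ofReal l := volume_le_card hKcover
    have v3 : volume U ≤ 2 * ((J.card : ℝ≥0∞) * ENNReal.ofReal l) := by
      rw [← hU₁v]
      exact hKv.trans (by gcongr)
    have v4 : volume (U \ W) = volume U - volume W := by
      apply measure_sdiff hWU hWclosed.measurableSet.nullMeasurableSet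
      exact ne_top_of_le_ne_top hUfin (measure_mono hWU)
    set u : ℝ := (volume U).toReal with hu
    have hu' : volume U = ENNReal.ofReal u := (ENNReal.ofReal_toReal hUfin).symm
    have hu0 : 0 ≤ u := ENNReal.toReal_nonneg
    have v5 : u ≤ 2 * (J.card * l) := by
      have : (J.card : ℝ≥0∞) * ENNReal.ofReal l = ENNReal.ofReal (J.card * l) := by
        rw [ENNReal.ofReal_mul (Nat.cast_nonneg _), ENNReal.ofReal_natCast]
      rw [this, hu', show (2 : ℝ≥0∞) = ENNReal.ofReal 2 by simp, ← ENNReal.ofReal_mul (by norm_num)]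
        at v3
      have hcl : 0 ≤ (J.card : ℝ) * l := mul_nonneg (Nat.cast_nonneg _) hl.le
      exact (ENNReal.ofReal_le_ofReal_iff (by linarith)).1 v3
    have v6 : volume W = ENNReal.ofReal (J.card * w) := by
      rw [v1, ENNReal.ofReal_mul (Nat.cast_nonneg _), ENNReal.ofReal_natCast]
    rw [v4, v6, hu', ← ENNReal.ofReal_sub _ (mul_nonneg (Nat.cast_nonneg _) hw0.le),
      ← ENNReal.ofReal_mul (by linarith)]
    apply ENNReal.ofReal_le_ofReal
    have v7 : J.card * w = (J.card * l) * (e₀ / 16000000) := by rw [hw]; ring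
    rw [v7]
    nlinarith

end step

end Pool.Agent.Helper34.Sing
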